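import Pool.Agent.Y714.KF.Ct

set_option autoImplicit false
set_option linter.unusedSectionVars false
set_option linter.unusedSimpArgs false

/-! Uniqueness of reduced lattices, and the neighbours of a lattice. -/

namespace Pool.Agent.Y714.KF

open NumberField FractionalIdeal Module
open scoped nonZeroDivisors

section

variable {K : Type} [Field K] [NumberField K]

theorem add_mul_add_le {A B C D I : FI K} (h1 : A * C ≤ I) (h2 : A * D ≤ I) (h3 : B * C ≤ I)
    (h4 : B * D ≤ I) : (A + B) * (C + D) ≤ I := by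
  rw [add_mul, mul_add, mul_add]
  simp only [← sup_eq_add]
  exact sup_le (sup_le h1 h2) (sup_le h3 h4)

theorem sp_natCast_le_one (p : ℕ) : sp (p : K) ≤ 1 := by
  rw [sp_le]
  have := FractionalIdeal.coe_mem_one (𝓞 K)⁰ (P := K) (p : 𝓞 K)
  simpa using this

theorem red_unique_lt {P P' : K × K} (hP : Ind P) (hP' : Ind P') (h : Red P) (h' : Red P')
    (hW : ∃ a b c d : ℚ, P'.1 = a * P.1 + b * P.2 ∧ P'.2 = c * P.1 + d * P.2) :
    ∃ r : ℚ, r ≠ 0 ∧ Lt P' = Lt ((r : K) • P) := by
  obtain ⟨a, b, c, d, e1, e2⟩ := hW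
  obtain ⟨r, A, B, C, D, hr, hA, hB, hC, hD, hprim⟩ := exists_primitive4 a b c d (by
    rintro ⟨h1, h2, _, _⟩
    rw [h1, h2] at e1
    simp only [Rat.cast_zero, zero_mul, add_zero] at e1
    exact hP'.fst e1)
  have hrK : (r : K) ≠ 0 := by exact_mod_cast hr
  set Q : K × K := (r : K) • P' with hQ
  have hQ1 : Q.1 = A * P.1 + B * P.2 := by
    rw [hQ, Prod.smul_fst, smul_eq_mul, e1]
    have f1 : (A : K) = r * a := by rw [← Rat.cast_mul, hA]; simp
    have f2 : (B : K) = r * b := by rw [← Rat.cast_mul, hB]; simp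
    rw [f1, f2]; ring
  have hQ2 : Q.2 = C * P.1 + D * P.2 := by
    rw [hQ, Prod.smul_snd, smul_eq_mul, e2]
    have f1 : (C : K) = r * c := by rw [← Rat.cast_mul, hC]; simp
    have f2 : (D : K) = r * d := by rw [← Rat.cast_mul, hD]; simp
    rw [f1, f2]; ring
  have hQred : Red Q := h'.smul hrK
  have hQle : Lt Q ≤ Lt P := Lt_le_iff.2 ⟨mem_Lt.2 ⟨A, B, hQ1.symm⟩, mem_Lt.2 ⟨C, D, hQ2.symm⟩⟩
  have hdet : A * D - B * C ≠ 0 := by
    intro h0
    have h0' : (A : K) * D - B * C = 0 := by exact_mod_cast h0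
    have h1 : (D : K) * Q.1 - B * Q.2 = 0 := by
      rw [hQ1, hQ2]; linear_combination P.1 * h0'
    have h2 : (C : K) * Q.1 - A * Q.2 = 0 := by
      rw [hQ1, hQ2]; linear_combination -P.2 * h0'
    have h3 : ∀ x y : ℤ, (x : K) * Q.1 - y * Q.2 = 0 → x = 0 ∧ y = 0 := by
      intro x y hxy
      have h4 := hP' x (-y) (by
        rw [hQ] at hxy
        simp only [Prod.smul_fst, Prod.smul_snd, smul_eq_mul] at hxy
        have h5 : (r : K) * ((x : K) * P'.1 - y * P'.2) = 0 := by linear_combination hxy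
        have h6 := (mul_eq_zero.1 h5).resolve_left hrK
        push_cast
        linear_combination h6)
      exact ⟨by exact_mod_cast h4.1, by have := h4.2; rw [neg_eq_zero] at this; exact_mod_cast this⟩
    obtain ⟨hD0, hB0⟩ := h3 D B h1
    obtain ⟨hC0, hA0⟩ := h3 C A h2
    exact hprim 2 Nat.prime_two (by simp [hA0, hB0, hC0, hD0])
  have hPQ : Lt Q = Lt P := by
    by_contra hne
    obtain ⟨m, hm, hmQ⟩ : ∃ m ∈ Lt P, m ∉ Lt Q := by
      by_contra hcon
      push Not at hcon
      exact hne (le_antisymm hQle hcon)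
    have hk : ∃ k : ℕ, 0 < k ∧ (k : K) * m ∈ Lt Q := by
      refine ⟨(A * D - B * C).natAbs, Int.natAbs_pos.2 hdet, ?_⟩
      obtain ⟨x, y, rfl⟩ := mem_Lt.1 hm
      have h1 : ((A * D - B * C : ℤ) : K) * (x * P.1 + y * P.2) ∈ Lt Q := by
        refine mem_Lt.2 ⟨x * D - y * C, -x * B + y * A, ?_⟩
        rw [hQ1, hQ2]; push_cast; ring
      rcases Int.natAbs_eq (A * D - B * C) with h2 | h2
      · have h3 : (((A * D - B * C).natAbs : ℕ) : K) = ((A * D - B * C : ℤ) : K) := by
          conv_rhs => rw [h2]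
          simp
        rw [h3]; exact h1
      · have h3 : (((A * D - B * C).natAbs : ℕ) : K) = -((A * D - B * C : ℤ) : K) := by
          conv_rhs => rw [h2]
          simp
        rw [h3, neg_mul]; exact (Lt Q).neg_mem h1
    classical
    set k := Nat.find hk with hkdef
    obtain ⟨hk0, hkm⟩ := Nat.find_spec hk
    have hk1 : k ≠ 1 := by
      intro h1
      rw [← hkdef, h1, Nat.cast_one, one_mul] at hkm
      exact hmQ hkm
    obtain ⟨p, hp, hpk⟩ := Nat.exists_prime_and_dvd hk1
    obtain ⟨l, hl⟩ := hpk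
    have hl0 : 0 < l := Nat.pos_of_ne_zero fun h0 => by
      rw [h0, mul_zero] at hl; omega
    have hlk : l < k := by
      rw [hl]
      have := hp.two_le
      nlinarith
    have hm1 : (l : K) * m ∉ Lt Q := fun hc => Nat.find_min hk hlk ⟨hl0, hc⟩
    set m1 : K := (l : K) * m with hm1def
    have hm1P : m1 ∈ Lt P := by
      have := (Lt P).smul_mem (l : ℤ) hm
      simpa [hm1def] using this
    have hpm1 : (p : K) * m1 ∈ Lt Q := by
      have : (p : K) * m1 = (k : K) * m := by
        rw [hm1def, hl]; push_cast; ring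
      rw [this]; exact hkm
    have hpK : (p : K) ≠ 0 := by exact_mod_cast hp.ne_zero
    -- an element of Lt Q which is not in p Lt P
    obtain ⟨g, hgQ, hg⟩ : ∃ g ∈ Lt Q, ¬ ∃ y ∈ Lt P, g = (p : K) * y := by
      by_contra hcon
      push Not at hcon
      obtain ⟨y1, hy1, hy1'⟩ := hcon Q.1 (fst_mem_Lt Q)
      obtain ⟨y2, hy2, hy2'⟩ := hcon Q.2 (snd_mem_Lt Q)
      obtain ⟨x, y, rfl⟩ := mem_Lt.1 hy1
      obtain ⟨z, w, rfl⟩ := mem_Lt.1 hy2
      have f1 := hP (A - p * x) (B - p * y) (by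
        rw [hQ1] at hy1'; push_cast; linear_combination hy1')
      have f2 := hP (C - p * z) (D - p * w) (by
        rw [hQ2] at hy2'; push_cast; linear_combination hy2')
      refine hprim p hp ⟨⟨x, ?_⟩, ⟨y, ?_⟩, ⟨z, ?_⟩, ⟨w, ?_⟩⟩
      · have := f1.1; rw [sub_eq_zero] at this; exact_mod_cast this
      · have := f1.2; rw [sub_eq_zero] at this; exact_mod_cast this
      · have := f2.1; rw [sub_eq_zero] at this; exact_mod_cast this
      · have := f2.2; rw [sub_eq_zero] at this; exact_mod_cast this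
    have i1 := h p hp g (hQle hgQ) hg
    have i2 := hQred p hp ((p : K) * m1) hpm1 (by
      rintro ⟨y, hy, hy'⟩
      rw [mul_left_cancel₀ hpK hy'] at hm1
      exact hm1 hy)
    set J := sp (p : K) * ct P + sp g with hJ
    set J' := sp (p : K) * ct Q + sp ((p : K) * m1) with hJ'
    have hPne : ct P ≠ 0 := ct_ne hP.fst
    have hQne : ct Q ≠ 0 := ct_ne (by
      rw [hQ, Prod.smul_fst, smul_eq_mul]; exact mul_ne_zero hrK hP'.fst)
    have hincl : J * J' ≤ sp (p : K) * (ct P * ct Q) := by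
      have g1 : sp g ≤ ct P := sp_le.2 (Lt_mem le_rfl (hQle hgQ))
      have g2 : sp g ≤ ct Q := sp_le.2 (Lt_mem le_rfl hgQ)
      have g3 : sp ((p : K) * m1) ≤ ct Q := sp_le.2 (Lt_mem le_rfl hpm1)
      have g4 : sp m1 ≤ ct P := sp_le.2 (Lt_mem le_rfl hm1P)
      refine add_mul_add_le ?_ ?_ ?_ ?_
      · calc sp (p : K) * ct P * (sp (p : K) * ct Q) ≤ sp (p : K) * ct P * (1 * ct Q) := by
              gcongr; exact sp_natCast_le_one p
          _ = _ := by rw [one_mul, mul_assoc]
      · calc sp (p : K) * ct P * sp ((p : K) * m1) ≤ sp (p : K) * ct P * ct Q := by gcongr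
          _ = _ := by rw [mul_assoc]
      · calc sp g * (sp (p : K) * ct Q) ≤ ct P * (sp (p : K) * ct Q) := by gcongr
          _ = _ := by ring
      · calc sp g * sp ((p : K) * m1) = sp (p : K) * (sp m1 * sp g) := by rw [sp_mul]; ring
          _ ≤ sp (p : K) * (ct P * ct Q) := by gcongr
    have hJne : J ≠ 0 := by
      intro h0
      have : sp (p : K) * ct P ≤ J := by rw [hJ, ← sup_eq_add]; exact le_sup_left
      rw [h0] at this
      exact mul_ne_zero (sp_ne hpK) hPne (le_antisymm this (zero_le _))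
    have hJ'ne : J' ≠ 0 := by
      intro h0
      have : sp (p : K) * ct Q ≤ J' := by rw [hJ', ← sup_eq_add]; exact le_sup_left
      rw [h0] at this
      exact mul_ne_zero (sp_ne hpK) hQne (le_antisymm this (zero_le _))
    have h1 := nm_anti (mul_ne_zero hJne hJ'ne) hincl
    rw [nm, nm, map_mul, map_mul, map_mul] at h1
    have h2 : absNorm (sp (p : K)) = (p : ℚ) ^ finrank ℚ K := nm_natCast p
    rw [h2] at h1
    have h3 := nm_pos hPne
    have h4 := nm_pos hQne
    have h5 := nm_pos hJne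
    have h6 := nm_pos hJ'ne
    have hpn : (0 : ℚ) < (p : ℚ) ^ finrank ℚ K := by have := hp.pos; positivity
    have h7 : ((p : ℚ) ^ finrank ℚ K * (nm (ct P) * nm (ct Q))) ^ 2 ≤ (nm J * nm J') ^ 2 :=
      pow_le_pow_left₀ (by positivity) h1 2
    have h8 : (nm J * nm J') ^ 2 < ((p : ℚ) ^ finrank ℚ K * nm (ct P) ^ 2) *
        ((p : ℚ) ^ finrank ℚ K * nm (ct Q) ^ 2) := by
      rw [mul_pow]
      exact mul_lt_mul i1 i2.le (by positivity) (by positivity)
    have h9 : ((p : ℚ) ^ finrank ℚ K * (nm (ct P) * nm (ct Q))) ^ 2 =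
        ((p : ℚ) ^ finrank ℚ K * nm (ct P) ^ 2) * ((p : ℚ) ^ finrank ℚ K * nm (ct Q) ^ 2) := by ring
    rw [h9] at h7
    exact absurd (h7.trans_lt h8) (lt_irrefl _)
  refine ⟨r⁻¹, inv_ne_zero hr, ?_⟩
  ext y
  rw [mem_Lt_smul (by rw [Rat.cast_inv]; exact inv_ne_zero hrK), Rat.cast_inv, inv_inv, ← hPQ, hQ,
    mem_Lt_smul hrK, ← mul_assoc, inv_mul_cancel₀ hrK, one_mul]

/-- the neighbours of a lattice: the sublattices of index `p` -/
def nb (p : ℕ) (o : Option (Fin p)) (P : K × K) : K × K :=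
  match o with
  | none => (P.2, (p : K) * P.1)
  | some r => (P.1 + ((r : ℕ) : K) * P.2, (p : K) * P.2)

theorem ct_nb (p : ℕ) (o : Option (Fin p)) (P : K × K) :
    ct (nb p o P) = sp (p : K) * ct P + sp (nb p o P).1 := by
  cases o with
  | none =>
    refine le_antisymm (ct_le.2 ⟨?_, ?_⟩) ?_
    · refine (show sp P.2 ≤ _ by rw [← sup_eq_add]; exact le_sup_right) ?_
      exact mem_spanSingleton_self _ _
    · have : sp ((p : K) * P.1) ≤ sp (p : K) * ct P + sp (nb p none P).1 := by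
        rw [sp_mul, ← sup_eq_add]
        refine le_trans ?_ le_sup_left
        gcongr
        exact sp_le.2 (fst_mem_ct P)
      exact sp_le.1 this
    · rw [← sup_eq_add]
      refine sup_le ?_ (sp_le.2 (fst_mem_ct _))
      have h1 : sp (p : K) * ct P = sp ((p : K) * P.1) + sp ((p : K) * P.2) := by
        rw [ct, mul_add, ← sp_mul, ← sp_mul]
      rw [h1, ← sup_eq_add]
      refine sup_le (sp_le.2 (snd_mem_ct (nb p none P))) (sp_le.2 ?_)
      exact natCast_mul_mem p (fst_mem_ct (nb p none P))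
  | some r =>
    refine le_antisymm (ct_le.2 ⟨?_, ?_⟩) ?_
    · have : sp (nb p (some r) P).1 ≤ sp (p : K) * ct P + sp (nb p (some r) P).1 := by
        rw [← sup_eq_add]; exact le_sup_right
      exact sp_le.1 this
    · have : sp ((p : K) * P.2) ≤ sp (p : K) * ct P + sp (nb p (some r) P).1 := by
        rw [sp_mul, ← sup_eq_add]
        refine le_trans ?_ le_sup_left
        gcongr
        exact sp_le.2 (snd_mem_ct P)
      exact sp_le.1 this
    · rw [← sup_eq_add]
      refine sup_le ?_ (sp_le.2 (fst_mem_ct _))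
      have h1 : sp (p : K) * ct P = sp ((p : K) * P.1) + sp ((p : K) * P.2) := by
        rw [ct, mul_add, ← sp_mul, ← sp_mul]
      rw [h1, ← sup_eq_add]
      refine sup_le (sp_le.2 ?_) (sp_le.2 (snd_mem_ct (nb p (some r) P)))
      have h2 := fst_mem_ct (nb p (some r) P)
      have h3 := snd_mem_ct (nb p (some r) P)
      have h4 : (p : K) * P.1 = (p : K) * (nb p (some r) P).1 +
          ((-(r : ℕ) : ℤ) : K) * (nb p (some r) P).2 := by
        simp only [nb]; push_cast; ring
      rw [h4]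
      exact (ct (nb p (some r) P) : Submodule (𝓞 K) K).add_mem (natCast_mul_mem p h2)
        (intCast_mul_mem _ h3)

/-- if the lattice is not reduced at `p` then some neighbour is better -/
theorem exists_nb {p : ℕ} (hp : p.Prime) {P : K × K} (h : ¬ RedAt p P) :
    ∃ o : Option (Fin p), (p : ℚ) ^ finrank ℚ K * nm (ct P) ^ 2 ≤ nm (ct (nb p o P)) ^ 2 := by
  unfold RedAt at h
  push Not at h
  obtain ⟨x, hx, hx', hle⟩ := h
  obtain ⟨m, n, rfl⟩ := mem_Lt.1 hx
  have key : ∀ o : Option (Fin p), ∀ u v : ℤ, ∀ y ∈ ct P, ∀ z ∈ ct P,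
      (m : K) * P.1 + n * P.2 = u * (nb p o P).1 + p * y →
      (nb p o P).1 = v * ((m : K) * P.1 + n * P.2) + p * z →
      sp (p : K) * ct P + sp ((m : K) * P.1 + n * P.2) = ct (nb p o P) := by
    intro o u v y hy z hz h1 h2
    rw [ct_nb]
    have hsub : ∀ (w w' : K) (u : ℤ) (y : K), y ∈ ct P → w = u * w' + p * y →
        sp (p : K) * ct P + sp w ≤ sp (p : K) * ct P + sp w' := by
      intro w w' u y hy hw
      rw [← sup_eq_add, ← sup_eq_add]
      refine sup_le le_sup_left (sp_le.2 ?_)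
      rw [hw, sup_eq_add]
      refine ((sp (p : K) * ct P + sp w' : FI K) : Submodule (𝓞 K) K).add_mem ?_ ?_
      · refine intCast_mul_mem u (sp_le.1 ?_)
        rw [← sup_eq_add]; exact le_sup_right
      · refine sp_le.1 ?_
        rw [sp_mul, ← sup_eq_add]
        refine le_trans ?_ le_sup_left
        gcongr
        exact sp_le.2 hy
    exact le_antisymm (hsub _ _ u y hy h1) (hsub _ _ v z hz h2)
  have hpi : Prime (p : ℤ) := Nat.prime_iff_prime_int.1 hp
  have hcop : ∀ a : ℤ, ¬ (p : ℤ) ∣ a → ∃ v w : ℤ, v * a + w * p = 1 := by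
    intro a ha
    have := (hpi.irreducible.coprime_iff_not_dvd.2 ha)
    obtain ⟨u, v, huv⟩ := this
    exact ⟨v, u, by linarith⟩
  by_cases hm : (p : ℤ) ∣ m
  · have hn : ¬ (p : ℤ) ∣ n := by
      intro hn
      obtain ⟨m', rfl⟩ := hm
      obtain ⟨n', rfl⟩ := hn
      exact hx' (m' * P.1 + n' * P.2) (mem_Lt.2 ⟨m', n', rfl⟩) (by push_cast; ring)
    obtain ⟨m', rfl⟩ := hm
    obtain ⟨v, w, hvw⟩ := hcop n hn
    refine ⟨none, ?_⟩
    rw [← key none n v (m' * P.1) (intCast_mul_mem _ (fst_mem_ct P))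
      (w * P.2 - (v * m' : ℤ) * P.1) ?_ ?_ ?_]
    · exact hle
    · exact (ct P : Submodule (𝓞 K) K).sub_mem (intCast_mul_mem _ (snd_mem_ct P))
        (intCast_mul_mem _ (fst_mem_ct P))
    · simp only [nb]; push_cast; ring
    · simp only [nb]
      have : (v : K) * n + w * p = 1 := by exact_mod_cast hvw
      push_cast
      linear_combination (-P.2) * this
  · obtain ⟨v, w, hvw⟩ := hcop m hm
    have hp0 : (0 : ℤ) < p := by exact_mod_cast hp.pos
    set r : ℤ := (n * v) % p with hr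
    have hr0 : 0 ≤ r := Int.emod_nonneg _ hp0.ne'
    have hrp : r < p := Int.emod_lt_of_pos _ hp0
    obtain ⟨t, ht⟩ : ∃ t, n * v = r + p * t := ⟨n * v / p, by rw [hr]; exact (Int.emod_add_mul_ediv _ _).symm⟩
    have hrn : ((r.toNat : ℕ) : K) = (r : K) := by
      have : ((r.toNat : ℕ) : ℤ) = r := Int.toNat_of_nonneg hr0
      exact_mod_cast congrArg (Int.cast : ℤ → K) this
    have hlt : r.toNat < p := by
      have : ((r.toNat : ℕ) : ℤ) = r := Int.toNat_of_nonneg hr0
      omega
    -- n = m r mod p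
    have hnm : n = m * r + p * (m * t + n * w) := by
      have : n = n * (v * m + w * p) := by rw [hvw, mul_one]
      calc n = n * (v * m + w * p) := this
        _ = m * (n * v) + p * (n * w) := by ring
        _ = _ := by rw [ht]; ring
    refine ⟨some ⟨r.toNat, hlt⟩, ?_⟩
    rw [← key (some ⟨r.toNat, hlt⟩) m v ((m * t + n * w : ℤ) * P.2)
      (intCast_mul_mem _ (snd_mem_ct P)) (w * P.1 - (t : ℤ) * P.2) ?_ ?_ ?_]
    · exact hle
    · exact (ct P : Submodule (𝓞 K) K).sub_mem (intCast_mul_mem _ (fst_mem_ct P))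
        (intCast_mul_mem _ (snd_mem_ct P))
    · simp only [nb, hrn]
      have : (n : K) = m * r + p * (m * t + n * w) := by exact_mod_cast hnm
      push_cast
      linear_combination P.2 * this
    · simp only [nb, hrn]
      have e1 : (v : K) * m + w * p = 1 := by exact_mod_cast hvw
      have e2 : (n : K) * v = r + p * t := by exact_mod_cast ht
      push_cast
      linear_combination (-P.1) * e1 - P.2 * e2

theorem Ind.nb {p : ℕ} (hp : p.Prime) {P : K × K} (h : Ind P) (o : Option (Fin p)) :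
    Ind (nb p o P) := by
  have hpq : (p : ℚ) ≠ 0 := by exact_mod_cast hp.ne_zero
  intro a b hab
  cases o with
  | none =>
    simp only [KF.nb] at hab
    have := h (b * p) a (by push_cast; linear_combination hab)
    exact ⟨this.2, (mul_eq_zero.1 this.1).resolve_right hpq⟩
  | some r =>
    simp only [KF.nb] at hab
    have := h a (a * r + b * p) (by push_cast; linear_combination hab)
    have ha := this.1
    have hb := this.2
    rw [ha, zero_mul, zero_add] at hb
    exact ⟨ha, (mul_eq_zero.1 hb).resolve_right hpq⟩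

theorem nb_not_mem {p : ℕ} (hp : p.Prime) {P : K × K} (h : Ind P) (o : Option (Fin p)) :
    (nb p o P).1 ∈ Lt P ∧ ¬ ∃ y ∈ Lt P, (nb p o P).1 = (p : K) * y := by
  have hp1 : ¬ (p : ℤ) ∣ 1 := (Nat.prime_iff_prime_int.1 hp).not_dvd_one
  cases o with
  | none =>
    refine ⟨snd_mem_Lt P, ?_⟩
    rintro ⟨y, hy, hy'⟩
    obtain ⟨a, b, rfl⟩ := mem_Lt.1 hy
    simp only [nb] at hy'
    have := h (-(p * a)) (1 - p * b) (by push_cast; linear_combination hy')
    apply hp1
    refine ⟨b, ?_⟩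
    have h2 := this.2
    rw [sub_eq_zero] at h2
    exact_mod_cast h2
  | some r =>
    refine ⟨mem_Lt.2 ⟨1, (r : ℕ), by simp [nb]⟩, ?_⟩
    rintro ⟨y, hy, hy'⟩
    obtain ⟨a, b, rfl⟩ := mem_Lt.1 hy
    simp only [nb] at hy'
    have := h (1 - p * a) (r - p * b) (by push_cast; linear_combination hy')
    apply hp1
    refine ⟨a, ?_⟩
    have h2 := this.1
    rw [sub_eq_zero] at h2
    exact_mod_cast h2

theorem redAt_iff {p : ℕ} (hp : p.Prime) {P : K × K} (h : Ind P) :
    RedAt p P ↔ ∀ o : Option (Fin p), nm (ct (nb p o P)) ^ 2 <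
      (p : ℚ) ^ finrank ℚ K * nm (ct P) ^ 2 := by
  constructor
  · intro hr o
    rw [ct_nb]
    obtain ⟨h1, h2⟩ := nb_not_mem hp h o
    exact hr _ h1 h2
  · intro hr
    by_contra hcon
    obtain ⟨o, ho⟩ := exists_nb hp hcon
    exact absurd (hr o) (not_lt.2 ho)

end

end Pool.Agent.Y714.KF
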