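import Pool.Agent.Y714.KF.Base

set_option autoImplicit false
set_option linter.unusedSectionVars false

/-! The statements of the jobs of project KF. -/

namespace Pool.Agent.Y714.KF

open NumberField FractionalIdeal Module Finset ComplexConjugate MeasureTheory Filter Topology
open scoped nonZeroDivisors

section

/-! ### Mathlib only -/

/-- SUM: lattice sums -/
def S_SUM : Prop := ∀ N : ℕ, 1 ≤ N → ∃ C : ℝ, 0 < C ∧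
  (∀ X : ℝ, 0 < X → ∀ S : Finset (Fin N → ℤ), (∀ z ∈ S, z ≠ 0 ∧ ‖z‖ ≤ X) →
    ∑ z ∈ S, ‖z‖ ^ 2 / ‖z‖ ^ N ≤ C * X ^ 2) ∧
  (∀ X : ℝ, 1 ≤ X → {z : Fin N → ℤ | ‖z‖ ≤ X}.Finite ∧
    ({z : Fin N → ℤ | ‖z‖ ≤ X}.ncard : ℝ) ≤ C * X ^ N)

/-- BOX: points of a box in residue classes -/
def S_BOX : Prop := ∀ (ι : Type) [Fintype ι] (R : ℝ), 0 < R → ∃ C : ℝ, 0 < C ∧
  ∀ (p : ℕ), 1 ≤ p → ∀ Y : ℝ, (p : ℝ) ≤ Y → ∀ T : Set (ι → ZMod p),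
    {z : ι → ℤ | ‖z‖ ≤ R * Y ∧ (fun i => (z i : ZMod p)) ∈ T}.Finite ∧
    ({z : ι → ℤ | ‖z‖ ≤ R * Y ∧ (fun i => (z i : ZMod p)) ∈ T}.ncard : ℝ) ≤
      C * T.ncard * (Y / p) ^ Fintype.card ι

/-- LPC: lattice points in dilated regions and residue classes -/
def S_LPC : Prop := ∀ (ι : Type) [Fintype ι] (D : Set (ι → ℝ)), Bornology.IsBounded D →
  MeasurableSet D → volume (frontier D) = 0 → ∀ q : ℕ, 0 < q → ∀ T : Set (ι → ZMod q),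
    Tendsto (fun Y : ℕ => ({z : ι → ℤ | (fun i => (z i : ZMod q)) ∈ T ∧
      (fun i => (z i : ℝ) / Y) ∈ D}.ncard : ℝ) / (Y : ℝ) ^ Fintype.card ι) atTop
      (𝓝 (volume.real D * T.ncard / (q : ℝ) ^ Fintype.card ι))

/-- CRT -/
def S_CRT : Prop := ∀ (ι : Type) [Fintype ι] (S : Finset ℕ), (∀ p ∈ S, p.Prime) →
  ∀ T : ∀ p : ℕ, Set (ι → ZMod p), ∃ U : Set (ι → ZMod (∏ p ∈ S, p)),
    (∀ z : ι → ℤ, (fun i => (z i : ZMod (∏ p ∈ S, p))) ∈ U ↔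
      ∀ p ∈ S, (fun i => (z i : ZMod p)) ∈ T p) ∧
    U.ncard = ∏ p ∈ S, (T p).ncard

/-- PROD: products of densities are bounded below -/
def S_PROD : Prop := ∀ (C : ℝ) (a : ℕ → ℝ), (∀ p : ℕ, p.Prime → 0 < a p ∧ a p ≤ 1 ∧
  1 - a p ≤ C / (p : ℝ) ^ 2) → ∃ c : ℝ, 0 < c ∧ ∀ S : Finset ℕ, (∀ p ∈ S, p.Prime) →
    c ≤ ∏ p ∈ S, a p

/-- MONO: from powers of integers to all real numbers -/
def S_MONO : Prop := ∀ (f : ℝ → ℝ), Monotone f → ∀ k : ℕ, 1 ≤ k → ∀ c : ℝ,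
  Tendsto (fun Y : ℕ => f ((Y : ℝ) ^ k) / (Y : ℝ) ^ k) atTop (𝓝 c) →
    Tendsto (fun t : ℝ => f t / t) atTop (𝓝 c)

/-! ### ideals -/

variable (K : Type) [Field K] [NumberField K]

/-- DIV: the ideals between `p I` and `I` -/
def S_DIV : Prop := ∀ (p : ℕ), p.Prime → ∀ I : (FI K)ˣ,
  {J : FI K | sp (p : K) * (I : FI K) ≤ J ∧ J ≤ I}.Finite ∧
  {J : FI K | sp (p : K) * (I : FI K) ≤ J ∧ J ≤ I}.ncard ≤ 2 ^ finrank ℚ K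

/-- CNT: the residues of an ideal between `p I` and `I` -/
def S_CNT : Prop := ∀ (p : ℕ), p.Prime → ∀ (I : (FI K)ˣ) (b : Basis (Fin (finrank ℚ K)) ℚ K),
  (∀ x : K, x ∈ (I : FI K) ↔ ∃ z : Fin (finrank ℚ K) → ℤ, x = el b z) →
  ∀ (J : FI K) (m : ℕ), sp (p : K) * (I : FI K) ≤ J → J ≤ I → nm J = (p : ℚ) ^ m * nm (I : FI K) →
  {t : Fin (finrank ℚ K) → ZMod p | ∃ z : Fin (finrank ℚ K) → ℤ,
    (fun i => (z i : ZMod p)) = t ∧ el b z ∈ J}.ncard * p ^ m = p ^ finrank ℚ K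

/-- CLS: representatives of the ideal classes -/
def S_CLS : Prop := ∃ R : Finset (FI K)ˣ,
  (∀ I : (FI K)ˣ, ∃ r ∈ R, ∃ x : K, x ≠ 0 ∧ (I : FI K) = sp x * (r : FI K)) ∧
  (∀ r ∈ R, ∀ r' ∈ R, ∀ x : K, x ≠ 0 → (r : FI K) = sp x * (r' : FI K) → r = r')

/-- GEN: generators of the field -/
def S_GEN : Prop := ∀ θ : K, IntermediateField.adjoin ℚ {θ} = ⊤ ↔ Nd ((1 : K), θ)

/-- LOC: the local conditions together -/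
def S_LOC : Prop := Odd (finrank ℚ K) → ∀ (I : (FI K)ˣ) (P : K × K), Ind P → ct P ≤ I →
  ((∀ p : ℕ, p.Prime → Loc p I (Lt P)) ↔ ct P = I ∧ Red P)

/-- BAS: a primitive vector may be taken to be part of a basis -/
def S_BAS : Prop := ∀ p : ℕ, p.Prime → ∀ (m : ℕ) (I : (FI K)ˣ) (P : K × K), Ind P → ct P ≤ I →
  Rf p m I (Lt P) → ∃ x y : K, Lt (x, y) = Lt P ∧
    nm (sp (p : K) * (I : FI K) + sp x) = (p : ℚ) ^ m * nm (I : FI K)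

/-- SUP: lattices containing a given one with index `p` -/
def S_SUP : Prop := ∀ p : ℕ, p.Prime → ∀ M₁ : Submodule ℤ K,
  {M : Submodule ℤ K | ∃ x y : K, Ind (x, y) ∧ M = Lt (x, y) ∧ Lt (x, (p : K) * y) = M₁}.Finite ∧
  {M : Submodule ℤ K | ∃ x y : K, Ind (x, y) ∧ M = Lt (x, y) ∧ Lt (x, (p : K) * y) = M₁}.ncard ≤
    p + 1

/-- SUPI: inside `I` there is only one -/
def S_SUPI : Prop := ∀ p : ℕ, p.Prime → ∀ (I : (FI K)ˣ) (x y x' y' : K), Ind (x, y) →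
  Ind (x', y') → ct (x, y) ≤ I → ct (x', y') ≤ I → Lt (x, (p : K) * y) = Lt (x', (p : K) * y') →
  sp (p : K) * (I : FI K) + sp x ≠ sp (p : K) * (I : FI K) → Lt (x, y) = Lt (x', y')

/-- HB: the height is bounded below -/
def S_HB : Prop := Odd (finrank ℚ K) → 3 ≤ finrank ℚ K → ∃ c : ℝ, 0 < c ∧ ∀ P : K × K, Nd P →
  c * ((nm (ct P) : ℚ) : ℝ) ^ 2 ≤ pm (vec P)

/-- DESC: descent to a reduced pair -/
def S_DESC : Prop := Odd (finrank ℚ K) → 3 ≤ finrank ℚ K → ∀ P : K × K, Nd P → ∃ Q : K × K,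
  Red Q ∧ (∃ a b c d : ℚ, a * d - b * c ≠ 0 ∧
    Q = ((a : K) * P.1 + (b : K) * P.2, (c : K) * P.1 + (d : K) * P.2)) ∧
  pm (vec Q) * ((nm (ct P) : ℚ) : ℝ) ^ 2 ≤ pm (vec P) * ((nm (ct Q) : ℚ) : ℝ) ^ 2

/-! ### crude bounds -/

/-- T1: lattices with a short vector -/
def S_T1 : Prop := Odd (finrank ℚ K) → 3 ≤ finrank ℚ K →
  ∀ (κ : Fin (Units.rank K) → ℝ) (I : (FI K)ˣ), ∃ C : ℝ, 0 < C ∧ ∀ δ : ℝ, 0 < δ →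
  ∀ Y : ℝ, 1 ≤ Y →
    {M ∈ SL κ (I : FI K) (Y ^ (2 * finrank ℚ K)) | ∃ x ∈ M, x ≠ 0 ∧ qf x ≤ (δ * Y) ^ 2}.Finite ∧
    ({M ∈ SL κ (I : FI K) (Y ^ (2 * finrank ℚ K)) |
      ∃ x ∈ M, x ≠ 0 ∧ qf x ≤ (δ * Y) ^ 2}.ncard : ℝ) ≤ C * δ ^ 2 * Y ^ (2 * finrank ℚ K)

/-- CR: the crude bound, uniform in the ideal -/
def S_CR : Prop := Odd (finrank ℚ K) → 3 ≤ finrank ℚ K → ∀ κ : Fin (Units.rank K) → ℝ,
  ∃ C : ℝ, 0 < C ∧ ∀ (I : (FI K)ˣ) (t : ℝ), 0 < t → (SL κ (I : FI K) t).Finite ∧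
    ((SL κ (I : FI K) t).ncard : ℝ) ≤ C * t / ((nm (I : FI K) : ℚ) : ℝ) ^ 2

/-- CF: content failure at large primes -/
def S_CF : Prop := Odd (finrank ℚ K) → 3 ≤ finrank ℚ K → ∀ κ : Fin (Units.rank K) → ℝ,
  ∃ C : ℝ, 0 < C ∧ ∀ (I : (FI K)ˣ) (t X : ℝ), 0 < t → 1 ≤ X →
    ({M ∈ SL κ (I : FI K) t | ∃ p : ℕ, p.Prime ∧ X < p ∧ Cf p I M}.ncard : ℝ) ≤
      C * t / (((nm (I : FI K) : ℚ) : ℝ) ^ 2 * X)

/-- RF1: strong failure of reducedness at large primes -/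
def S_RF1 : Prop := Odd (finrank ℚ K) → 3 ≤ finrank ℚ K → ∀ κ : Fin (Units.rank K) → ℝ,
  ∃ C : ℝ, 0 < C ∧ ∀ (I : (FI K)ˣ) (t X : ℝ), 0 < t → 1 ≤ X →
    ({M ∈ SL κ (I : FI K) t | ∃ p : ℕ, p.Prime ∧ X < p ∧ ∃ m ≤ finrank ℚ K,
      finrank ℚ K + 3 ≤ 2 * m ∧ Rf p m I M}.ncard : ℝ) ≤
      C * t / (((nm (I : FI K) : ℚ) : ℝ) ^ 2 * X)

/-- RF2: failure of reducedness at primes larger than `Y` -/
def S_RF2 : Prop := Odd (finrank ℚ K) → 5 ≤ finrank ℚ K →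
  ∀ (κ : Fin (Units.rank K) → ℝ) (I : (FI K)ˣ), ∃ C : ℝ, 0 < C ∧ ∀ Y : ℝ, 1 ≤ Y →
    ({M ∈ SL κ (I : FI K) (Y ^ (2 * finrank ℚ K)) | ∃ p : ℕ, p.Prime ∧ Y < p ∧
      ∃ m, 2 * m = finrank ℚ K + 1 ∧ Rf p m I M}.ncard : ℝ) ≤ C * Y ^ (2 * finrank ℚ K) / Y

/-- LR: the local condition at `p` depends on the residues modulo `p` -/
def S_LR : Prop := Odd (finrank ℚ K) → 5 ≤ finrank ℚ K →
  ∀ (I : (FI K)ˣ) (b : Basis (Fin (finrank ℚ K)) ℚ K),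
  (∀ x : K, x ∈ (I : FI K) ↔ ∃ z : Fin (finrank ℚ K) → ℤ, x = el b z) →
  ∃ C : ℝ, 0 < C ∧ ∀ p : ℕ, p.Prime →
    ∃ T : Set (Fin (finrank ℚ K) ⊕ Fin (finrank ℚ K) → ZMod p),
      (∀ z : Fin (finrank ℚ K) ⊕ Fin (finrank ℚ K) → ℤ, Ind (pr b z) →
        (Loc p I (Lt (pr b z)) ↔ (fun i => (z i : ZMod p)) ∈ T)) ∧
      (Tᶜ.ncard : ℝ) ≤ C * (p : ℝ) ^ (2 * finrank ℚ K - 2)

/-- MID: failure at primes of middle size -/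
def S_MID : Prop := Odd (finrank ℚ K) → 5 ≤ finrank ℚ K →
  ∀ (κ : Fin (Units.rank K) → ℝ) (I : (FI K)ˣ) (δ : ℝ), 0 < δ → ∃ C : ℝ, 0 < C ∧
  ∀ P₀ Y : ℝ, 1 ≤ P₀ → 1 ≤ Y →
    ({M ∈ SL κ (I : FI K) (Y ^ (2 * finrank ℚ K)) | (∀ x ∈ M, x ≠ 0 → (δ * Y) ^ 2 < qf x) ∧
      ∃ p : ℕ, p.Prime ∧ P₀ < p ∧ (p : ℝ) ≤ Y ∧ ¬ Loc p I M}.ncard : ℝ) ≤
      C * Y ^ (2 * finrank ℚ K) / P₀

/-! ### regions -/

/-- OPB: the regions are open and bounded -/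
def S_OPB : Prop := Odd (finrank ℚ K) → 3 ≤ finrank ℚ K →
  ∀ (b : Basis (Fin (finrank ℚ K)) ℚ K) (κ : Fin (Units.rank K) → ℝ) (δ : ℝ), 0 < δ →
    IsOpen (Dm b κ δ) ∧ Bornology.IsBounded (Dc b κ δ)

/-- CCC: continuity of the unit coordinates -/
def S_CCC : Prop := Odd (finrank ℚ K) → 3 ≤ finrank ℚ K →
  ∀ (b : Basis (Fin (finrank ℚ K)) ℚ K) (j : Fin (Units.rank K)),
    ContinuousOn (fun u : Fin (finrank ℚ K) ⊕ Fin (finrank ℚ K) → ℝ => cc (rw2 b u) j)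
      {u | ∀ σ τ : K →+* ℂ, σ ≠ τ → br (rw2 b u σ) (rw2 b u τ) ≠ 0}

/-- BRN: brackets vanish on null sets -/
def S_BRN : Prop := ∀ (b : Basis (Fin (finrank ℚ K)) ℚ K) (σ τ : K →+* ℂ), σ ≠ τ →
  volume {u : Fin (finrank ℚ K) ⊕ Fin (finrank ℚ K) → ℝ | br (rw2 b u σ) (rw2 b u τ) = 0} = 0

/-- NUL: the boundary is a null set for a suitable normalisation -/
def S_NUL : Prop := Odd (finrank ℚ K) → 3 ≤ finrank ℚ K →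
  ∀ (b : Basis (Fin (finrank ℚ K)) ℚ K), ∃ κ : Fin (Units.rank K) → ℝ, ∀ δ : ℝ, 0 < δ →
    volume (closure (Dc b κ δ) \ Dm b κ δ) = 0

/-- VOL: the volume is positive -/
def S_VOL : Prop := Odd (finrank ℚ K) → 3 ≤ finrank ℚ K →
  ∀ (I : (FI K)ˣ) (b : Basis (Fin (finrank ℚ K)) ℚ K),
  (∀ x : K, x ∈ (I : FI K) ↔ ∃ z : Fin (finrank ℚ K) → ℤ, x = el b z) →
  ∀ (κ : Fin (Units.rank K) → ℝ), (∀ δ : ℝ, 0 < δ → volume (closure (Dc b κ δ) \ Dm b κ δ) = 0) →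
    ∃ δ : ℝ, 0 < δ ∧ 0 < volume (Dm b κ δ)

/-! ### counting -/

/-- RBC: counting lattices by reduced bases -/
def S_RBC : Prop := Odd (finrank ℚ K) → 3 ≤ finrank ℚ K →
  ∀ (I : (FI K)ˣ) (b : Basis (Fin (finrank ℚ K)) ℚ K),
  (∀ x : K, x ∈ (I : FI K) ↔ ∃ z : Fin (finrank ℚ K) → ℤ, x = el b z) →
  ∀ (κ : Fin (Units.rank K) → ℝ) (δ : ℝ), 0 < δ → ∀ Y : ℕ, 1 ≤ Y →
  ∀ Pr : Submodule ℤ K → Prop,
    |2 * ({M ∈ SL κ (I : FI K) ((Y : ℝ) ^ (2 * finrank ℚ K)) | Pr M}.ncard : ℝ) -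
      ({z : Fin (finrank ℚ K) ⊕ Fin (finrank ℚ K) → ℤ |
        (fun i => (z i : ℝ) / Y) ∈ Dm b κ δ ∧ Pr (Lt (pr b z))}.ncard : ℝ)| ≤
    2 * ({M ∈ SL κ (I : FI K) ((Y : ℝ) ^ (2 * finrank ℚ K)) |
      ∃ x ∈ M, x ≠ 0 ∧ qf x ≤ (δ * Y) ^ 2}.ncard : ℝ) +
    2 * ({z : Fin (finrank ℚ K) ⊕ Fin (finrank ℚ K) → ℤ |
      (fun i => (z i : ℝ) / Y) ∈ Dc b κ δ \ Dm b κ δ}.ncard : ℝ)

/-- the height of a pair -/
noncomputable def hp (P : K × K) : ℝ := pm (vec P) / ((nm (ct P) : ℚ) : ℝ) ^ 2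

/-- the height of a point: the least height of its representatives -/
noncomputable def ht (θ : K) : ℝ := sInf {r : ℝ | ∃ a b c d : ℚ, a * d - b * c ≠ 0 ∧
  r = hp K ((c : K) * θ + (d : K), (a : K) * θ + (b : K))}

/-- equivalence under rational Moebius transformations -/
def Rel (θ θ' : K) : Prop := ∃ a b c d : ℚ, a * d - b * c ≠ 0 ∧
  θ' * ((c : K) * θ + (d : K)) = (a : K) * θ + (b : K)

/-- BIJ: points and normalised reduced lattices -/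
def S_BIJ : Prop := Odd (finrank ℚ K) → 3 ≤ finrank ℚ K → ∀ R : Finset (FI K)ˣ,
  (∀ I : (FI K)ˣ, ∃ r ∈ R, ∃ x : K, x ≠ 0 ∧ (I : FI K) = sp x * (r : FI K)) →
  (∀ r ∈ R, ∀ r' ∈ R, ∀ x : K, x ≠ 0 → (r : FI K) = sp x * (r' : FI K) → r = r') →
  ∀ (κ : (FI K)ˣ → Fin (Units.rank K) → ℝ) (B : ℝ), 0 < B →
    {C : Set K | ∃ θ : K, IntermediateField.adjoin ℚ {θ} = ⊤ ∧ C = {θ' | Rel K θ θ'} ∧
      ht K θ ≤ B}.ncard =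
    ∑ r ∈ R, {M ∈ SL (κ r) (r : FI K) (B * ((nm (r : FI K) : ℚ) : ℝ) ^ 2) |
      ∀ p : ℕ, p.Prime → Loc p r M}.ncard

end

end Pool.Agent.Y714.KF
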