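import Pool.Agent.Y714.KF.Rl

set_option autoImplicit false
set_option linter.unusedSectionVars false
set_option linter.unusedSimpArgs false

/-! Normalisation by units. -/

namespace Pool.Agent.Y714.KF

open NumberField FractionalIdeal Module Finset ComplexConjugate
open NumberField.Units NumberField.Units.dirichletUnitTheorem NumberField.InfinitePlace
open scoped nonZeroDivisors

section

variable {K : Type} [Field K] [NumberField K]

/-- the logarithmic size of a vector of a tuple -/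
noncomputable def Lg (v : (K →+* ℂ) → ℂ × ℂ) (σ : K →+* ℂ) : ℝ :=
  (1 / 2) * (Real.log (pm (ext v σ)) - Real.log (pm v))

/-- the mean of the logarithmic sizes -/
noncomputable def mLg (v : (K →+* ℂ) → ℂ × ℂ) : ℝ := (∑ σ, Lg v σ) / finrank ℚ K

/-- the logarithmic vector -/
noncomputable def lgv (v : (K →+* ℂ) → ℂ × ℂ) : logSpace K :=
  fun w => (mult w.1 : ℝ) * (Lg v w.1.embedding - mLg v)

open scoped Classical in
/-- a real basis of the logarithmic space, consisting of the vectors of fundamental units -/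
noncomputable def ubas (K : Type) [Field K] [NumberField K] :
    Basis (Fin (Units.rank K)) ℝ (logSpace K) :=
  (basisUnitLattice K).ofZLatticeBasis ℝ _

/-- the coordinates -/
noncomputable def cc (v : (K →+* ℂ) → ℂ × ℂ) : Fin (Units.rank K) → ℝ :=
  fun j => (ubas K).repr (lgv v) j

/-- normalised by units -/
def Nz (κ : Fin (Units.rank K) → ℝ) (v : (K →+* ℂ) → ℂ × ℂ) : Prop :=
  ∀ j, κ j ≤ cc v j ∧ cc v j < κ j + 1

theorem sum_log_unit (u : (𝓞 K)ˣ) : ∑ σ : K →+* ℂ, Real.log ‖σ (u : K)‖ = 0 := by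
  have h1 : ∀ σ ∈ (univ : Finset (K →+* ℂ)), ‖σ (u : K)‖ ≠ 0 := by
    intro σ _
    rw [norm_ne_zero_iff]
    exact (map_ne_zero σ).2 (Units.coe_ne_zero u)
  rw [← Real.log_prod h1, prod_norm_emb, nm_sp]
  have : |Algebra.norm ℚ (u : K)| = 1 := by
    have h := (NumberField.isUnit_iff_norm (K := K) (x := (u : 𝓞 K))).1 u.isUnit
    rw [← h]
    simp [RingOfIntegers.coe_norm]
  rw [this]
  simp

open scoped Classical in
theorem ubas_repr_logEmbedding (u : (𝓞 K)ˣ) (j : Fin (Units.rank K)) :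
    ∃ m : ℤ, (ubas K).repr (logEmbedding K (Additive.ofMul u)) j = m := by
  have hmem : logEmbedding K (Additive.ofMul u) ∈ unitLattice K :=
    Submodule.mem_map_of_mem (f := (logEmbedding K).toIntLinearMap) trivial
  refine ⟨(basisUnitLattice K).repr ⟨_, hmem⟩ j, ?_⟩
  exact (basisUnitLattice K).ofZLatticeBasis_repr_apply ℝ (unitLattice K) ⟨_, hmem⟩ j

open scoped Classical in
theorem exists_unit_repr (m : Fin (Units.rank K) → ℤ) : ∃ u : (𝓞 K)ˣ,
    ∀ j, (ubas K).repr (logEmbedding K (Additive.ofMul u)) j = m j := by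
  set x : unitLattice K := ∑ j, m j • basisUnitLattice K j with hx
  obtain ⟨u, _, hu⟩ := x.2
  refine ⟨Additive.toMul u, fun j => ?_⟩
  have h1 : logEmbedding K (Additive.ofMul (Additive.toMul u)) = (x : logSpace K) := hu
  rw [h1]
  have h2 := (basisUnitLattice K).ofZLatticeBasis_repr_apply ℝ (unitLattice K) x j
  rw [ubas, h2, hx]
  simp [Finsupp.single_apply]

section

variable {v : (K →+* ℂ) → ℂ × ℂ} (hv : 0 < pm v) (hx : ∀ σ, 0 < pm (ext v σ))

include hv hx in
theorem Lg_unit (u : (𝓞 K)ˣ) (σ : K →+* ℂ) :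
    Lg (fun σ => σ (u : K) • v σ) σ = Lg v σ + Real.log ‖σ (u : K)‖ := by
  have h0 : ∀ τ : K →+* ℂ, ‖τ (u : K)‖ ≠ 0 := fun τ => by
    rw [norm_ne_zero_iff]
    exact (map_ne_zero τ).2 (Units.coe_ne_zero u)
  have hprod : ∏ τ : K →+* ℂ, ‖τ (u : K)‖ ^ 2 = 1 := by
    have h := sum_log_unit u
    rw [← Real.log_prod (fun τ _ => h0 τ)] at h
    have h1 : 0 < ∏ τ : K →+* ℂ, ‖τ (u : K)‖ :=
      prod_pos fun τ _ => lt_of_le_of_ne (norm_nonneg _) (h0 τ).symm
    rw [prod_pow, Real.eq_one_of_pos_of_log_eq_zero h1 h, one_pow]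
  have e1 : pm (fun σ => σ (u : K) • v σ) = pm v := by
    rw [pm_smul (fun σ : K →+* ℂ => σ (u : K)) v, hprod, one_mul]
  have e2 : pm (ext (fun σ => σ (u : K) • v σ) σ) = ‖σ (u : K)‖ ^ 2 * pm (ext v σ) := by
    rw [ext_smul (fun σ : K →+* ℂ => σ (u : K)) v σ, hprod, mul_one]
  unfold Lg
  rw [e1, e2, Real.log_mul (pow_ne_zero _ (h0 σ)) (hx σ).ne', Real.log_pow]
  push_cast
  ring

include hv hx in
theorem mLg_unit (u : (𝓞 K)ˣ) : mLg (fun σ => σ (u : K) • v σ) = mLg v := by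
  unfold mLg
  congr 1
  simp_rw [Lg_unit hv hx u]
  rw [sum_add_distrib, sum_log_unit, add_zero]

include hv hx in
theorem lgv_unit (u : (𝓞 K)ˣ) : lgv (fun σ => σ (u : K) • v σ) =
    lgv v + logEmbedding K (Additive.ofMul u) := by
  funext w
  simp only [lgv, Pi.add_apply, logEmbedding_component]
  rw [Lg_unit hv hx, mLg_unit hv hx, norm_embedding_eq]
  ring

include hv hx in
theorem cc_unit (u : (𝓞 K)ˣ) (j : Fin (Units.rank K)) : cc (fun σ => σ (u : K) • v σ) j =
    cc v j + (ubas K).repr (logEmbedding K (Additive.ofMul u)) j := by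
  unfold cc
  rw [lgv_unit hv hx, map_add]
  rfl

include hv hx in
theorem exists_unit_nz (κ : Fin (Units.rank K) → ℝ) : ∃ u : (𝓞 K)ˣ,
    Nz κ (fun σ => σ (u : K) • v σ) := by
  obtain ⟨u, hu⟩ := exists_unit_repr (K := K) fun j => -⌊cc v j - κ j⌋
  refine ⟨u, fun j => ?_⟩
  rw [cc_unit hv hx, hu]
  have h1 := Int.floor_le (cc v j - κ j)
  have h2 := Int.lt_floor_add_one (cc v j - κ j)
  push_cast
  constructor <;> linarith

include hv hx in
theorem unit_nz_unique (hodd : Odd (finrank ℚ K)) (κ : Fin (Units.rank K) → ℝ) (u : (𝓞 K)ˣ)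
    (h1 : Nz κ v) (h2 : Nz κ (fun σ => σ (u : K) • v σ)) : u = 1 ∨ u = -1 := by
  have h3 : (ubas K).repr (logEmbedding K (Additive.ofMul u)) = 0 := by
    ext j
    obtain ⟨m, hm⟩ := ubas_repr_logEmbedding u j
    have e1 := h1 j
    have e2 := h2 j
    rw [cc_unit hv hx, hm] at e2
    rw [hm, Finsupp.zero_apply]
    have f1 : (m : ℝ) < 1 := by linarith [e1.1, e2.2]
    have f2 : (-1 : ℝ) < m := by linarith [e1.2, e2.1]
    have g1 : m < 1 := by exact_mod_cast f1
    have g2 : -1 < m := by exact_mod_cast f2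
    have : m = 0 := by omega
    rw [this, Int.cast_zero]
  have h4 : logEmbedding K (Additive.ofMul u) = 0 := by
    have := (ubas K).repr.map_eq_zero_iff.1 h3
    exact this
  have h5 : u ∈ torsion K := logEmbedding_eq_zero_iff.1 h4
  have h6 := torsion_eq_one_or_neg_one_of_odd_finrank hodd ⟨u, h5⟩
  exact h6

end

/-- symmetric tuples -/
def Sym (v : (K →+* ℂ) → ℂ × ℂ) : Prop :=
  ∀ σ, v (ComplexEmbedding.conjugate σ) = (conj (v σ).1, conj (v σ).2)

theorem sym_vec (P : K × K) : Sym (vec P) := fun σ => by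
  simp [vec, ComplexEmbedding.conjugate]

theorem sym_rv {ι : Type} [Fintype ι] [DecidableEq ι] (b : Basis ι ℚ K) (x y : ι → ℝ) :
    Sym (rv b x y) := fun σ => by
  simp only [rv, sg_conj]

/-- complex conjugation of embeddings -/
noncomputable def cj : (K →+* ℂ) ≃ (K →+* ℂ) :=
  Function.Involutive.toPerm ComplexEmbedding.conjugate
    (fun σ => by ext x; simp [ComplexEmbedding.conjugate])

theorem cj_apply (σ : K →+* ℂ) : cj σ = ComplexEmbedding.conjugate σ := rfl

theorem Sym.ext_conj {v : (K →+* ℂ) → ℂ × ℂ} (h : Sym v) (σ : K →+* ℂ) :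
    pm (ext v (ComplexEmbedding.conjugate σ)) = pm (ext v σ) := by
  rw [← pm_conj (ext v σ), ← pm_equiv (cj (K := K)).optionCongr (ext v
    (ComplexEmbedding.conjugate σ))]
  congr 1
  funext o
  have hinv : ComplexEmbedding.conjugate (ComplexEmbedding.conjugate σ) = σ := by
    ext x; simp [ComplexEmbedding.conjugate]
  cases o with
  | none =>
    simp only [Equiv.optionCongr_apply, Option.map_none, ext_none]
    exact h σ
  | some τ =>
    simp only [Equiv.optionCongr_apply, Option.map_some, ext_some, cj_apply]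
    exact h τ

theorem Sym.Lg_conj {v : (K →+* ℂ) → ℂ × ℂ} (h : Sym v) (σ : K →+* ℂ) :
    Lg v (ComplexEmbedding.conjugate σ) = Lg v σ := by
  unfold Lg
  rw [h.ext_conj]

theorem Sym.Lg_mk {v : (K →+* ℂ) → ℂ × ℂ} (h : Sym v) (σ : K →+* ℂ) :
    Lg v (InfinitePlace.mk σ).embedding = Lg v σ := by
  rcases embedding_mk_eq σ with h1 | h1
  · rw [h1]
  · rw [h1, h.Lg_conj]

theorem sum_Lg {v : (K →+* ℂ) → ℂ × ℂ} (h : Sym v) :
    ∑ w : InfinitePlace K, (mult w : ℝ) * (Lg v w.embedding - mLg v) = 0 := by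
  classical
  have h1 : ∑ σ : K →+* ℂ, (Lg v σ - mLg v) = 0 := by
    rw [sum_sub_distrib, sum_const, card_univ, card_emb, nsmul_eq_mul, mLg]
    have : (finrank ℚ K : ℝ) ≠ 0 := by exact_mod_cast (finrank_pos (R := ℚ) (M := K)).ne'
    field_simp
    ring
  rw [← sum_fiberwise (univ : Finset (K →+* ℂ)) (fun σ => InfinitePlace.mk σ)] at h1
  rw [← h1]
  refine sum_congr rfl fun w _ => ?_
  rw [← card_filter_mk_eq w, ← nsmul_eq_mul, ← sum_const]
  refine sum_congr rfl fun σ hσ => ?_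
  rw [← (mem_filter.1 hσ).2, h.Lg_mk]

/-- tuples with bounded coordinates are balanced -/
theorem exists_balance (C : ℝ) : ∃ C' : ℝ, 0 < C' ∧ ∀ v : (K →+* ℂ) → ℂ × ℂ, Sym v →
    (∀ j, |cc v j| ≤ C) → ∀ σ, Lg v σ - mLg v ≤ C' := by
  classical
  set C1 : ℝ := |C| * ∑ j, ‖ubas K j‖ with hC1
  have hC1' : 0 ≤ C1 := by positivity
  refine ⟨Fintype.card (InfinitePlace K) * C1 + 1, by positivity, fun v hs hc σ => ?_⟩
  have h1 : ‖lgv v‖ ≤ C1 := by
    rw [← (ubas K).sum_repr (lgv v), hC1, mul_sum]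
    refine (norm_sum_le _ _).trans (sum_le_sum fun j _ => ?_)
    rw [norm_smul, Real.norm_eq_abs]
    exact mul_le_mul_of_nonneg_right ((hc j).trans (le_abs_self C)) (norm_nonneg _)
  have h2 : ∀ w : InfinitePlace K, w ≠ w₀ → |(mult w : ℝ) * (Lg v w.embedding - mLg v)| ≤ C1 :=
    fun w hw => (norm_le_pi_norm (lgv v) ⟨w, hw⟩).trans h1
  have h3 : ∀ w : InfinitePlace K, (mult w : ℝ) * (Lg v w.embedding - mLg v) ≤
      Fintype.card (InfinitePlace K) * C1 := by
    intro w
    by_cases hw : w = w₀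
    · have h4 := sum_Lg hs
      rw [← add_sum_erase univ _ (mem_univ w)] at h4
      have h5 : |∑ x ∈ univ.erase w, (mult x : ℝ) * (Lg v x.embedding - mLg v)| ≤
          Fintype.card (InfinitePlace K) * C1 := by
        refine (abs_sum_le_sum_abs _ _).trans ?_
        calc ∑ x ∈ univ.erase w, |(mult x : ℝ) * (Lg v x.embedding - mLg v)| ≤
            ∑ x ∈ univ.erase w, C1 := sum_le_sum fun x hx =>
              h2 x (fun h => (mem_erase.1 hx).1 (h.trans hw.symm))
          _ = (univ.erase w).card * C1 := by rw [sum_const, nsmul_eq_mul]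
          _ ≤ _ := by
              gcongr
              exact_mod_cast card_le_univ _
      have h6 := neg_abs_le (∑ x ∈ univ.erase w, (mult x : ℝ) * (Lg v x.embedding - mLg v))
      linarith
    · refine (le_abs_self _).trans ((h2 w hw).trans ?_)
      have : (1 : ℝ) ≤ Fintype.card (InfinitePlace K) := by
        exact_mod_cast Fintype.card_pos
      nlinarith
  have h4 := h3 (InfinitePlace.mk σ)
  rw [hs.Lg_mk] at h4
  have h5 : (1 : ℝ) ≤ mult (InfinitePlace.mk σ) := by exact_mod_cast one_le_mult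
  by_cases h6 : 0 ≤ Lg v σ - mLg v
  · nlinarith
  · push Not at h6
    have : 0 ≤ (Fintype.card (InfinitePlace K) : ℝ) * C1 := by positivity
    linarith

/-- the key bound -/
theorem exists_br_bound (hodd : Odd (finrank ℚ K)) (C : ℝ) : ∃ C' : ℝ, 0 < C' ∧
    ∀ v : (K →+* ℂ) → ℂ × ℂ, Sym v → 0 < pm v → (∀ j, |cc v j| ≤ C) →
      ∀ σ τ, ‖br (v σ) (v τ)‖ ^ finrank ℚ K ≤ C' * pm v := by
  obtain ⟨C1, hC1, hineq⟩ := ineqs (J := K →+* ℂ) (by rw [card_emb]; exact hodd)
  obtain ⟨C2, hC2, hbal⟩ := exists_balance (K := K) C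
  set n := finrank ℚ K with hn
  have hn0 : 0 < n := finrank_pos
  have hnR : (0 : ℝ) < n := by exact_mod_cast hn0
  refine ⟨Real.exp (n * (Real.log C1 / 2 + 2 * C2) + Real.log C1), Real.exp_pos _,
    fun v hs hv hc σ τ => ?_⟩
  obtain ⟨h1, h2, h3, _⟩ := hineq v hv
  by_cases hbr : ‖br (v σ) (v τ)‖ = 0
  · rw [hbr, zero_pow hn0.ne']
    positivity
  have hbrpos : 0 < ‖br (v σ) (v τ)‖ := lt_of_le_of_ne (norm_nonneg _) (Ne.symm hbr)
  -- logarithms
  have hmean : mLg v ≤ (Real.log C1 + Real.log (pm v)) / (2 * n) := by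
    have e1 : ∑ σ : K →+* ℂ, Lg v σ = (1 / 2) * (Real.log (∏ σ, pm (ext v σ)) -
        n * Real.log (pm v)) := by
      rw [Real.log_prod (fun σ _ => (h1 σ).ne')]
      unfold Lg
      rw [← mul_sum, sum_sub_distrib, sum_const, card_univ, card_emb, nsmul_eq_mul]
    have e2 : Real.log (∏ σ, pm (ext v σ)) ≤ Real.log C1 + (n + 1) * Real.log (pm v) := by
      have := Real.log_le_log (prod_pos fun σ _ => h1 σ) h3
      rw [Real.log_mul hC1.ne' (by positivity), Real.log_pow, card_emb] at this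
      push_cast at this
      exact this
    rw [mLg, div_le_div_iff₀ hnR (by positivity), e1]
    nlinarith
  have e3 : ∀ σ, Real.log (pm (ext v σ)) = 2 * Lg v σ + Real.log (pm v) := by
    intro σ; unfold Lg; ring
  have e4 : 2 * (Real.log ‖br (v σ) (v τ)‖ + Real.log (pm v)) ≤ Real.log C1 +
      (2 * Lg v σ + Real.log (pm v)) + (2 * Lg v τ + Real.log (pm v)) := by
    have h5 := h2 σ τ
    have h6 := Real.log_le_log (by positivity) h5
    rw [Real.log_pow, Real.log_mul hbr hv.ne', Real.log_mul hC1.ne' (by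
      have := h1 σ; have := h1 τ; positivity), Real.log_mul (h1 σ).ne' (h1 τ).ne', e3, e3] at h6
    push_cast at h6
    linarith
  have e5 := hbal v hs hc σ
  have e6 := hbal v hs hc τ
  have e7 : Real.log ‖br (v σ) (v τ)‖ ≤ Real.log C1 / 2 + 2 * C2 + 2 * mLg v := by linarith
  have e8 : (n : ℝ) * Real.log ‖br (v σ) (v τ)‖ ≤ n * (Real.log C1 / 2 + 2 * C2) + Real.log C1 +
      Real.log (pm v) := by
    have : (n : ℝ) * (2 * mLg v) ≤ Real.log C1 + Real.log (pm v) := by
      have := mul_le_mul_of_nonneg_left hmean (show (0 : ℝ) ≤ n * 2 by positivity)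
      calc (n : ℝ) * (2 * mLg v) = n * 2 * mLg v := by ring
        _ ≤ _ := this
        _ = _ := by field_simp
    nlinarith
  have e9 : ‖br (v σ) (v τ)‖ ^ n = Real.exp (n * Real.log ‖br (v σ) (v τ)‖) := by
    rw [mul_comm, ← Real.rpow_def_of_pos hbrpos, Real.rpow_natCast]
  rw [e9]
  refine (Real.exp_le_exp.2 e8).trans ?_
  rw [Real.exp_add, Real.exp_log hv]

end

end Pool.Agent.Y714.KF
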