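import Mathlib

set_option autoImplicit false
set_option linter.unusedSectionVars false
set_option linter.unusedSimpArgs false

/-! Contents of pairs of elements of a number field. -/

namespace Pool.Agent.Y714.KF

open NumberField FractionalIdeal Module
open scoped nonZeroDivisors

section

variable {K : Type} [Field K] [NumberField K]

/-- the fractional ideals of `K` -/
abbrev FI (K : Type) [Field K] [NumberField K] : Type := FractionalIdeal (𝓞 K)⁰ K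

/-- the principal fractional ideal -/
noncomputable abbrev sp (x : K) : FI K := spanSingleton (𝓞 K)⁰ x

theorem sp_ne {x : K} (hx : x ≠ 0) : sp x ≠ 0 := spanSingleton_ne_zero_iff.2 hx

theorem sp_mul (x y : K) : sp (x * y) = sp x * sp y := by
  rw [sp, sp, sp, spanSingleton_mul_spanSingleton]

theorem sp_le {x : K} {I : FI K} : sp x ≤ I ↔ x ∈ I := spanSingleton_le_iff_mem

/-- the content of a pair -/
noncomputable def ct (P : K × K) : FI K := sp P.1 + sp P.2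

theorem ct_le {P : K × K} {I : FI K} : ct P ≤ I ↔ P.1 ∈ I ∧ P.2 ∈ I := by
  rw [ct, ← sup_eq_add, sup_le_iff, sp_le, sp_le]

theorem fst_mem_ct (P : K × K) : P.1 ∈ ct P := (ct_le.1 le_rfl).1
theorem snd_mem_ct (P : K × K) : P.2 ∈ ct P := (ct_le.1 le_rfl).2

theorem ct_smul (x : K) (P : K × K) : ct (x • P) = sp x * ct P := by
  rw [ct, ct, mul_add, ← sp_mul, ← sp_mul]
  rfl

theorem ct_ne {P : K × K} (h : P.1 ≠ 0) : ct P ≠ 0 := by
  intro h0
  have h1 := fst_mem_ct P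
  rw [h0, FractionalIdeal.mem_zero_iff] at h1
  exact h h1

/-- the lattice generated by a pair -/
def Lt (P : K × K) : Submodule ℤ K := Submodule.span ℤ {P.1, P.2}

theorem mem_Lt {P : K × K} {x : K} : x ∈ Lt P ↔ ∃ a b : ℤ, a * P.1 + b * P.2 = x := by
  rw [Lt, Submodule.mem_span_pair]
  simp

theorem fst_mem_Lt (P : K × K) : P.1 ∈ Lt P := Submodule.subset_span (by simp)
theorem snd_mem_Lt (P : K × K) : P.2 ∈ Lt P := Submodule.subset_span (by simp)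

theorem Lt_le_iff {P : K × K} {N : Submodule ℤ K} : Lt P ≤ N ↔ P.1 ∈ N ∧ P.2 ∈ N := by
  rw [Lt, Submodule.span_le]
  simp [Set.insert_subset_iff]

theorem intCast_mul_mem {I : FI K} {x : K} (a : ℤ) (hx : x ∈ I) : (a : K) * x ∈ I := by
  have := (I : Submodule (𝓞 K) K).smul_mem (a : 𝓞 K) (show x ∈ (I : Submodule (𝓞 K) K) from hx)
  rw [Algebra.smul_def, map_intCast] at this
  exact this

theorem natCast_mul_mem {I : FI K} {x : K} (a : ℕ) (hx : x ∈ I) : (a : K) * x ∈ I := by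
  have := intCast_mul_mem (a : ℤ) hx
  push_cast at this
  exact this

theorem Lt_mem {P : K × K} {I : FI K} (h : ct P ≤ I) {x : K} (hx : x ∈ Lt P) : x ∈ I := by
  obtain ⟨a, b, rfl⟩ := mem_Lt.1 hx
  obtain ⟨h1, h2⟩ := ct_le.1 h
  exact (I : Submodule (𝓞 K) K).add_mem (intCast_mul_mem a h1) (intCast_mul_mem b h2)

theorem ct_congr {P Q : K × K} (h : Lt P = Lt Q) : ct P = ct Q := by
  refine le_antisymm (ct_le.2 ⟨?_, ?_⟩) (ct_le.2 ⟨?_, ?_⟩)
  · exact Lt_mem le_rfl (h ▸ fst_mem_Lt P)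
  · exact Lt_mem le_rfl (h ▸ snd_mem_Lt P)
  · exact Lt_mem le_rfl (h ▸ fst_mem_Lt Q)
  · exact Lt_mem le_rfl (h ▸ snd_mem_Lt Q)

theorem mem_Lt_smul {P : K × K} {x y : K} (hx : x ≠ 0) : y ∈ Lt (x • P) ↔ x⁻¹ * y ∈ Lt P := by
  rw [mem_Lt, mem_Lt]
  simp only [Prod.smul_fst, Prod.smul_snd, smul_eq_mul]
  refine exists_congr fun a => exists_congr fun b => ?_
  constructor
  · rintro rfl
    field_simp
  · intro h
    have : x * (x⁻¹ * y) = y := by field_simp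
    rw [← this, ← h]
    ring

/-- the norm -/
noncomputable abbrev nm (I : FI K) : ℚ := FractionalIdeal.absNorm I

theorem nm_pos {I : FI K} (h : I ≠ 0) : 0 < nm I :=
  lt_of_le_of_ne (absNorm_nonneg I) fun h0 => h (absNorm_eq_zero_iff.1 h0.symm)

theorem exists_ideal {L : FI K} (hL : L ≤ 1) : ∃ L0 : Ideal (𝓞 K), (L0 : FI K) = L :=
  le_one_iff_exists_coeIdeal.1 hL

theorem nm_ge_one {L : FI K} (hL : L ≤ 1) (h0 : L ≠ 0) : 1 ≤ nm L := by
  obtain ⟨L0, rfl⟩ := exists_ideal hL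
  rw [nm, coeIdeal_absNorm]
  have : Ideal.absNorm L0 ≠ 0 := by
    intro h
    rw [Ideal.absNorm_eq_zero_iff] at h
    apply h0
    rw [h]
    simp
  exact_mod_cast Nat.one_le_iff_ne_zero.2 this

theorem inv_mul_le_one {I J : FI K} (hJ : J ≠ 0) (h : I ≤ J) : J⁻¹ * I ≤ 1 := by
  calc J⁻¹ * I ≤ J⁻¹ * J := by gcongr
    _ = 1 := inv_mul_cancel₀ hJ

theorem nm_anti {I J : FI K} (hI : I ≠ 0) (h : I ≤ J) : nm J ≤ nm I := by
  have hJ : J ≠ 0 := by
    rintro rfl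
    exact hI (le_antisymm h (zero_le _))
  have h1 := nm_ge_one (inv_mul_le_one hJ h) (mul_ne_zero (inv_ne_zero hJ) hI)
  have h2 : nm I = nm J * nm (J⁻¹ * I) := by
    rw [nm, nm, nm, ← map_mul, ← mul_assoc, mul_inv_cancel₀ hJ, one_mul]
  rw [h2]
  have := nm_pos hJ
  nlinarith

theorem nm_sp (x : K) : nm (sp x) = |Algebra.norm ℚ x| := by
  rw [nm, sp, absNorm_span_singleton]

theorem nm_natCast (p : ℕ) : nm (sp (p : K)) = (p : ℚ) ^ finrank ℚ K := by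
  rw [nm_sp]
  have : ((p : K)) = algebraMap ℚ K (p : ℚ) := by simp
  rw [this, Algebra.norm_algebraMap, abs_pow, abs_of_nonneg (by positivity)]

/-- ideals between `p I` and `I` -/
theorem exists_pow {p : ℕ} (hp : p.Prime) {I J : FI K} (hI : I ≠ 0) (h1 : sp (p : K) * I ≤ J)
    (h2 : J ≤ I) : ∃ m ≤ finrank ℚ K, nm J = (p : ℚ) ^ m * nm I := by
  have hp0 : (p : K) ≠ 0 := by exact_mod_cast hp.ne_zero
  obtain ⟨L0, hL0⟩ := exists_ideal (inv_mul_le_one hI h2)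
  have h3 : sp (p : K) ≤ (L0 : FI K) := by
    rw [hL0]
    calc sp (p : K) = I⁻¹ * (sp (p : K) * I) := by
          rw [mul_comm (sp (p : K)), ← mul_assoc, inv_mul_cancel₀ hI, one_mul]
      _ ≤ I⁻¹ * J := by gcongr
  have h4 : Ideal.span {(p : 𝓞 K)} ≤ L0 := by
    rw [← coeIdeal_le_coeIdeal K]
    refine le_trans (le_of_eq ?_) h3
    rw [coeIdeal_span_singleton, map_natCast]
  have h5 : Ideal.absNorm L0 ∣ p ^ finrank ℚ K := by
    have := Ideal.absNorm_dvd_absNorm_of_le h4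
    rw [Ideal.absNorm_span_singleton] at this
    have h6 : (Algebra.norm ℤ (p : 𝓞 K)).natAbs = p ^ finrank ℚ K := by
      have h7 : ((p : 𝓞 K)) = algebraMap ℤ (𝓞 K) (p : ℤ) := by simp
      rw [h7, Algebra.norm_algebraMap, Int.natAbs_pow, Int.natAbs_natCast, RingOfIntegers.rank]
    rwa [h6] at this
  obtain ⟨m, hm, hm'⟩ := (Nat.dvd_prime_pow hp).1 h5
  refine ⟨m, hm, ?_⟩
  have h6 : nm J = nm I * nm (I⁻¹ * J) := by
    rw [nm, nm, nm, ← map_mul, ← mul_assoc, mul_inv_cancel₀ hI, one_mul]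
  rw [h6, ← hL0, nm, nm, coeIdeal_absNorm, hm']
  push_cast
  ring

/-- independence over the rational numbers -/
def Ind (P : K × K) : Prop := ∀ a b : ℚ, (a : K) * P.1 + b * P.2 = 0 → a = 0 ∧ b = 0

theorem Ind.fst {P : K × K} (h : Ind P) : P.1 ≠ 0 := by
  intro h0
  have := h 1 0 (by rw [h0]; simp)
  exact one_ne_zero this.1

theorem Ind.snd {P : K × K} (h : Ind P) : P.2 ≠ 0 := by
  intro h0
  have := h 0 1 (by rw [h0]; simp)
  exact one_ne_zero this.2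

/-- reduced at the prime number `p` -/
def RedAt (p : ℕ) (P : K × K) : Prop :=
  ∀ x ∈ Lt P, (¬ ∃ y ∈ Lt P, x = (p : K) * y) →
    nm (sp (p : K) * ct P + sp x) ^ 2 < (p : ℚ) ^ finrank ℚ K * nm (ct P) ^ 2

/-- reduced at all primes -/
def Red (P : K × K) : Prop := ∀ p : ℕ, p.Prime → RedAt p P

theorem RedAt.congr {p : ℕ} {P Q : K × K} (h : Lt P = Lt Q) (hP : RedAt p P) : RedAt p Q := by
  intro x hx hx'
  rw [← ct_congr h]
  rw [← h] at hx hx'
  exact hP x hx hx'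

theorem RedAt.smul {p : ℕ} {P : K × K} {x : K} (hx : x ≠ 0) (hP : RedAt p P) :
    RedAt p (x • P) := by
  intro y hy hy'
  rw [mem_Lt_smul hx] at hy
  have h1 := hP _ hy fun ⟨z, hz, hz'⟩ => hy' ⟨x * z, by
    rw [mem_Lt_smul hx, ← mul_assoc, inv_mul_cancel₀ hx, one_mul]; exact hz, by
    have : y = x * (x⁻¹ * y) := by field_simp
    rw [this, hz']; ring⟩
  have h2 : sp (p : K) * ct (x • P) + sp y = sp x * (sp (p : K) * ct P + sp (x⁻¹ * y)) := by
    rw [ct_smul, mul_add, ← sp_mul, ← mul_assoc x, mul_inv_cancel₀ hx, one_mul]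
    ring
  have h3 : 0 < nm (sp x) := nm_pos (sp_ne hx)
  rw [h2, ct_smul, nm, map_mul, nm, map_mul]
  rw [mul_pow, mul_pow]
  have h4 : 0 < nm (sp x) ^ 2 := by positivity
  calc nm (sp x) ^ 2 * nm (sp (p : K) * ct P + sp (x⁻¹ * y)) ^ 2 <
      nm (sp x) ^ 2 * ((p : ℚ) ^ finrank ℚ K * nm (ct P) ^ 2) := by gcongr
    _ = _ := by ring

theorem Red.smul {P : K × K} {x : K} (hx : x ≠ 0) (hP : Red P) : Red (x • P) :=
  fun p hp => (hP p hp).smul hx

/-- four rational numbers with a common multiple -/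
theorem exists_primitive4 (a b c d : ℚ) (h : ¬ (a = 0 ∧ b = 0 ∧ c = 0 ∧ d = 0)) :
    ∃ (r : ℚ) (A B C D : ℤ), r ≠ 0 ∧ r * a = A ∧ r * b = B ∧ r * c = C ∧ r * d = D ∧
      ∀ q : ℕ, q.Prime → ¬ ((q : ℤ) ∣ A ∧ (q : ℤ) ∣ B ∧ (q : ℤ) ∣ C ∧ (q : ℤ) ∣ D) := by
  set N : ℚ := a.den * b.den * c.den * d.den with hN
  have ha : (a.den : ℚ) ≠ 0 := by exact_mod_cast a.den_nz
  have hb : (b.den : ℚ) ≠ 0 := by exact_mod_cast b.den_nz
  have hc : (c.den : ℚ) ≠ 0 := by exact_mod_cast c.den_nz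
  have hd : (d.den : ℚ) ≠ 0 := by exact_mod_cast d.den_nz
  have hN0 : N ≠ 0 := by positivity
  obtain ⟨A, hA⟩ : ∃ A : ℤ, N * a = A := ⟨a.num * b.den * c.den * d.den, by
    rw [hN]; push_cast; rw [← Rat.mul_den_eq_num a]; ring⟩
  obtain ⟨B, hB⟩ : ∃ A : ℤ, N * b = A := ⟨b.num * a.den * c.den * d.den, by
    rw [hN]; push_cast; rw [← Rat.mul_den_eq_num b]; ring⟩
  obtain ⟨C, hC⟩ : ∃ A : ℤ, N * c = A := ⟨c.num * a.den * b.den * d.den, by
    rw [hN]; push_cast; rw [← Rat.mul_den_eq_num c]; ring⟩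
  obtain ⟨D, hD⟩ : ∃ A : ℤ, N * d = A := ⟨d.num * a.den * b.den * c.den, by
    rw [hN]; push_cast; rw [← Rat.mul_den_eq_num d]; ring⟩
  set g : ℕ := Nat.gcd (Int.gcd A B) (Int.gcd C D) with hg
  have hg0 : g ≠ 0 := by
    intro h0
    rw [hg, Nat.gcd_eq_zero_iff, Int.gcd_eq_zero_iff, Int.gcd_eq_zero_iff] at h0
    obtain ⟨⟨h1, h2⟩, h3, h4⟩ := h0
    rw [h1, Int.cast_zero] at hA
    rw [h2, Int.cast_zero] at hB
    rw [h3, Int.cast_zero] at hC
    rw [h4, Int.cast_zero] at hD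
    exact h ⟨(mul_eq_zero.1 hA).resolve_left hN0, (mul_eq_zero.1 hB).resolve_left hN0,
      (mul_eq_zero.1 hC).resolve_left hN0, (mul_eq_zero.1 hD).resolve_left hN0⟩
  have d1 : (g : ℤ) ∣ A := (Int.natCast_dvd_natCast.2 (Nat.gcd_dvd_left _ _)).trans
    (Int.gcd_dvd_left A B)
  have d2 : (g : ℤ) ∣ B := (Int.natCast_dvd_natCast.2 (Nat.gcd_dvd_left _ _)).trans
    (Int.gcd_dvd_right A B)
  have d3 : (g : ℤ) ∣ C := (Int.natCast_dvd_natCast.2 (Nat.gcd_dvd_right _ _)).trans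
    (Int.gcd_dvd_left C D)
  have d4 : (g : ℤ) ∣ D := (Int.natCast_dvd_natCast.2 (Nat.gcd_dvd_right _ _)).trans
    (Int.gcd_dvd_right C D)
  obtain ⟨A', hA'⟩ := d1
  obtain ⟨B', hB'⟩ := d2
  obtain ⟨C', hC'⟩ := d3
  obtain ⟨D', hD'⟩ := d4
  have hgq : (g : ℚ) ≠ 0 := by exact_mod_cast hg0
  refine ⟨N / g, A', B', C', D', div_ne_zero hN0 hgq, ?_, ?_, ?_, ?_, ?_⟩
  · rw [div_mul_eq_mul_div, hA, hA', div_eq_iff hgq]; push_cast; ring
  · rw [div_mul_eq_mul_div, hB, hB', div_eq_iff hgq]; push_cast; ring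
  · rw [div_mul_eq_mul_div, hC, hC', div_eq_iff hgq]; push_cast; ring
  · rw [div_mul_eq_mul_div, hD, hD', div_eq_iff hgq]; push_cast; ring
  · rintro q hq ⟨e1, e2, e3, e4⟩
    have f1 : ((g * q : ℕ) : ℤ) ∣ A := by rw [hA']; push_cast; exact mul_dvd_mul_left _ e1
    have f2 : ((g * q : ℕ) : ℤ) ∣ B := by rw [hB']; push_cast; exact mul_dvd_mul_left _ e2
    have f3 : ((g * q : ℕ) : ℤ) ∣ C := by rw [hC']; push_cast; exact mul_dvd_mul_left _ e3
    have f4 : ((g * q : ℕ) : ℤ) ∣ D := by rw [hD']; push_cast; exact mul_dvd_mul_left _ e4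
    have f5 : g * q ∣ g := by
      conv_rhs => rw [hg]
      exact Nat.dvd_gcd (Int.dvd_gcd f1 f2) (Int.dvd_gcd f3 f4)
    have f6 := Nat.le_of_dvd (Nat.pos_of_ne_zero hg0) f5
    have f7 := hq.two_le
    have f8 := Nat.pos_of_ne_zero hg0
    nlinarith

end

end Pool.Agent.Y714.KF
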