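import Pool.Agent.Y714.KF.Asm2
import Pool.Agent.Y496.KF.Sum
import Pool.Agent.Y379.KF.Box
import Pool.Agent.Y379.KF.Crt
import Pool.Agent.Y714.KF.Lpc
import Pool.Agent.Y988.KF.Cls
import Pool.Agent.Y988.KF.Div
import Pool.Agent.Y988.KF.Prod
import Pool.Agent.Y488.KF.Mono
import Pool.Agent.Y407.KF.Cnt
import Pool.Agent.Y319.KF.Loc
import Pool.Agent.Y421.KF.Bas
import Pool.Agent.Y179.KF.HB
import Pool.Agent.Y179.KF.Bdry
import Pool.Agent.Y977.KF.CR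
import Pool.Agent.Y48.KF.CF
import Pool.Agent.Y48.KF.RF1
import Pool.Agent.Y158.KF.RF2
import Pool.Agent.Y804.KF.Lr
import Pool.Agent.Y344.KF.Mid
import Pool.Agent.Y455.KF.Brn
import Pool.Agent.Y455.KF.Ccc
import Pool.Agent.Y983.KF.Vol
import Pool.Agent.Y901.KF.Rbc
import Pool.Agent.Y100.KF.Elm
import Pool.Agent.Y681.KF.Lev
import Pool.Agent.Y297.KF.Pad
import Pool.Agent.Z864.KF.Bij2

set_option autoImplicit false

/-! Project KF: everything together. -/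

namespace Pool.Agent.Y714.KF

open NumberField FractionalIdeal Module Filter Topology
open scoped nonZeroDivisors

variable (K : Type) [Field K] [NumberField K]

/-- Manin's conjecture for the forms attached to number fields of odd degree, all heights -/
theorem final (hodd : Odd (finrank ℚ K)) (hn : 5 ≤ finrank ℚ K)
    (S₀ : Finset ℕ) (hS₀ : ∀ p ∈ S₀, p.Prime) (ψ : ((K →+* ℂ) → ℂ × ℂ) → ℝ) (hψ : RFac K ψ)
    (φ : ℕ → K → ℝ) (hφ : ∀ p ∈ S₀, PFac K p (φ p)) :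
    ∃ c : ℝ, 0 < c ∧ Tendsto (fun B : ℝ => ({C : Set K | ∃ θ : K,
      IntermediateField.adjoin ℚ {θ} = ⊤ ∧ C = {θ' | Rel K θ θ'} ∧
        ht K θ * Fac S₀ ψ φ θ ≤ B}.ncard : ℝ) / B) atTop (𝓝 c) := by
  have hSUM : S_SUM := Y496.KF.sum
  have hBOX : S_BOX := Y379.KF.box
  have hCRT : S_CRT := Y379.KF.crt
  have hLPC : S_LPC := Y714.KF.LPC.lpc
  have hPROD : S_PROD := Y988.KF.prod
  have hMONO : S_MONO := Y488.KF.mono
  have hDIV : S_DIV K := Y988.KF.div K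
  have hCNT : S_CNT K := Y407.KF.cnt
  have hCLS : S_CLS K := Y988.KF.cls K
  have hGEN : S_GEN K := Y488.KF.gen K
  have hLOC : S_LOC K := Y319.KF.loc
  have hBAS : S_BAS K := Y421.KF.bas
  have hSUP : S_SUP K := Y421.KF.sup
  have hSUPI : S_SUPI K := Y421.KF.supi
  have hHB : S_HB K := Y179.KF.hb hCLS
  have hDESC : S_DESC K := Y179.KF.desc hHB
  have hT1 : S_T1 K := Y977.KF.t1 hSUM
  have hCR : S_CR K := Y977.KF.cr hT1 hHB hCLS
  have hCF : S_CF K := Y48.KF.cf K hCR hDIV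
  have hRF1 : S_RF1 K := Y48.KF.rf1 K hCR hDIV hBAS hSUP
  have hRF2 : S_RF2 K := Y158.KF.rf2 hCR hDIV hCLS hBAS hSUPI
  have hLR : S_LR K := Y804.KF.lr hDIV hCNT
  have hMID : S_MID K := Y344.KF.mid hLR hBOX
  have hCCC : S_CCC K := Y455.KF.ccc
  have hOPB : S_OPB K := Y455.KF.opb hCCC
  have hBRN : S_BRN K := Y455.KF.brn
  have hNUL : S_NUL K := Y179.KF.nul hCCC hBRN
  have hVOL : S_VOL K := Y983.KF.vol hBRN hCCC
  have hRBC : S_RBC K := Y901.KF.rbc K hCR hOPB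
  have hELM : S_ELM := Y100.KF.elm hLPC
  have hLEV : S_LEV K := Y681.KF.lev K
  have hPAD : S_PAD K := Y297.KF.pad
  have hHT : S_HT K := Z864.KF.ht K hDESC hGEN
  have hBIJ : S_BIJ2 K := Z864.KF.bij2 K hLOC hDESC hGEN hCR
  exact final_of2 hT1 hCR hCF hRF1 hRF2 hMID hLR hCRT hLPC hPROD hMONO hRBC hOPB hNUL hVOL hCLS
    hGEN hLOC hDESC hBIJ hHT hELM hPAD hLEV hodd hn S₀ hS₀ ψ hψ φ hφ

end Pool.Agent.Y714.KF
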