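import Pool.Agent.Y714.KF.Stm

set_option autoImplicit false
set_option linter.unusedSectionVars false
set_option linter.unusedVariables false

/-! The assembly: the asymptotic formula for one ideal class. -/

namespace Pool.Agent.Y714.KF

open NumberField FractionalIdeal Module Finset ComplexConjugate MeasureTheory Filter Topology
open scoped nonZeroDivisors

section

/-- abstract limit lemma -/
theorem lim_of_approx (g : ℕ → ℝ) (hg : ∀ Y, 0 ≤ g Y) (L : ℝ → ℕ → ℝ) (C₁ : ℝ) (hC₁ : 0 < C₁)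
    (C₂ : ℝ → ℝ) (hC₂ : ∀ δ, 0 < δ → 0 < C₂ δ)
    (h : ∀ δ : ℝ, 0 < δ → ∀ P : ℕ, 1 ≤ P → ∀ ε : ℝ, 0 < ε → ∀ᶠ Y in atTop,
      |g Y - L δ P| ≤ C₁ * δ ^ 2 + C₂ δ / P + ε) :
    ∃ c : ℝ, 0 ≤ c ∧ Tendsto g atTop (𝓝 c) ∧
      ∀ δ : ℝ, 0 < δ → ∀ P : ℕ, 1 ≤ P → |c - L δ P| ≤ C₁ * δ ^ 2 + C₂ δ / P := by
  have hcau : CauchySeq g := by
    rw [Metric.cauchySeq_iff']
    intro η hη
    obtain ⟨δ, hδ, hδ'⟩ : ∃ δ : ℝ, 0 < δ ∧ C₁ * δ ^ 2 ≤ η / 8 := by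
      refine ⟨min 1 (η / (8 * C₁)), by positivity, ?_⟩
      have h1 : min 1 (η / (8 * C₁)) ≤ 1 := min_le_left _ _
      have h2 : min 1 (η / (8 * C₁)) ≤ η / (8 * C₁) := min_le_right _ _
      have h0 : 0 < min 1 (η / (8 * C₁)) := by positivity
      calc C₁ * (min 1 (η / (8 * C₁))) ^ 2 ≤ C₁ * (η / (8 * C₁)) := by
            gcongr
            rw [sq]
            calc _ ≤ 1 * (η / (8 * C₁)) := by gcongr
              _ = _ := one_mul _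
        _ = η / 8 := by field_simp
    obtain ⟨P, hP⟩ := exists_nat_gt (C₂ δ / (η / 8))
    have hP1 : 1 ≤ P + 1 := by omega
    have hP' : C₂ δ / ((P + 1 : ℕ) : ℝ) ≤ η / 8 := by
      have h3 := hC₂ δ hδ
      rw [div_le_iff₀ (by positivity)]
      rw [div_lt_iff₀ (by positivity)] at hP
      push_cast
      nlinarith
    obtain ⟨N, hN⟩ := eventually_atTop.1 (h δ hδ (P + 1) hP1 (η / 8) (by positivity))
    refine ⟨N, fun Y hY => ?_⟩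
    have h1 := hN Y hY
    have h2 := hN N le_rfl
    rw [Real.dist_eq]
    calc |g Y - g N| = |(g Y - L δ (P + 1)) - (g N - L δ (P + 1))| := by congr 1; ring
      _ ≤ |g Y - L δ (P + 1)| + |g N - L δ (P + 1)| := abs_sub _ _
      _ < η := by linarith
  obtain ⟨c, hc⟩ := cauchySeq_tendsto_of_complete hcau
  refine ⟨c, ge_of_tendsto' hc hg, hc, fun δ hδ P hP => ?_⟩
  refine le_of_forall_pos_le_add fun ε hε => ?_
  have h1 : Tendsto (fun Y => |g Y - L δ P|) atTop (𝓝 |c - L δ P|) :=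
    (hc.sub tendsto_const_nhds).abs
  exact le_of_tendsto h1 (h δ hδ P hP ε hε)

variable {K : Type} [Field K] [NumberField K]

theorem SL_mono (κ : Fin (Units.rank K) → ℝ) (I : FI K) {s t : ℝ} (h : s ≤ t) :
    SL κ I s ⊆ SL κ I t := by
  rintro M ⟨P, h1, h2, h3, h4, h5⟩
  exact ⟨P, h1, h2, h3, h4, h5.trans h⟩

theorem SL_finite (hodd : Odd (finrank ℚ K)) (hn : 3 ≤ finrank ℚ K) (hcr : S_CR K)
    (κ : Fin (Units.rank K) → ℝ) (I : (FI K)ˣ) (t : ℝ) : (SL κ (I : FI K) t).Finite := by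
  obtain ⟨C, _, hC⟩ := hcr hodd hn κ
  exact (hC I (max t 1) (by positivity)).1.subset (SL_mono κ _ (le_max_left _ _))

theorem Dm_subset {ι : Type} [Fintype ι] (b : Basis ι ℚ K) (κ : Fin (Units.rank K) → ℝ) (δ : ℝ) :
    Dm b κ δ ⊆ Dc b κ δ := by
  rintro u ⟨h1, h2, h3, h4, h5, h6, h7⟩
  exact ⟨h1.le, h2.le, h3.le, h4.le, h5, h6.le, fun j => ⟨(h7 j).1.le, (h7 j).2.le⟩⟩

theorem Dm_anti {ι : Type} [Fintype ι] (b : Basis ι ℚ K) (κ : Fin (Units.rank K) → ℝ) {δ δ' : ℝ}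
    (h0 : 0 < δ) (h : δ ≤ δ') : Dm b κ δ' ⊆ Dm b κ δ := by
  rintro u ⟨h1, h2⟩
  exact ⟨lt_of_le_of_lt (by gcongr) h1, h2⟩

/-- the set of residues used for the primes up to `P` -/
theorem exists_res (hLR : S_LR K) (hCRT : S_CRT) (hodd : Odd (finrank ℚ K))
    (hn : 5 ≤ finrank ℚ K) (I : (FI K)ˣ) (b : Basis (Fin (finrank ℚ K)) ℚ K)
    (hb : ∀ x : K, x ∈ (I : FI K) ↔ ∃ z : Fin (finrank ℚ K) → ℤ, x = el b z) :
    ∃ (C : ℝ) (T : ∀ p : ℕ, Set (Fin (finrank ℚ K) ⊕ Fin (finrank ℚ K) → ZMod p)), 0 < C ∧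
      (∀ p : ℕ, p.Prime → ∀ z : Fin (finrank ℚ K) ⊕ Fin (finrank ℚ K) → ℤ, Ind (pr b z) →
        (Loc p I (Lt (pr b z)) ↔ (fun i => (z i : ZMod p)) ∈ T p)) ∧
      (∀ p : ℕ, p.Prime → ((T p)ᶜ.ncard : ℝ) ≤ C * (p : ℝ) ^ (2 * finrank ℚ K - 2)) := by
  obtain ⟨C, hC, h⟩ := hLR hodd hn I b hb
  choose! T hT using h
  exact ⟨C, T, hC, fun p hp => (hT p hp).1, fun p hp => (hT p hp).2⟩

/-- the relative density of a set of residues -/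
noncomputable def dn {ι : Type} [Fintype ι] {p : ℕ} (T : Set (ι → ZMod p)) : ℝ :=
  (T.ncard : ℝ) / (p : ℝ) ^ Fintype.card ι

theorem dn_compl {ι : Type} [Fintype ι] {p : ℕ} (hp : p.Prime) (T : Set (ι → ZMod p)) :
    1 - dn T = (Tᶜ.ncard : ℝ) / (p : ℝ) ^ Fintype.card ι := by
  classical
  have : Fact p.Prime := ⟨hp⟩
  have hp0 : (0 : ℝ) < p := by exact_mod_cast hp.pos
  have h1 : T.ncard + Tᶜ.ncard = p ^ Fintype.card ι := by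
    rw [Set.ncard_add_ncard_compl, Nat.card_eq_fintype_card, Fintype.card_fun, ZMod.card]
  unfold dn
  have h2 : (T.ncard : ℝ) + Tᶜ.ncard = (p : ℝ) ^ Fintype.card ι := by exact_mod_cast h1
  field_simp
  linarith

theorem Ind_of_br {P : K × K} (hn : 2 ≤ finrank ℚ K) (h : Nd P) : Ind P := h.ind hn

theorem nd_of_region {ι : Type} [Fintype ι] [DecidableEq ι] (b : Basis ι ℚ K)
    {z : ι ⊕ ι → ℤ} {Y : ℕ} (hY : 1 ≤ Y)
    (h : ∀ σ τ : K →+* ℂ, σ ≠ τ → br (rw2 b (fun i => (z i : ℝ) / Y) σ)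
      (rw2 b (fun i => (z i : ℝ) / Y) τ) ≠ 0) : Nd (pr b z) := by
  intro σ τ hst h0
  apply h σ τ hst
  have hY0 : (Y : ℂ) ≠ 0 := by exact_mod_cast (by omega : Y ≠ 0)
  have e : ∀ σ : K →+* ℂ, rw2 b (fun i => (z i : ℝ) / Y) σ =
      ((Y : ℂ)⁻¹ * (vec (pr b z) σ).1, (Y : ℂ)⁻¹ * (vec (pr b z) σ).2) := by
    intro σ
    rw [← rw2_int b z]
    simp only [rw2, rv]
    have e1 : ∀ x : ι → ℤ, sg b σ (fun i => (x i : ℝ) / Y) =
        (Y : ℂ)⁻¹ * sg b σ (fun i => (x i : ℝ)) := by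
      intro x
      have := sg_smul b σ ((Y : ℝ)⁻¹) (fun i => (x i : ℝ))
      push_cast at this
      rw [← this]
      congr 1
      funext i
      simp [div_eq_inv_mul]
    exact Prod.ext (e1 _) (e1 _)
  rw [e, e]
  have : br ((Y : ℂ)⁻¹ * (vec (pr b z) σ).1, (Y : ℂ)⁻¹ * (vec (pr b z) σ).2)
      ((Y : ℂ)⁻¹ * (vec (pr b z) τ).1, (Y : ℂ)⁻¹ * (vec (pr b z) τ).2) =
      (Y : ℂ)⁻¹ ^ 2 * br (vec (pr b z) σ) (vec (pr b z) τ) := by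
    simp only [br]; ring
  rw [this, h0, mul_zero]

/-- the number of lattices failing at a large prime -/
theorem fail_bound (hT1 : S_T1 K) (hCR : S_CR K) (hCF : S_CF K) (hRF1 : S_RF1 K)
    (hRF2 : S_RF2 K) (hMID : S_MID K) (hodd : Odd (finrank ℚ K)) (hn : 5 ≤ finrank ℚ K)
    (κ : Fin (Units.rank K) → ℝ) (I : (FI K)ˣ) :
    ∃ (C₁ C₃ : ℝ) (C₂ : ℝ → ℝ), 0 < C₁ ∧ 0 < C₃ ∧ (∀ δ, 0 < δ → 0 < C₂ δ) ∧
      (∀ δ : ℝ, 0 < δ → ∀ Y : ℕ, 1 ≤ Y →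
        ({M ∈ SL κ (I : FI K) ((Y : ℝ) ^ (2 * finrank ℚ K)) |
          ∃ x ∈ M, x ≠ 0 ∧ qf x ≤ (δ * Y) ^ 2}.ncard : ℝ) ≤
          C₁ * δ ^ 2 * (Y : ℝ) ^ (2 * finrank ℚ K)) ∧
      ∀ δ : ℝ, 0 < δ → ∀ P : ℕ, 1 ≤ P → ∀ Y : ℕ, 1 ≤ Y →
        ({M ∈ SL κ (I : FI K) ((Y : ℝ) ^ (2 * finrank ℚ K)) |
          ∃ p : ℕ, p.Prime ∧ P < p ∧ ¬ Loc p I M}.ncard : ℝ) ≤
          (C₁ * δ ^ 2 + C₂ δ / P + C₃ / Y) * (Y : ℝ) ^ (2 * finrank ℚ K) := by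
  obtain ⟨C₁, hC₁, h1⟩ := hT1 hodd (by omega) κ I
  have h2 := hMID hodd hn κ I
  choose! C₂ hC₂ using h2
  obtain ⟨Ca, hCa, ha⟩ := hCF hodd (by omega) κ
  obtain ⟨Cb, hCb, hb⟩ := hRF1 hodd (by omega) κ
  obtain ⟨Cc, hCc, hc⟩ := hRF2 hodd hn κ I
  have hN : (0 : ℝ) < ((nm (I : FI K) : ℚ) : ℝ) ^ 2 := by
    have := nm_pos (Units.ne_zero I)
    positivity
  set N := ((nm (I : FI K) : ℚ) : ℝ) ^ 2 with hNdef
  refine ⟨C₁, Ca / N + Cb / N + Cc, C₂, hC₁, by positivity, fun δ hδ => (hC₂ δ hδ).1, ?_, ?_⟩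
  · intro δ hδ Y hY
    exact (h1 δ hδ Y (by exact_mod_cast hY)).2
  intro δ hδ P hP Y hY
  have hY' : (1 : ℝ) ≤ Y := by exact_mod_cast hY
  have hYpos : (0 : ℝ) < (Y : ℝ) ^ (2 * finrank ℚ K) := by positivity
  set S := SL κ (I : FI K) ((Y : ℝ) ^ (2 * finrank ℚ K)) with hS
  have hfin : S.Finite := SL_finite hodd (by omega) hCR κ I _
  set F1 := {M ∈ S | ∃ x ∈ M, x ≠ 0 ∧ qf x ≤ (δ * Y) ^ 2} with hF1
  set F2 := {M ∈ S | (∀ x ∈ M, x ≠ 0 → (δ * Y) ^ 2 < qf x) ∧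
      ∃ p : ℕ, p.Prime ∧ (P : ℝ) < p ∧ (p : ℝ) ≤ Y ∧ ¬ Loc p I M} with hF2
  set F3 := {M ∈ S | ∃ p : ℕ, p.Prime ∧ (Y : ℝ) < p ∧ Cf p I M} with hF3
  set F4 := {M ∈ S | ∃ p : ℕ, p.Prime ∧ (Y : ℝ) < p ∧ ∃ m ≤ finrank ℚ K,
      finrank ℚ K + 3 ≤ 2 * m ∧ Rf p m I M} with hF4
  set F5 := {M ∈ S | ∃ p : ℕ, p.Prime ∧ (Y : ℝ) < p ∧
      ∃ m, 2 * m = finrank ℚ K + 1 ∧ Rf p m I M} with hF5
  have hsub : {M ∈ S | ∃ p : ℕ, p.Prime ∧ P < p ∧ ¬ Loc p I M} ⊆ F1 ∪ (F2 ∪ (F3 ∪ (F4 ∪ F5))) := by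
    rintro M ⟨hM, p, hp, hPp, hloc⟩
    by_cases hc1 : ∃ x ∈ M, x ≠ 0 ∧ qf x ≤ (δ * Y) ^ 2
    · exact Or.inl ⟨hM, hc1⟩
    · right
      push Not at hc1
      by_cases hpY : (p : ℝ) ≤ Y
      · exact Or.inl ⟨hM, hc1, p, hp, by exact_mod_cast hPp, hpY, hloc⟩
      · right
        push Not at hpY
        rw [Loc, not_and_or, not_not] at hloc
        rcases hloc with hl | hl
        · exact Or.inl ⟨hM, p, hp, hpY, hl⟩
        · right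
          push Not at hl
          obtain ⟨m, hm1, hm2, hm3⟩ := hl
          obtain ⟨k, hk⟩ := hodd
          by_cases h3 : finrank ℚ K + 3 ≤ 2 * m
          · exact Or.inl ⟨hM, p, hp, hpY, m, hm1, h3, hm3⟩
          · exact Or.inr ⟨hM, p, hp, hpY, m, by omega, hm3⟩
  have hsubS : F1 ∪ (F2 ∪ (F3 ∪ (F4 ∪ F5))) ⊆ S := by
    rintro M (h | h | h | h | h) <;> exact h.1
  have hle : {M ∈ S | ∃ p : ℕ, p.Prime ∧ P < p ∧ ¬ Loc p I M}.ncard ≤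
      F1.ncard + (F2.ncard + (F3.ncard + (F4.ncard + F5.ncard))) := by
    refine (Set.ncard_le_ncard hsub (hfin.subset hsubS)).trans ?_
    refine (Set.ncard_union_le _ _).trans (Nat.add_le_add_left ?_ _)
    refine (Set.ncard_union_le _ _).trans (Nat.add_le_add_left ?_ _)
    refine (Set.ncard_union_le _ _).trans (Nat.add_le_add_left ?_ _)
    exact Set.ncard_union_le _ _
  have hle' : ({M ∈ S | ∃ p : ℕ, p.Prime ∧ P < p ∧ ¬ Loc p I M}.ncard : ℝ) ≤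
      F1.ncard + (F2.ncard + (F3.ncard + (F4.ncard + F5.ncard))) := by exact_mod_cast hle
  have e1 : (F1.ncard : ℝ) ≤ C₁ * δ ^ 2 * (Y : ℝ) ^ (2 * finrank ℚ K) := (h1 δ hδ Y hY').2
  have e2 : (F2.ncard : ℝ) ≤ C₂ δ * (Y : ℝ) ^ (2 * finrank ℚ K) / P :=
    (hC₂ δ hδ).2 P Y (by exact_mod_cast hP) hY'
  have e3 := ha I ((Y : ℝ) ^ (2 * finrank ℚ K)) Y hYpos hY'
  have e4 := hb I ((Y : ℝ) ^ (2 * finrank ℚ K)) Y hYpos hY'
  have e5 := hc Y hY'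
  refine hle'.trans ?_
  have e6 : (C₁ * δ ^ 2 + C₂ δ / P + (Ca / N + Cb / N + Cc) / Y) *
      (Y : ℝ) ^ (2 * finrank ℚ K) = C₁ * δ ^ 2 * (Y : ℝ) ^ (2 * finrank ℚ K) +
      (C₂ δ * (Y : ℝ) ^ (2 * finrank ℚ K) / P +
      (Ca * (Y : ℝ) ^ (2 * finrank ℚ K) / (N * Y) + (Cb * (Y : ℝ) ^ (2 * finrank ℚ K) / (N * Y) +
      Cc * (Y : ℝ) ^ (2 * finrank ℚ K) / Y))) := by
    have hP0 : (P : ℝ) ≠ 0 := by exact_mod_cast (by omega : P ≠ 0)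
    field_simp
    ring
  rw [e6]
  exact add_le_add e1 (add_le_add e2 (add_le_add e3 (add_le_add e4 e5)))

theorem closure_minus {X : Type} [TopologicalSpace X] {A B : Set X} (hA : IsOpen A) (hAB : A ⊆ B) :
    frontier A ⊆ closure B \ A ∧ IsClosed (closure B \ A) ∧
      frontier (closure B \ A) ⊆ closure B \ A := by
  have h1 : IsClosed (closure B \ A) := isClosed_closure.sdiff hA
  refine ⟨?_, h1, h1.frontier_subset⟩
  rw [hA.frontier_eq]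
  exact Set.sdiff_subset_sdiff_left (closure_mono hAB)

/-- the main counting estimate for one ideal class -/
theorem main_approx (hT1 : S_T1 K) (hCR : S_CR K) (hCF : S_CF K) (hRF1 : S_RF1 K)
    (hRF2 : S_RF2 K) (hMID : S_MID K) (hCRT : S_CRT) (hLPC : S_LPC) (hRBC : S_RBC K)
    (hOPB : S_OPB K) (hodd : Odd (finrank ℚ K)) (hn : 5 ≤ finrank ℚ K) (I : (FI K)ˣ)
    (b : Basis (Fin (finrank ℚ K)) ℚ K)
    (hb : ∀ x : K, x ∈ (I : FI K) ↔ ∃ z : Fin (finrank ℚ K) → ℤ, x = el b z)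
    (κ : Fin (Units.rank K) → ℝ)
    (hκ : ∀ δ : ℝ, 0 < δ → volume (closure (Dc b κ δ) \ Dm b κ δ) = 0)
    (T : ∀ p : ℕ, Set (Fin (finrank ℚ K) ⊕ Fin (finrank ℚ K) → ZMod p))
    (hT : ∀ p : ℕ, p.Prime → ∀ z : Fin (finrank ℚ K) ⊕ Fin (finrank ℚ K) → ℤ, Ind (pr b z) →
        (Loc p I (Lt (pr b z)) ↔ (fun i => (z i : ZMod p)) ∈ T p)) :
    ∃ (C₁ : ℝ) (C₂ : ℝ → ℝ), 0 < C₁ ∧ (∀ δ, 0 < δ → 0 < C₂ δ) ∧
      ∀ δ : ℝ, 0 < δ → ∀ P : ℕ, 1 ≤ P → ∀ ε : ℝ, 0 < ε → ∀ᶠ Y : ℕ in atTop,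
      |({M ∈ SL κ (I : FI K) ((Y : ℝ) ^ (2 * finrank ℚ K)) |
          ∀ p : ℕ, p.Prime → Loc p I M}.ncard : ℝ) / (Y : ℝ) ^ (2 * finrank ℚ K) -
        volume.real (Dm b κ δ) * (∏ p ∈ (Finset.range (P + 1)).filter Nat.Prime, dn (T p)) / 2| ≤
        C₁ * δ ^ 2 + C₂ δ / P + ε := by
  obtain ⟨C₁, C₃, C₂, hC₁, hC₃, hC₂, hcusp, hfail⟩ :=
    fail_bound hT1 hCR hCF hRF1 hRF2 hMID hodd hn κ I
  refine ⟨2 * C₁, C₂, by positivity, hC₂, fun δ hδ P hP ε hε => ?_⟩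
  set S := (Finset.range (P + 1)).filter Nat.Prime with hS
  have hSp : ∀ p ∈ S, p.Prime := fun p hp => (Finset.mem_filter.1 hp).2
  obtain ⟨U, hU1, hU2⟩ := hCRT (Fin (finrank ℚ K) ⊕ Fin (finrank ℚ K)) S hSp T
  obtain ⟨hopen, hbdd⟩ := hOPB hodd (by omega) b κ δ hδ
  obtain ⟨hfr, hcl, hfr2⟩ := closure_minus hopen (Dm_subset b κ δ)
  have hq : 0 < ∏ p ∈ S, p := prod_pos fun p hp => (hSp p hp).pos
  -- the main term
  have hlim1 := hLPC (Fin (finrank ℚ K) ⊕ Fin (finrank ℚ K)) (Dm b κ δ) (hbdd.subset (Dm_subset b κ δ))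
    hopen.measurableSet (measure_mono_null hfr (hκ δ hδ)) (∏ p ∈ S, p) hq U
  have hlim2 := hLPC (Fin (finrank ℚ K) ⊕ Fin (finrank ℚ K)) (closure (Dc b κ δ) \ Dm b κ δ)
    (hbdd.closure.subset Set.sdiff_subset) hcl.measurableSet
    (measure_mono_null hfr2 (hκ δ hδ)) 1 one_pos Set.univ
  have hz : volume.real (closure (Dc b κ δ) \ Dm b κ δ) = 0 := by
    rw [measureReal_def, hκ δ hδ]; rfl
  rw [hz, zero_mul, zero_div] at hlim2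
  have hcard : Fintype.card (Fin (finrank ℚ K) ⊕ Fin (finrank ℚ K)) = 2 * finrank ℚ K := by simp; ring
  have hmain : volume.real (Dm b κ δ) * (U.ncard : ℝ) / ((∏ p ∈ S, p : ℕ) : ℝ) ^
      Fintype.card (Fin (finrank ℚ K) ⊕ Fin (finrank ℚ K)) = volume.real (Dm b κ δ) * ∏ p ∈ S, dn (T p) := by
    rw [hU2]
    unfold dn
    rw [Finset.prod_div_distrib]
    push_cast
    rw [← Finset.prod_pow]
    ring
  rw [hmain] at hlim1
  have hev1 := (Metric.tendsto_atTop.1 hlim1) (ε / 4) (by positivity)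
  have hev2 := (Metric.tendsto_atTop.1 hlim2) (ε / 4) (by positivity)
  obtain ⟨N1, hN1⟩ := hev1
  obtain ⟨N2, hN2⟩ := hev2
  obtain ⟨N3, hN3⟩ := exists_nat_gt (C₃ / (ε / 4))
  filter_upwards [eventually_ge_atTop (N1 + N2 + N3 + 1)] with Y hY
  have hY1 : 1 ≤ Y := by omega
  have hYpos : (0 : ℝ) < Y := by exact_mod_cast hY1
  have hYn : (0 : ℝ) < (Y : ℝ) ^ (2 * finrank ℚ K) := by positivity
  set Sl := SL κ (I : FI K) ((Y : ℝ) ^ (2 * finrank ℚ K)) with hSl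
  have hSfin : Sl.Finite := SL_finite hodd (by omega) hCR κ I _
  set A := {M ∈ Sl | ∀ p : ℕ, p.Prime → Loc p I M} with hA
  set A0 := {M ∈ Sl | ∀ p ∈ S, Loc p I M} with hA0
  set F := {M ∈ Sl | ∃ p : ℕ, p.Prime ∧ P < p ∧ ¬ Loc p I M} with hF
  set Cu := {M ∈ Sl | ∃ x ∈ M, x ≠ 0 ∧ qf x ≤ (δ * Y) ^ 2} with hCu
  have hAA : A ⊆ A0 := fun M hM => ⟨hM.1, fun p hp => hM.2 p (hSp p hp)⟩
  have hA0F : A0 ⊆ A ∪ F := by
    rintro M ⟨hM1, hM2⟩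
    by_cases h : ∀ p : ℕ, p.Prime → Loc p I M
    · exact Or.inl ⟨hM1, h⟩
    · push Not at h
      obtain ⟨p, hp, hpl⟩ := h
      refine Or.inr ⟨hM1, p, hp, ?_, hpl⟩
      by_contra hcon
      exact hpl (hM2 p (Finset.mem_filter.2 ⟨Finset.mem_range.2 (by omega), hp⟩))
  have hle1 : (A.ncard : ℝ) ≤ A0.ncard := by
    exact_mod_cast Set.ncard_le_ncard hAA (hSfin.subset fun M hM => hM.1)
  have hle2 : (A0.ncard : ℝ) ≤ A.ncard + F.ncard := by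
    have h1 : A0.ncard ≤ (A ∪ F).ncard := Set.ncard_le_ncard hA0F
      (hSfin.subset (by rintro M (h | h) <;> exact h.1))
    exact_mod_cast h1.trans (Set.ncard_union_le _ _)
  have hFle : (F.ncard : ℝ) ≤ (C₁ * δ ^ 2 + C₂ δ / P + C₃ / Y) * (Y : ℝ) ^ (2 * finrank ℚ K) :=
    hfail δ hδ P hP Y hY1
  have hCule : (Cu.ncard : ℝ) ≤ C₁ * δ ^ 2 * (Y : ℝ) ^ (2 * finrank ℚ K) := hcusp δ hδ Y hY1
  have hrbc := hRBC hodd (by omega) I b hb κ δ hδ Y hY1 (fun M => ∀ p ∈ S, Loc p I M)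
  -- the set of points of the region
  have hE : {z : Fin (finrank ℚ K) ⊕ Fin (finrank ℚ K) → ℤ | (fun i => (z i : ℝ) / Y) ∈ Dm b κ δ ∧
      ∀ p ∈ S, Loc p I (Lt (pr b z))} = {z : Fin (finrank ℚ K) ⊕ Fin (finrank ℚ K) → ℤ |
        (fun i => (z i : ZMod (∏ p ∈ S, p))) ∈ U ∧ (fun i => (z i : ℝ) / Y) ∈ Dm b κ δ} := by
    ext z
    simp only [Set.mem_ofPred_eq]
    rw [and_comm]
    refine and_congr_left fun hz => ?_
    have hnd : Nd (pr b z) := nd_of_region b hY1 hz.2.2.2.2.1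
    rw [hU1]
    exact forall₂_congr fun p hp => hT p (hSp p hp) z (hnd.ind (by omega))
  have hBd : ({z : Fin (finrank ℚ K) ⊕ Fin (finrank ℚ K) → ℤ | (fun i => (z i : ℝ) / Y) ∈
      Dc b κ δ \ Dm b κ δ}.ncard : ℝ) ≤ ({z : Fin (finrank ℚ K) ⊕ Fin (finrank ℚ K) → ℤ |
        (fun i => (z i : ZMod 1)) ∈ Set.univ ∧ (fun i => (z i : ℝ) / Y) ∈
          closure (Dc b κ δ) \ Dm b κ δ}.ncard : ℝ) := by
    have hsub : {z : Fin (finrank ℚ K) ⊕ Fin (finrank ℚ K) → ℤ | (fun i => (z i : ℝ) / Y) ∈ Dc b κ δ \ Dm b κ δ} ⊆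
      {z : Fin (finrank ℚ K) ⊕ Fin (finrank ℚ K) → ℤ | (fun i => (z i : ZMod 1)) ∈ Set.univ ∧
        (fun i => (z i : ℝ) / Y) ∈ closure (Dc b κ δ) \ Dm b κ δ} :=
      fun z hz => ⟨trivial, subset_closure hz.1, hz.2⟩
    have hfin : {z : Fin (finrank ℚ K) ⊕ Fin (finrank ℚ K) → ℤ | (fun i => (z i : ZMod 1)) ∈ Set.univ ∧
        (fun i => (z i : ℝ) / Y) ∈ closure (Dc b κ δ) \ Dm b κ δ}.Finite := by
      obtain ⟨R, hR⟩ := (Metric.isBounded_iff_subset_closedBall 0).1 hbdd.closure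
      have hfin2 : {z : Fin (finrank ℚ K) ⊕ Fin (finrank ℚ K) → ℤ | z ∈ Set.pi Set.univ
          fun _ => Set.Icc (-⌈R * Y⌉) ⌈R * Y⌉}.Finite :=
        Set.Finite.pi fun _ => Set.finite_Icc _ _
      refine hfin2.subset ?_
      rintro z ⟨-, hz, -⟩
      have h1 := hR hz
      rw [mem_closedBall_zero_iff] at h1
      simp only [Set.mem_ofPred_eq, Set.mem_pi, Set.mem_univ, true_implies, Set.mem_Icc]
      intro i
      have h2 := (norm_le_pi_norm (fun i => (z i : ℝ) / Y) i).trans h1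
      rw [Real.norm_eq_abs, abs_div, abs_of_pos hYpos, div_le_iff₀ hYpos, abs_le] at h2
      constructor
      · have : (-(⌈R * Y⌉ : ℤ) : ℝ) ≤ z i := by
          have := Int.le_ceil (R * Y)
          linarith [h2.1]
        exact_mod_cast this
      · have : (z i : ℝ) ≤ (⌈R * Y⌉ : ℤ) := h2.2.trans (Int.le_ceil _)
        exact_mod_cast this
    exact_mod_cast Set.ncard_le_ncard hsub hfin
  have h1 := hN1 Y (by omega)
  have h2 := hN2 Y (by omega)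
  rw [Real.dist_eq, hcard] at h1 h2
  rw [sub_zero, abs_of_nonneg (by positivity), div_lt_iff₀ hYn] at h2
  rw [hE] at hrbc
  set E := ({z : Fin (finrank ℚ K) ⊕ Fin (finrank ℚ K) → ℤ | (fun i => (z i : ZMod (∏ p ∈ S, p))) ∈ U ∧
    (fun i => (z i : ℝ) / Y) ∈ Dm b κ δ}.ncard : ℝ) with hEdef
  set L := volume.real (Dm b κ δ) * ∏ p ∈ S, dn (T p) with hL
  have h3 : |E - L * (Y : ℝ) ^ (2 * finrank ℚ K)| ≤ ε / 4 * (Y : ℝ) ^ (2 * finrank ℚ K) := by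
    have e : E - L * (Y : ℝ) ^ (2 * finrank ℚ K) = (E / (Y : ℝ) ^ (2 * finrank ℚ K) - L) * (Y : ℝ) ^ (2 * finrank ℚ K) := by
      field_simp
    rw [e, abs_mul, abs_of_pos hYn]
    gcongr
  have hC3 : C₃ / Y ≤ ε / 4 := by
    rw [div_le_iff₀ hYpos]
    rw [div_lt_iff₀ (by positivity)] at hN3
    have : (N3 : ℝ) ≤ Y := by exact_mod_cast (by omega : N3 ≤ Y)
    nlinarith
  have h4 : |(A.ncard : ℝ) - L / 2 * (Y : ℝ) ^ (2 * finrank ℚ K)| ≤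
      (2 * C₁ * δ ^ 2 + C₂ δ / P + ε) * (Y : ℝ) ^ (2 * finrank ℚ K) := by
    rw [abs_le] at h3 hrbc ⊢
    have hF' : (F.ncard : ℝ) ≤ (C₁ * δ ^ 2 + C₂ δ / P + ε / 4) * (Y : ℝ) ^ (2 * finrank ℚ K) :=
      hFle.trans (by gcongr)
    have hYδ : 0 ≤ C₁ * δ ^ 2 * (Y : ℝ) ^ (2 * finrank ℚ K) := by positivity
    have hYP : 0 ≤ C₂ δ / P * (Y : ℝ) ^ (2 * finrank ℚ K) := by
      have := (hC₂ δ hδ).le; positivity
    have hYε : 0 ≤ ε * (Y : ℝ) ^ (2 * finrank ℚ K) := by positivity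
    constructor
    · nlinarith [h3.1, hrbc.1]
    · nlinarith [h3.2, hrbc.2]
  have e5 : (A.ncard : ℝ) / (Y : ℝ) ^ (2 * finrank ℚ K) - L / 2 =
      ((A.ncard : ℝ) - L / 2 * (Y : ℝ) ^ (2 * finrank ℚ K)) / (Y : ℝ) ^ (2 * finrank ℚ K) := by field_simp
  rw [e5, abs_div, abs_of_pos hYn, div_le_iff₀ hYn]
  exact h4

/-- the asymptotic formula for one ideal class -/
theorem class_lim0 (hT1 : S_T1 K) (hCR : S_CR K) (hCF : S_CF K) (hRF1 : S_RF1 K)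
    (hRF2 : S_RF2 K) (hMID : S_MID K) (hLR : S_LR K) (hCRT : S_CRT) (hLPC : S_LPC)
    (hPROD : S_PROD) (hMONO : S_MONO) (hRBC : S_RBC K) (hOPB : S_OPB K) (hNUL : S_NUL K)
    (hVOL : S_VOL K) (hodd : Odd (finrank ℚ K)) (hn : 5 ≤ finrank ℚ K) (I : (FI K)ˣ) :
    ∃ (b : Basis (Fin (finrank ℚ K)) ℚ K) (κ : Fin (Units.rank K) → ℝ)
      (T : ∀ p : ℕ, Set (Fin (finrank ℚ K) ⊕ Fin (finrank ℚ K) → ZMod p)) (c : ℝ),
      (∀ x : K, x ∈ (I : FI K) ↔ ∃ z : Fin (finrank ℚ K) → ℤ, x = el b z) ∧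
      (∀ δ : ℝ, 0 < δ → volume (closure (Dc b κ δ) \ Dm b κ δ) = 0) ∧
      (∀ p : ℕ, p.Prime → ∀ z : Fin (finrank ℚ K) ⊕ Fin (finrank ℚ K) → ℤ, Ind (pr b z) →
        (Loc p I (Lt (pr b z)) ↔ (fun i => (z i : ZMod p)) ∈ T p)) ∧ 0 ≤ c ∧
      Tendsto (fun t : ℝ => ({M ∈ SL κ (I : FI K) t | ∀ p : ℕ, p.Prime → Loc p I M}.ncard : ℝ) / t)
        atTop (𝓝 c) ∧
      ((∃ P : K × K, Ind P ∧ ct P ≤ I ∧ ∀ p : ℕ, p.Prime → Loc p I (Lt P)) → 0 < c) := by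
  obtain ⟨b, hb⟩ := exists_basis I
  obtain ⟨κ, hκ⟩ := hNUL hodd (by omega) b
  obtain ⟨C, T, hC, hT, hTc⟩ := exists_res hLR hCRT hodd hn I b hb
  obtain ⟨C₁, C₂, hC₁, hC₂, h⟩ := main_approx hT1 hCR hCF hRF1 hRF2 hMID hCRT hLPC hRBC hOPB
    hodd hn I b hb κ hκ T hT
  obtain ⟨c, hc0, hc, hcL⟩ := lim_of_approx (fun Y : ℕ =>
    ({M ∈ SL κ (I : FI K) ((Y : ℝ) ^ (2 * finrank ℚ K)) |
      ∀ p : ℕ, p.Prime → Loc p I M}.ncard : ℝ) / (Y : ℝ) ^ (2 * finrank ℚ K))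
    (fun Y => by positivity)
    (fun δ P => volume.real (Dm b κ δ) *
      (∏ p ∈ (Finset.range (P + 1)).filter Nat.Prime, dn (T p)) / 2)
    C₁ hC₁ C₂ hC₂ h
  refine ⟨b, κ, T, c, hb, hκ, hT, hc0, ?_, ?_⟩
  · refine hMONO (fun t => ({M ∈ SL κ (I : FI K) t | ∀ p : ℕ, p.Prime → Loc p I M}.ncard : ℝ))
      ?_ (2 * finrank ℚ K) (by omega) c hc
    intro s t hst
    have : {M ∈ SL κ (I : FI K) s | ∀ p : ℕ, p.Prime → Loc p I M} ⊆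
        {M ∈ SL κ (I : FI K) t | ∀ p : ℕ, p.Prime → Loc p I M} :=
      fun M hM => ⟨SL_mono κ _ hst hM.1, hM.2⟩
    exact Nat.cast_le.2 (Set.ncard_le_ncard this
      ((SL_finite hodd (by omega) hCR κ I t).subset fun M hM => hM.1))
  · rintro ⟨P0, hP0, hP0I, hloc⟩
    -- all densities are positive
    have hexz : ∃ z : Fin (finrank ℚ K) ⊕ Fin (finrank ℚ K) → ℤ, P0 = pr b z := by
      obtain ⟨z1, hz1⟩ := (hb P0.1).1 (ct_le.1 hP0I).1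
      obtain ⟨z2, hz2⟩ := (hb P0.2).1 (ct_le.1 hP0I).2
      exact ⟨Sum.elim z1 z2, Prod.ext hz1 hz2⟩
    obtain ⟨z, rfl⟩ := hexz
    have hcard : Fintype.card (Fin (finrank ℚ K) ⊕ Fin (finrank ℚ K)) = 2 * finrank ℚ K := by
      simp; ring
    obtain ⟨d, hd, hprod⟩ := hPROD C (fun p => dn (T p)) (by
      intro p hp
      have hp0 : (0 : ℝ) < p := by exact_mod_cast hp.pos
      have : Fact p.Prime := ⟨hp⟩
      have hne : (T p).Nonempty := ⟨_, (hT p hp z hP0).1 (hloc p hp)⟩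
      have h1 : 0 < (T p).ncard := (Set.ncard_pos (Set.toFinite _)).2 hne
      have h2 := dn_compl hp (T p)
      refine ⟨?_, ?_, ?_⟩
      · unfold dn; positivity
      · have : 0 ≤ 1 - dn (T p) := by rw [h2]; positivity
        linarith
      · rw [h2, hcard, div_le_div_iff₀ (by positivity) (by positivity)]
        have h3 := hTc p hp
        have e : (p : ℝ) ^ (2 * finrank ℚ K) = (p : ℝ) ^ (2 * finrank ℚ K - 2) * (p : ℝ) ^ 2 := by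
          rw [← pow_add]; congr 1; omega
        rw [e, ← mul_assoc]
        gcongr)
    obtain ⟨δ₀, hδ₀, hvol⟩ := hVOL hodd (by omega) I b hb κ hκ
    have hfinvol : ∀ δ : ℝ, 0 < δ → volume (Dm b κ δ) ≠ ⊤ := fun δ hδ =>
      ((hOPB hodd (by omega) b κ δ hδ).2.subset (Dm_subset b κ δ)).measure_lt_top.ne
    set V := volume.real (Dm b κ δ₀) with hV
    have hVpos : 0 < V := by
      rw [hV, measureReal_def]
      exact ENNReal.toReal_pos hvol.ne' (hfinvol δ₀ hδ₀)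
    by_contra hcon
    have hc00 : c = 0 := le_antisymm (not_lt.1 hcon) hc0
    -- choose δ small and then P large
    set δ := min δ₀ (Real.sqrt (V * d / (8 * C₁))) with hδ
    have hδpos : 0 < δ := by
      refine lt_min hδ₀ (Real.sqrt_pos.2 (by positivity))
    have hδ2 : C₁ * δ ^ 2 ≤ V * d / 8 := by
      have h1 : δ ^ 2 ≤ (Real.sqrt (V * d / (8 * C₁))) ^ 2 :=
        pow_le_pow_left₀ hδpos.le (min_le_right _ _) 2
      rw [Real.sq_sqrt (by positivity)] at h1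
      calc C₁ * δ ^ 2 ≤ C₁ * (V * d / (8 * C₁)) := by gcongr
        _ = V * d / 8 := by field_simp
    obtain ⟨P, hP⟩ := exists_nat_gt (C₂ δ / (V * d / 8))
    have hP' : C₂ δ / ((P + 1 : ℕ) : ℝ) ≤ V * d / 8 := by
      have h3 := hC₂ δ hδpos
      rw [div_le_iff₀ (by positivity)]
      rw [div_lt_iff₀ (by positivity)] at hP
      push_cast
      nlinarith [mul_pos hVpos hd]
    have hfinal := hcL δ hδpos (P + 1) (by omega)
    rw [hc00, zero_sub, abs_neg] at hfinal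
    have hVδ : V ≤ volume.real (Dm b κ δ) :=
      measureReal_mono (Dm_anti b κ hδpos (min_le_left _ _)) (hfinvol δ hδpos)
    have hd' := hprod ((Finset.range (P + 1 + 1)).filter Nat.Prime)
      (fun p hp => (Finset.mem_filter.1 hp).2)
    have hLge : V * d / 2 ≤ volume.real (Dm b κ δ) *
        (∏ p ∈ (Finset.range (P + 1 + 1)).filter Nat.Prime, dn (T p)) / 2 := by
      gcongr
    have hge := (le_abs_self _).trans hfinal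
    have : V * d / 2 ≤ V * d / 8 + V * d / 8 := by linarith
    nlinarith [mul_pos hVpos hd]

/-- the asymptotic formula for one ideal class -/
theorem class_lim (hT1 : S_T1 K) (hCR : S_CR K) (hCF : S_CF K) (hRF1 : S_RF1 K)
    (hRF2 : S_RF2 K) (hMID : S_MID K) (hLR : S_LR K) (hCRT : S_CRT) (hLPC : S_LPC)
    (hPROD : S_PROD) (hMONO : S_MONO) (hRBC : S_RBC K) (hOPB : S_OPB K) (hNUL : S_NUL K)
    (hVOL : S_VOL K) (hodd : Odd (finrank ℚ K)) (hn : 5 ≤ finrank ℚ K) (I : (FI K)ˣ) :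
    ∃ (κ : Fin (Units.rank K) → ℝ) (c : ℝ), 0 ≤ c ∧
      Tendsto (fun t : ℝ => ({M ∈ SL κ (I : FI K) t | ∀ p : ℕ, p.Prime → Loc p I M}.ncard : ℝ) / t)
        atTop (𝓝 c) ∧
      ((∃ P : K × K, Ind P ∧ ct P ≤ I ∧ ∀ p : ℕ, p.Prime → Loc p I (Lt P)) → 0 < c) := by
  obtain ⟨b, κ, T, c, -, -, -, h1, h2, h3⟩ := class_lim0 hT1 hCR hCF hRF1 hRF2 hMID hLR hCRT
    hLPC hPROD hMONO hRBC hOPB hNUL hVOL hodd hn I
  exact ⟨κ, c, h1, h2, h3⟩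

/-- the final theorem from the jobs -/
theorem final_of (hT1 : S_T1 K) (hCR : S_CR K) (hCF : S_CF K) (hRF1 : S_RF1 K)
    (hRF2 : S_RF2 K) (hMID : S_MID K) (hLR : S_LR K) (hCRT : S_CRT) (hLPC : S_LPC)
    (hPROD : S_PROD) (hMONO : S_MONO) (hRBC : S_RBC K) (hOPB : S_OPB K) (hNUL : S_NUL K)
    (hVOL : S_VOL K) (hCLS : S_CLS K) (hGEN : S_GEN K) (hLOC : S_LOC K) (hDESC : S_DESC K)
    (hBIJ : S_BIJ K) (hodd : Odd (finrank ℚ K)) (hn : 5 ≤ finrank ℚ K) :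
    ∃ c : ℝ, 0 < c ∧ Tendsto (fun B : ℝ => ({C : Set K | ∃ θ : K,
      IntermediateField.adjoin ℚ {θ} = ⊤ ∧ C = {θ' | Rel K θ θ'} ∧ ht K θ ≤ B}.ncard : ℝ) / B)
      atTop (𝓝 c) := by
  obtain ⟨R, hR1, hR2⟩ := hCLS
  have hcl := fun I : (FI K)ˣ => class_lim hT1 hCR hCF hRF1 hRF2 hMID hLR hCRT hLPC hPROD hMONO
    hRBC hOPB hNUL hVOL hodd hn I
  choose κ c hc0 hclim hcpos using hcl
  have hNpos : ∀ I : (FI K)ˣ, 0 < ((nm (I : FI K) : ℚ) : ℝ) ^ 2 := fun I => by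
    have := nm_pos (Units.ne_zero I)
    positivity
  -- one class is positive
  obtain ⟨r₀, hr₀, hpos⟩ : ∃ r ∈ R, 0 < c r := by
    obtain ⟨θ, hθ⟩ := Field.exists_primitive_element ℚ K
    obtain ⟨Q, hQ, ⟨a, b', c', d, hdet, hQe⟩, -⟩ := hDESC hodd (by omega) _ ((hGEN θ).1 hθ)
    have hQnd : Nd Q := by
      rw [hQe]
      exact ((hGEN θ).1 hθ).gl hdet
    have hQi := hQnd.ind (by omega)
    obtain ⟨r, hr, x, hx, hxe⟩ := hR1 (Units.mk0 (ct Q) (ct_ne hQi.fst))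
    rw [Units.val_mk0] at hxe
    refine ⟨r, hr, hcpos r ⟨x⁻¹ • Q, (hQnd.smul (inv_ne_zero hx)).ind (by omega), ?_, ?_⟩⟩
    · rw [ct_smul, hxe, ← mul_assoc, ← sp_mul, inv_mul_cancel₀ hx]
      simp
    · have h1 : ct (x⁻¹ • Q) = (r : FI K) := by
        rw [ct_smul, hxe, ← mul_assoc, ← sp_mul, inv_mul_cancel₀ hx]
        simp
      exact (hLOC hodd r (x⁻¹ • Q) ((hQnd.smul (inv_ne_zero hx)).ind (by omega)) h1.le).2
        ⟨h1, hQ.smul (inv_ne_zero hx)⟩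
  refine ⟨∑ r ∈ R, ((nm (r : FI K) : ℚ) : ℝ) ^ 2 * c r, ?_, ?_⟩
  · refine sum_pos' (fun r _ => ?_) ⟨r₀, hr₀, ?_⟩
    · have := hNpos r; have := hc0 r; positivity
    · have := hNpos r₀; positivity
  · have hsum : Tendsto (fun B : ℝ => ∑ r ∈ R, ((nm (r : FI K) : ℚ) : ℝ) ^ 2 *
        (({M ∈ SL (κ r) (r : FI K) (B * ((nm (r : FI K) : ℚ) : ℝ) ^ 2) |
          ∀ p : ℕ, p.Prime → Loc p r M}.ncard : ℝ) / (B * ((nm (r : FI K) : ℚ) : ℝ) ^ 2)))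
        atTop (𝓝 (∑ r ∈ R, ((nm (r : FI K) : ℚ) : ℝ) ^ 2 * c r)) := by
      refine tendsto_finsetSum _ fun r _ => Tendsto.const_mul _ ?_
      exact (hclim r).comp (tendsto_id.atTop_mul_const (hNpos r))
    refine hsum.congr' ?_
    filter_upwards [eventually_gt_atTop 0] with B hB
    rw [hBIJ hodd (by omega) R hR1 hR2 κ B hB]
    push_cast
    rw [Finset.sum_div]
    refine sum_congr rfl fun r _ => ?_
    have := (hNpos r).ne'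
    field_simp

end

end Pool.Agent.Y714.KF
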