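import Pool.Agent.Y714.KF.Stm

set_option autoImplicit false
set_option linter.unusedSectionVars false

/-! The statements of the second part of project KF: all adelic heights. -/

namespace Pool.Agent.Y714.KF

open NumberField FractionalIdeal Module Finset ComplexConjugate MeasureTheory Filter Topology
open scoped nonZeroDivisors

section

/-- ELM: counting lattice points with a weight which is almost constant on residue classes -/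
def S_ELM : Prop := ∀ (ι : Type) [Fintype ι] (D : Set (ι → ℝ)) (Ψ : (ι → ℝ) → ℝ) (m M s : ℝ),
  Bornology.IsBounded D → IsOpen D → volume (frontier D) = 0 → ContinuousOn Ψ D →
  (∀ u ∈ D, 0 < Ψ u) → (∀ c : ℝ, 0 < c → volume {u ∈ D | Ψ u = c} = 0) → 0 < m → 0 < s →
  ∀ η : ℝ, 0 < η → ∃ ε : ℝ, 0 < ε ∧ ∀ (q : ℕ), 0 < q → ∀ (U : Set (ι → ZMod q))
    (G : (ι → ℤ) → Prop) (f : (ι → ℤ) → ℝ),
    (∀ (Y : ℕ) (z : ι → ℤ), 1 ≤ Y → (fun i => (z i : ZMod q)) ∈ U →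
      (fun i => (z i : ℝ) / Y) ∈ D → G z) →
    (∀ z, G z → (fun i => (z i : ZMod q)) ∈ U → m ≤ f z ∧ f z ≤ M) →
    (∀ z z', G z → G z' → (fun i => (z i : ZMod q)) ∈ U →
      (∀ i, (z i : ZMod q) = (z' i : ZMod q)) → |f z - f z'| ≤ ε) →
    ∃ L : ℝ, ∀ᶠ Y : ℕ in atTop,
      |({z : ι → ℤ | (fun i => (z i : ZMod q)) ∈ U ∧ (fun i => (z i : ℝ) / Y) ∈ D ∧
        Ψ (fun i => (z i : ℝ) / Y) * f z ≤ s}.ncard : ℝ) / (Y : ℝ) ^ Fintype.card ι - L| ≤ η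

variable (K : Type) [Field K] [NumberField K]

/-- HT: the height of a reduced pair; invariance of the height -/
def S_HT : Prop := Odd (finrank ℚ K) → 3 ≤ finrank ℚ K →
  (∀ P : K × K, Nd P → Red P → ht K (P.2 / P.1) = hp K P) ∧
  (∀ θ θ' : K, IntermediateField.adjoin ℚ {θ} = ⊤ → Rel K θ θ' →
    IntermediateField.adjoin ℚ {θ'} = ⊤ ∧ ht K θ' = ht K θ)

/-- BIJ2: points and normalised reduced lattices, with an additional condition -/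
def S_BIJ2 : Prop := Odd (finrank ℚ K) → 3 ≤ finrank ℚ K → ∀ R : Finset (FI K)ˣ,
  (∀ I : (FI K)ˣ, ∃ r ∈ R, ∃ x : K, x ≠ 0 ∧ (I : FI K) = sp x * (r : FI K)) →
  (∀ r ∈ R, ∀ r' ∈ R, ∀ x : K, x ≠ 0 → (r : FI K) = sp x * (r' : FI K) → r = r') →
  ∀ (κ : (FI K)ˣ → Fin (Units.rank K) → ℝ) (B : ℝ), 0 < B → ∀ Q : K → Prop,
  (∀ θ θ' : K, IntermediateField.adjoin ℚ {θ} = ⊤ → Rel K θ θ' → (Q θ ↔ Q θ')) →
    {C : Set K | ∃ θ : K, IntermediateField.adjoin ℚ {θ} = ⊤ ∧ C = {θ' | Rel K θ θ'} ∧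
      ht K θ ≤ B ∧ Q θ}.ncard =
    ∑ r ∈ R, {M ∈ SL (κ r) (r : FI K) (B * ((nm (r : FI K) : ℚ) : ℝ) ^ 2) |
      (∀ p : ℕ, p.Prime → Loc p r M) ∧ ∃ P : K × K, M = Lt P ∧ Q (P.2 / P.1)}.ncard

/-- local factor at a prime number: a positive function of the points of `V(ℚ)` with a uniformly
continuous extension to `V(ℚ_p)` -/
def PFac (p : ℕ) (φ : K → ℝ) : Prop :=
  (∃ m M : ℝ, 0 < m ∧ ∀ θ : K, IntermediateField.adjoin ℚ {θ} = ⊤ → m ≤ φ θ ∧ φ θ ≤ M) ∧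
  (∀ θ θ' : K, IntermediateField.adjoin ℚ {θ} = ⊤ → Rel K θ θ' → φ θ = φ θ') ∧
  ∀ ε : ℝ, 0 < ε → ∃ k : ℕ, ∀ P P' : K × K, Nd P → Nd P' → RedAt p P →
    P'.1 - P.1 ∈ sp (p : K) ^ k * ct P → P'.2 - P.2 ∈ sp (p : K) ^ k * ct P →
    |φ (P'.2 / P'.1) - φ (P.2 / P.1)| ≤ ε

/-- PAD: values of a local factor at congruent pairs of coordinates -/
def S_PAD : Prop := Odd (finrank ℚ K) → 3 ≤ finrank ℚ K → ∀ (p : ℕ), p.Prime →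
  ∀ φ : K → ℝ, PFac K p φ → ∀ (I : (FI K)ˣ) (b : Basis (Fin (finrank ℚ K)) ℚ K),
  (∀ x : K, x ∈ (I : FI K) ↔ ∃ z : Fin (finrank ℚ K) → ℤ, x = el b z) →
  ∀ ε : ℝ, 0 < ε → ∃ k : ℕ, ∀ z z' : Fin (finrank ℚ K) ⊕ Fin (finrank ℚ K) → ℤ,
    Nd (pr b z) → Nd (pr b z') → Loc p I (Lt (pr b z)) → Loc p I (Lt (pr b z')) →
    (∀ i, ((p : ℤ) ^ k) ∣ z i - z' i) →
    |φ ((pr b z).2 / (pr b z).1) - φ ((pr b z').2 / (pr b z').1)| ≤ ε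

/-- archimedean local factor: a positive continuous function on `V(ℝ)` -/
def RFac (φ : ((K →+* ℂ) → ℂ × ℂ) → ℝ) : Prop :=
  (∃ m M : ℝ, 0 < m ∧ ∀ v, Sym v → 0 < pm v → m ≤ φ v ∧ φ v ≤ M) ∧
  ContinuousOn φ {v | Sym v ∧ 0 < pm v} ∧
  (∀ v, Sym v → 0 < pm v → ∀ s : (K →+* ℂ) → ℂ, (∀ σ, s σ ≠ 0) →
    (∀ σ, s (ComplexEmbedding.conjugate σ) = conj (s σ)) → φ (fun σ => s σ • v σ) = φ v) ∧
  (∀ v, Sym v → 0 < pm v → ∀ a b c d : ℝ, a * d - b * c ≠ 0 →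
    φ (fun σ => gl a b c d (v σ)) = φ v)

/-- LEV: the levels of the twisted size are null sets -/
def S_LEV : Prop := Odd (finrank ℚ K) → 3 ≤ finrank ℚ K →
  ∀ φ : ((K →+* ℂ) → ℂ × ℂ) → ℝ, RFac K φ → ∀ (b : Basis (Fin (finrank ℚ K)) ℚ K),
    ContinuousOn (fun u => pm (rw2 b u) * φ (rw2 b u)) {u | 0 < pm (rw2 b u)} ∧
    ∀ c : ℝ, 0 < c → volume {u : Fin (finrank ℚ K) ⊕ Fin (finrank ℚ K) → ℝ |
      0 < pm (rw2 b u) ∧ pm (rw2 b u) * φ (rw2 b u) = c} = 0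

end

end Pool.Agent.Y714.KF
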