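import Pool.Agent.Y714.KF.Asm
import Pool.Agent.Y714.KF.Stm2

set_option autoImplicit false
set_option linter.unusedSectionVars false
set_option linter.unusedVariables false

/-! The assembly for all adelic heights. -/

namespace Pool.Agent.Y714.KF

open NumberField FractionalIdeal Module Finset ComplexConjugate MeasureTheory Filter Topology
open scoped nonZeroDivisors

section

theorem lim_of_approx2 (g : ℕ → ℝ)
    (h : ∀ η : ℝ, 0 < η → ∃ L : ℝ, ∀ᶠ Y in atTop, |g Y - L| ≤ η) :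
    ∃ c : ℝ, Tendsto g atTop (𝓝 c) := by
  have hcau : CauchySeq g := by
    rw [Metric.cauchySeq_iff']
    intro η hη
    obtain ⟨L, hL⟩ := h (η / 4) (by positivity)
    obtain ⟨N, hN⟩ := eventually_atTop.1 hL
    refine ⟨N, fun Y hY => ?_⟩
    have h1 := hN Y hY
    have h2 := hN N le_rfl
    rw [Real.dist_eq]
    calc |g Y - g N| = |(g Y - L) - (g N - L)| := by congr 1; ring
      _ ≤ |g Y - L| + |g N - L| := abs_sub _ _
      _ < η := by linarith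
  exact cauchySeq_tendsto_of_complete hcau

theorem prod_close (S : Finset ℕ) (M : ℕ → ℝ) (hM : ∀ p, 0 < M p) : ∀ ε : ℝ, 0 < ε →
    ∃ ε' : ℝ, 0 < ε' ∧ ∀ a b : ℕ → ℝ, (∀ p ∈ S, 0 ≤ a p ∧ a p ≤ M p ∧ 0 ≤ b p ∧ b p ≤ M p ∧
      |a p - b p| ≤ ε') → |∏ p ∈ S, a p - ∏ p ∈ S, b p| ≤ ε := by
  classical
  induction S using Finset.induction_on with
  | empty => intro ε hε; exact ⟨1, one_pos, fun a b _ => by simpa using hε.le⟩
  | insert p S hp ih =>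
    intro ε hε
    set Q := ∏ q ∈ S, M q with hQ
    have hQ0 : 0 < Q := prod_pos fun q _ => hM q
    obtain ⟨ε₁, hε₁, h1⟩ := ih (ε / (2 * M p)) (by have := hM p; positivity)
    refine ⟨min ε₁ (ε / (2 * Q)), lt_min hε₁ (by positivity), fun a b hab => ?_⟩
    rw [prod_insert hp, prod_insert hp]
    have h2 := h1 a b fun q hq => by
      obtain ⟨x1, x2, x3, x4, x5⟩ := hab q (mem_insert_of_mem hq)
      exact ⟨x1, x2, x3, x4, x5.trans (min_le_left _ _)⟩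
    obtain ⟨x1, x2, x3, x4, x5⟩ := hab p (mem_insert_self _ _)
    have h3 : |∏ q ∈ S, b q| ≤ Q := by
      rw [Finset.abs_prod, hQ]
      refine Finset.prod_le_prod (fun _ _ => abs_nonneg _) fun q hq => ?_
      obtain ⟨y1, y2, y3, y4, y5⟩ := hab q (mem_insert_of_mem hq)
      rw [abs_of_nonneg y3]; exact y4
    have e : a p * ∏ q ∈ S, a q - b p * ∏ q ∈ S, b q =
        a p * (∏ q ∈ S, a q - ∏ q ∈ S, b q) + (a p - b p) * ∏ q ∈ S, b q := by ring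
    rw [e]
    refine (abs_add_le _ _).trans ?_
    rw [abs_mul, abs_mul, abs_of_nonneg x1]
    have h4 : a p * |∏ q ∈ S, a q - ∏ q ∈ S, b q| ≤ M p * (ε / (2 * M p)) := by
      have := hM p
      gcongr
    have h5 : |a p - b p| * |∏ q ∈ S, b q| ≤ (ε / (2 * Q)) * Q := by
      gcongr
      exact x5.trans (min_le_right _ _)
    have e1 : M p * (ε / (2 * M p)) = ε / 2 := by have := (hM p).ne'; field_simp
    have e2 : (ε / (2 * Q)) * Q = ε / 2 := by field_simp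
    linarith

variable {K : Type} [Field K] [NumberField K]

/-- the total factor at a point -/
noncomputable def Fac (S₀ : Finset ℕ) (ψ : ((K →+* ℂ) → ℂ × ℂ) → ℝ) (φ : ℕ → K → ℝ) (θ : K) : ℝ :=
  ψ (vec ((1 : K), θ)) * ∏ p ∈ S₀, φ p θ

theorem sym_of_vec_pos {P : K × K} (h : Nd P) (hn : 2 ≤ finrank ℚ K) :
    Sym (vec P) ∧ 0 < pm (vec P) := ⟨sym_vec P, h.pm_pos hn⟩

theorem vec_ratio {P : K × K} (h1 : P.1 ≠ 0) :
    vec P = fun σ => σ P.1 • vec ((1 : K), P.2 / P.1) σ := by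
  have : P = P.1 • ((1 : K), P.2 / P.1) := by
    refine Prod.ext ?_ ?_
    · simp
    · simp only [Prod.smul_snd, smul_eq_mul]; field_simp
  conv_lhs => rw [this]
  rw [vec_smul]

theorem Nd.ratio {P : K × K} (h : Nd P) (hn : 2 ≤ finrank ℚ K) : Nd ((1 : K), P.2 / P.1) := by
  have h1 : P.1 ≠ 0 := (h.ind hn).fst
  have := h.smul (inv_ne_zero h1)
  have e : P.1⁻¹ • P = ((1 : K), P.2 / P.1) := by
    refine Prod.ext ?_ ?_
    · simp [h1]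
    · simp [div_eq_inv_mul]
  rwa [e] at this

theorem psi_ratio {ψ : ((K →+* ℂ) → ℂ × ℂ) → ℝ} (hψ : RFac K ψ) {P : K × K} (h : Nd P)
    (hn : 2 ≤ finrank ℚ K) : ψ (vec P) = ψ (vec ((1 : K), P.2 / P.1)) := by
  have h1 : P.1 ≠ 0 := (h.ind hn).fst
  rw [vec_ratio h1]
  refine hψ.2.2.1 _ (sym_vec _) ((h.ratio hn).pm_pos hn) (fun σ => σ P.1)
    (fun σ => (map_ne_zero σ).2 h1) fun σ => by simp [ComplexEmbedding.conjugate]

theorem rel_of_Lt {P Q : K × K} (hP : Nd P) (hQ : Nd Q) (hn : 2 ≤ finrank ℚ K)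
    (h : Lt P = Lt Q) : Rel K (P.2 / P.1) (Q.2 / Q.1) := by
  obtain ⟨m, n, k, l, hdet, rfl⟩ := Lt_eq (hP.ind hn) (hQ.ind hn) h
  have h1 : P.1 ≠ 0 := (hP.ind hn).fst
  have h2 : (glz m n k l P).1 ≠ 0 := (hQ.ind hn).fst
  refine ⟨l, k, n, m, ?_, ?_⟩
  · rcases hdet with h | h
    · have : (m : ℚ) * l - n * k = 1 := by exact_mod_cast congrArg (Int.cast : ℤ → ℚ) h
      intro h0; linarith
    · have : (m : ℚ) * l - n * k = -1 := by exact_mod_cast congrArg (Int.cast : ℤ → ℚ) h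
      intro h0; linarith
  · simp only [glz] at h2 ⊢
    push_cast
    have e1 : (n : K) * (P.2 / P.1) + m = (m * P.1 + n * P.2) / P.1 := by
      field_simp; ring
    rw [e1, div_mul_div_cancel₀ h2]
    field_simp
    ring

theorem psi_Lt {ψ : ((K →+* ℂ) → ℂ × ℂ) → ℝ} (hψ : RFac K ψ) {P Q : K × K} (hP : Nd P)
    (hQ : Nd Q) (hn : 2 ≤ finrank ℚ K) (h : Lt P = Lt Q) : ψ (vec Q) = ψ (vec P) := by
  obtain ⟨m, n, k, l, hdet, rfl⟩ := Lt_eq (hP.ind hn) (hQ.ind hn) h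
  have e : glz m n k l P = (((m : ℚ) : K) * P.1 + ((n : ℚ) : K) * P.2,
      ((k : ℚ) : K) * P.1 + ((l : ℚ) : K) * P.2) := by simp [glz]
  rw [e, vec_gl]
  have := hψ.2.2.2 (vec P) (sym_vec P) (hP.pm_pos hn) (m : ℝ) n k l (by
    rcases hdet with h | h
    · have : (m : ℝ) * l - n * k = 1 := by exact_mod_cast congrArg (Int.cast : ℤ → ℝ) h
      rw [this]; norm_num
    · have : (m : ℝ) * l - n * k = -1 := by exact_mod_cast congrArg (Int.cast : ℤ → ℝ) h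
      rw [this]; norm_num)
  rw [← this]
  congr 1

theorem ind_of_Lt {Q P' : K × K} (hPi : Ind Q) (hP' : Lt Q = Lt P') : Ind P' := by
  intro a c hac
  by_contra hcon
  obtain ⟨m1, n1, e1⟩ := mem_Lt.1 (hP' ▸ fst_mem_Lt Q)
  obtain ⟨m2, n2, e2⟩ := mem_Lt.1 (hP' ▸ snd_mem_Lt Q)
  by_cases hc0 : c = 0
  · have ha0 : a ≠ 0 := fun h => hcon ⟨h, hc0⟩
    rw [hc0] at hac
    have h3 : P'.1 = 0 := by
      have : (a : K) * P'.1 = 0 := by simpa using hac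
      rcases mul_eq_zero.1 this with h | h
      · exact absurd (by exact_mod_cast h) ha0
      · exact h
    rw [h3, mul_zero, zero_add] at e1 e2
    have h4 := hPi n2 (-n1) (by
      rw [← e1, ← e2]; push_cast; ring)
    have h5 : n1 = 0 := by
      have := h4.2
      rw [neg_eq_zero] at this
      exact_mod_cast this
    have h6 : Q.1 = 0 := by rw [← e1, h5]; simp
    exact hPi.fst h6
  · have hcK : (c : K) ≠ 0 := by exact_mod_cast hc0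
    have h3 : P'.2 = ((-(a / c) : ℚ) : K) * P'.1 := by
      push_cast
      field_simp
      linear_combination hac
    have e1' : Q.1 = ((m1 - n1 * (a / c) : ℚ) : K) * P'.1 := by
      rw [← e1, h3]; push_cast; ring
    have e2' : Q.2 = ((m2 - n2 * (a / c) : ℚ) : K) * P'.1 := by
      rw [← e2, h3]; push_cast; ring
    have h4 := hPi (m2 - n2 * (a / c)) (-(m1 - n1 * (a / c))) (by
      rw [e1', e2']; push_cast; ring)
    have h5 : (m1 - n1 * (a / c) : ℚ) = 0 := by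
      have := h4.2
      rwa [neg_eq_zero] at this
    exact hPi.fst (by rw [e1', h5]; simp)

/-- the twisted size of a pair -/
noncomputable def tw (S₀ : Finset ℕ) (ψ : ((K →+* ℂ) → ℂ × ℂ) → ℝ) (φ : ℕ → K → ℝ)
    (P : K × K) : ℝ :=
  pm (vec P) * ψ (vec P) * ∏ p ∈ S₀, φ p (P.2 / P.1)

theorem tw_eq {S₀ : Finset ℕ} {ψ : ((K →+* ℂ) → ℂ × ℂ) → ℝ} {φ : ℕ → K → ℝ} (hψ : RFac K ψ)
    {P : K × K} (h : Nd P) (hn : 2 ≤ finrank ℚ K) :
    tw S₀ ψ φ P = pm (vec P) * Fac S₀ ψ φ (P.2 / P.1) := by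
  unfold tw Fac
  rw [psi_ratio hψ h hn, mul_assoc]

theorem tw_Lt (hgen : S_GEN K) (hodd : Odd (finrank ℚ K)) {S₀ : Finset ℕ}
    {ψ : ((K →+* ℂ) → ℂ × ℂ) → ℝ} {φ : ℕ → K → ℝ} (hψ : RFac K ψ) (hφ : ∀ p ∈ S₀, PFac K p (φ p))
    {P Q : K × K} (hP : Nd P) (hQ : Nd Q) (hn : 2 ≤ finrank ℚ K) (h : Lt P = Lt Q) :
    tw S₀ ψ φ Q = tw S₀ ψ φ P := by
  unfold tw
  rw [(Lt_inv hodd hn hP (hQ.ind hn) h).2.1, psi_Lt hψ hP hQ hn h]
  congr 1
  refine prod_congr rfl fun p hp => ?_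
  exact ((hφ p hp).2.1 _ _ ((hgen _).2 (hP.ratio hn)) (rel_of_Lt hP hQ hn h)).symm

/-- the lattices of bounded twisted size -/
def TL (S₀ : Finset ℕ) (ψ : ((K →+* ℂ) → ℂ × ℂ) → ℝ) (φ : ℕ → K → ℝ) (t : ℝ)
    (M : Submodule ℤ K) : Prop := ∃ P : K × K, M = Lt P ∧ tw S₀ ψ φ P ≤ t

theorem rw2_div {ι : Type} [Fintype ι] [DecidableEq ι] (b : Basis ι ℚ K) (z : ι ⊕ ι → ℤ) {Y : ℕ}
    (hY : 1 ≤ Y) : rw2 b (fun i => (z i : ℝ) / Y) =
      fun σ => ((Y : ℂ)⁻¹) • vec (pr b z) σ := by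
  funext σ
  rw [← rw2_int b z]
  simp only [rw2, rv]
  have e1 : ∀ x : ι → ℤ, sg b σ (fun i => (x i : ℝ) / Y) =
      (Y : ℂ)⁻¹ * sg b σ (fun i => (x i : ℝ)) := by
    intro x
    have := sg_smul b σ ((Y : ℝ)⁻¹) (fun i => (x i : ℝ))
    push_cast at this
    rw [← this]
    congr 1
    funext i
    simp [div_eq_inv_mul]
  exact Prod.ext (e1 _) (e1 _)

theorem psi_div {ι : Type} [Fintype ι] [DecidableEq ι] (b : Basis ι ℚ K) {z : ι ⊕ ι → ℤ} {Y : ℕ}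
    (hY : 1 ≤ Y) {ψ : ((K →+* ℂ) → ℂ × ℂ) → ℝ} (hψ : RFac K ψ) (hz : Nd (pr b z))
    (hn : 2 ≤ finrank ℚ K) :
    pm (rw2 b (fun i => (z i : ℝ) / Y)) * ψ (rw2 b (fun i => (z i : ℝ) / Y)) =
      pm (vec (pr b z)) * ψ (vec (pr b z)) / (Y : ℝ) ^ (2 * finrank ℚ K) := by
  have hY0 : (Y : ℂ) ≠ 0 := by exact_mod_cast (by omega : Y ≠ 0)
  have hYr : (0 : ℝ) < Y := by exact_mod_cast hY
  rw [rw2_div b z hY, pm_smul (fun _ => (Y : ℂ)⁻¹) (vec (pr b z)),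
    hψ.2.2.1 _ (sym_vec _) (hz.pm_pos hn) (fun _ => (Y : ℂ)⁻¹) (fun _ => inv_ne_zero hY0)
      (fun _ => by simp)]
  rw [prod_const, card_univ, card_emb, norm_inv]
  have : ‖(Y : ℂ)‖ = Y := by simp
  rw [this, ← pow_mul, inv_pow]
  field_simp

theorem twist_main (hT1 : S_T1 K) (hCR : S_CR K) (hCF : S_CF K) (hRF1 : S_RF1 K)
    (hRF2 : S_RF2 K) (hMID : S_MID K) (hLPC : S_LPC) (hRBC : S_RBC K)
    (hOPB : S_OPB K) (hGEN : S_GEN K) (hELM : S_ELM) (hPAD : S_PAD K) (hLEV : S_LEV K)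
    (hodd : Odd (finrank ℚ K)) (hn : 5 ≤ finrank ℚ K) (I : (FI K)ˣ)
    (b : Basis (Fin (finrank ℚ K)) ℚ K)
    (hb : ∀ x : K, x ∈ (I : FI K) ↔ ∃ z : Fin (finrank ℚ K) → ℤ, x = el b z)
    (κ : Fin (Units.rank K) → ℝ)
    (hκ : ∀ δ : ℝ, 0 < δ → volume (closure (Dc b κ δ) \ Dm b κ δ) = 0)
    (T : ∀ p : ℕ, Set (Fin (finrank ℚ K) ⊕ Fin (finrank ℚ K) → ZMod p))
    (hT : ∀ p : ℕ, p.Prime → ∀ z : Fin (finrank ℚ K) ⊕ Fin (finrank ℚ K) → ℤ, Ind (pr b z) →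
        (Loc p I (Lt (pr b z)) ↔ (fun i => (z i : ZMod p)) ∈ T p))
    (S₀ : Finset ℕ) (hS₀ : ∀ p ∈ S₀, p.Prime) (ψ : ((K →+* ℂ) → ℂ × ℂ) → ℝ) (hψ : RFac K ψ)
    (φ : ℕ → K → ℝ) (hφ : ∀ p ∈ S₀, PFac K p (φ p)) (m : ℝ) (hm : 0 < m) (η : ℝ) (hη : 0 < η) :
    ∃ L : ℝ, ∀ᶠ Y : ℕ in atTop,
      |({M ∈ SL κ (I : FI K) ((Y : ℝ) ^ (2 * finrank ℚ K)) | (∀ p : ℕ, p.Prime → Loc p I M) ∧
        TL S₀ ψ φ (m * (Y : ℝ) ^ (2 * finrank ℚ K)) M}.ncard : ℝ) /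
          (Y : ℝ) ^ (2 * finrank ℚ K) - L| ≤ η := by
  classical
  obtain ⟨C₁, C₃, C₂, hC₁, hC₃, hC₂, hcusp, hfail⟩ :=
    fail_bound hT1 hCR hCF hRF1 hRF2 hMID hodd hn κ I
  obtain ⟨δ, hδ, hδ2⟩ : ∃ δ : ℝ, 0 < δ ∧ C₁ * δ ^ 2 ≤ η / 16 := by
    refine ⟨Real.sqrt (η / (16 * C₁)), Real.sqrt_pos.2 (by positivity), ?_⟩
    rw [Real.sq_sqrt (by positivity)]
    apply le_of_eq
    field_simp
  obtain ⟨P, hP1, hP⟩ : ∃ P : ℕ, 1 ≤ P ∧ C₂ δ / P ≤ η / 16 := by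
    obtain ⟨P, hP⟩ := exists_nat_gt (C₂ δ / (η / 16))
    refine ⟨P + 1, by omega, ?_⟩
    have h3 := hC₂ δ hδ
    rw [div_le_iff₀ (by positivity)]
    rw [div_lt_iff₀ (by positivity)] at hP
    push_cast
    nlinarith
  set S := (Finset.range (P + 1)).filter Nat.Prime ∪ S₀ with hS
  have hSp : ∀ p ∈ S, p.Prime := fun p hp => by
    rcases Finset.mem_union.1 hp with h | h
    · exact (Finset.mem_filter.1 h).2
    · exact hS₀ p h
  -- the region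
  obtain ⟨hopen, hbdd⟩ := hOPB hodd (by omega) b κ δ hδ
  obtain ⟨hfr, hcl, hfr2⟩ := closure_minus hopen (Dm_subset b κ δ)
  have hpmpos : ∀ u ∈ Dm b κ δ, 0 < pm (rw2 b u) := fun u hu =>
    pm_pos (by rw [card_emb]; omega) hu.2.2.2.2.1
  obtain ⟨hΨc, hΨlev⟩ := hLEV hodd (by omega) ψ hψ b
  -- bounds of the factors
  obtain ⟨⟨mψ, Mψ, hmψ, hbψ⟩, -, -, -⟩ := id hψ
  have hbf : ∃ mf Mf : ℕ → ℝ, (∀ p, 0 < mf p) ∧ (∀ p, 0 < Mf p) ∧ ∀ p ∈ S₀, ∀ θ : K,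
      IntermediateField.adjoin ℚ {θ} = ⊤ → mf p ≤ φ p θ ∧ φ p θ ≤ Mf p := by
    have h1 : ∀ p : ℕ, ∃ m M : ℝ, 0 < m ∧ 0 < M ∧ (p ∈ S₀ → ∀ θ : K,
        IntermediateField.adjoin ℚ {θ} = ⊤ → m ≤ φ p θ ∧ φ p θ ≤ M) := by
      intro p
      by_cases hp : p ∈ S₀
      · obtain ⟨⟨m', M', hm', h'⟩, -⟩ := hφ p hp
        exact ⟨m', max M' 1, hm', by positivity, fun _ θ hθ =>
          ⟨(h' θ hθ).1, (h' θ hθ).2.trans (le_max_left _ _)⟩⟩
      · exact ⟨1, 1, one_pos, one_pos, fun h => absurd h hp⟩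
    choose mf Mf h2 h3 h4 using h1
    exact ⟨mf, Mf, h2, h3, fun p hp => h4 p hp⟩
  obtain ⟨mf, Mf, hmf, hMf, hbf⟩ := hbf
  obtain ⟨ε, hε, helm⟩ := hELM (Fin (finrank ℚ K) ⊕ Fin (finrank ℚ K)) (Dm b κ δ)
    (fun u => pm (rw2 b u) * ψ (rw2 b u)) (∏ p ∈ S₀, mf p) (∏ p ∈ S₀, Mf p) m
    (hbdd.subset (Dm_subset b κ δ)) hopen (measure_mono_null hfr (hκ δ hδ))
    (hΨc.mono fun u hu => hpmpos u hu)
    (fun u hu => mul_pos (hpmpos u hu)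
      (lt_of_lt_of_le hmψ (hbψ (rw2 b u) (sym_rv b _ _) (hpmpos u hu)).1))
    (fun c hc => measure_mono_null (fun u hu => (⟨hpmpos u hu.1, hu.2⟩ :
      0 < pm (rw2 b u) ∧ pm (rw2 b u) * ψ (rw2 b u) = c)) (hΨlev c hc))
    (prod_pos fun p _ => hmf p) hm (η / 4) (by positivity)
  obtain ⟨ε', hε', hclose⟩ := prod_close S₀ Mf hMf ε hε
  have hk : ∃ k : ℕ → ℕ, ∀ p ∈ S₀, ∀ z z' : Fin (finrank ℚ K) ⊕ Fin (finrank ℚ K) → ℤ,
    Nd (pr b z) → Nd (pr b z') → Loc p I (Lt (pr b z)) → Loc p I (Lt (pr b z')) →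
    (∀ i, ((p : ℤ) ^ k p) ∣ z i - z' i) →
    |φ p ((pr b z).2 / (pr b z).1) - φ p ((pr b z').2 / (pr b z').1)| ≤ ε' := by
    have h1 : ∀ p : ℕ, ∃ k : ℕ, p ∈ S₀ → ∀ z z' : Fin (finrank ℚ K) ⊕ Fin (finrank ℚ K) → ℤ,
      Nd (pr b z) → Nd (pr b z') → Loc p I (Lt (pr b z)) → Loc p I (Lt (pr b z')) →
      (∀ i, ((p : ℤ) ^ k) ∣ z i - z' i) →
      |φ p ((pr b z).2 / (pr b z).1) - φ p ((pr b z').2 / (pr b z').1)| ≤ ε' := by
      intro p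
      by_cases hp : p ∈ S₀
      · obtain ⟨k, hk⟩ := hPAD hodd (by omega) p (hS₀ p hp) (φ p) (hφ p hp) I b hb ε' hε'
        exact ⟨k, fun _ => hk⟩
      · exact ⟨0, fun h => absurd h hp⟩
    choose k h2 using h1
    exact ⟨k, fun p hp => h2 p hp⟩
  obtain ⟨kf, hkf⟩ := hk
  set k := ∑ p ∈ S₀, kf p + 1 with hkdef
  set q := (∏ p ∈ S, p) ^ k with hq
  have hq0 : 0 < q := pow_pos (prod_pos fun p hp => (hSp p hp).pos) _
  have hpq : ∀ p ∈ S, p ∣ q := fun p hp =>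
    (Finset.dvd_prod_of_mem _ hp).trans (dvd_pow_self _ (by omega))
  have hpkq : ∀ p ∈ S₀, p ^ kf p ∣ q := fun p hp => by
    refine (pow_dvd_pow_of_dvd (Finset.dvd_prod_of_mem _
      (Finset.mem_union_right _ hp)) (kf p)).trans (pow_dvd_pow _ ?_)
    have := Finset.single_le_sum (f := kf) (fun _ _ => Nat.zero_le _) hp
    omega
  have hcongr : ∀ (z z' : Fin (finrank ℚ K) ⊕ Fin (finrank ℚ K) → ℤ),
      (∀ i, (z i : ZMod q) = (z' i : ZMod q)) → ∀ d : ℕ, d ∣ q → ∀ i, (d : ℤ) ∣ z i - z' i := by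
    intro z z' h d hd i
    have h1 := (ZMod.intCast_eq_intCast_iff_dvd_sub (z i) (z' i) q).1 (h i)
    have h2 : (q : ℤ) ∣ z i - z' i := by rw [← neg_sub]; exact (dvd_neg).2 h1
    exact (Int.natCast_dvd_natCast.2 hd).trans h2
  set U : Set (Fin (finrank ℚ K) ⊕ Fin (finrank ℚ K) → ZMod q) :=
    {t | ∃ z : Fin (finrank ℚ K) ⊕ Fin (finrank ℚ K) → ℤ, (fun i => (z i : ZMod q)) = t ∧
      ∀ p ∈ S, (fun i => (z i : ZMod p)) ∈ T p} with hU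
  have hUiff : ∀ z : Fin (finrank ℚ K) ⊕ Fin (finrank ℚ K) → ℤ,
      (fun i => (z i : ZMod q)) ∈ U ↔ ∀ p ∈ S, (fun i => (z i : ZMod p)) ∈ T p := by
    intro z
    constructor
    · rintro ⟨z', hz', h⟩ p hp
      have h1 := hcongr z z' (fun i => (congrFun hz' i).symm) p (hpq p hp)
      have : (fun i => (z i : ZMod p)) = fun i => (z' i : ZMod p) := by
        funext i
        refine (ZMod.intCast_eq_intCast_iff_dvd_sub (z i) (z' i) p).2 ?_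
        rw [← neg_sub]; exact (dvd_neg).2 (h1 i)
      rw [this]
      exact h p hp
    · exact fun h => ⟨z, rfl, h⟩
  set G : (Fin (finrank ℚ K) ⊕ Fin (finrank ℚ K) → ℤ) → Prop := fun z =>
    Nd (pr b z) ∧ ∀ p ∈ S₀, Loc p I (Lt (pr b z)) with hG
  obtain ⟨L, hL⟩ := helm q hq0 U G (fun z => ∏ p ∈ S₀, φ p ((pr b z).2 / (pr b z).1))
    (fun Y z hY hzU hzD => by
      have hnd := nd_of_region b hY hzD.2.2.2.2.1
      exact ⟨hnd, fun p hp => (hT p (hS₀ p hp) z (hnd.ind (by omega))).2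
        ((hUiff z).1 hzU p (Finset.mem_union_right _ hp))⟩)
    (fun z hz _ => by
      have hg := (hGEN _).2 (hz.1.ratio (by omega))
      refine ⟨Finset.prod_le_prod (fun p _ => (hmf p).le) fun p hp => (hbf p hp _ hg).1,
        Finset.prod_le_prod (fun p hp => (hmf p).le.trans (hbf p hp _ hg).1)
          fun p hp => (hbf p hp _ hg).2⟩)
    (fun z z' hz hz' hzU hzz' => by
      have hg := (hGEN _).2 (hz.1.ratio (by omega))
      have hg' := (hGEN _).2 (hz'.1.ratio (by omega))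
      refine hclose _ _ fun p hp => ⟨(hmf p).le.trans (hbf p hp _ hg).1, (hbf p hp _ hg).2,
        (hmf p).le.trans (hbf p hp _ hg').1, (hbf p hp _ hg').2, ?_⟩
      refine hkf p hp z z' hz.1 hz'.1 (hz.2 p hp) (hz'.2 p hp) fun i => ?_
      have := hcongr z z' hzz' (p ^ kf p) (hpkq p hp) i
      push_cast at this
      exact this)
  have hlim2 := hLPC (Fin (finrank ℚ K) ⊕ Fin (finrank ℚ K)) (closure (Dc b κ δ) \ Dm b κ δ)
    (hbdd.closure.subset Set.sdiff_subset) hcl.measurableSet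
    (measure_mono_null hfr2 (hκ δ hδ)) 1 one_pos Set.univ
  have hz : volume.real (closure (Dc b κ δ) \ Dm b κ δ) = 0 := by
    rw [measureReal_def, hκ δ hδ]; rfl
  rw [hz, zero_mul, zero_div] at hlim2
  have hcard : Fintype.card (Fin (finrank ℚ K) ⊕ Fin (finrank ℚ K)) = 2 * finrank ℚ K := by
    simp; ring
  have hev2 := (Metric.tendsto_atTop.1 hlim2) (η / 8) (by positivity)
  obtain ⟨N2, hN2⟩ := hev2
  obtain ⟨N3, hN3⟩ := exists_nat_gt (C₃ / (η / 16))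
  refine ⟨L / 2, ?_⟩
  filter_upwards [hL, eventually_ge_atTop (N2 + N3 + 1)] with Y hLY hY
  have hY1 : 1 ≤ Y := by omega
  have hYpos : (0 : ℝ) < Y := by exact_mod_cast hY1
  have hYn : (0 : ℝ) < (Y : ℝ) ^ (2 * finrank ℚ K) := by positivity
  set Sl := SL κ (I : FI K) ((Y : ℝ) ^ (2 * finrank ℚ K)) with hSl
  have hSfin : Sl.Finite := SL_finite hodd (by omega) hCR κ I _
  set TT : Submodule ℤ K → Prop := TL S₀ ψ φ (m * (Y : ℝ) ^ (2 * finrank ℚ K)) with hTT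
  set A := {M ∈ Sl | (∀ p : ℕ, p.Prime → Loc p I M) ∧ TT M} with hA
  set A0 := {M ∈ Sl | (∀ p ∈ S, Loc p I M) ∧ TT M} with hA0
  set F := {M ∈ Sl | ∃ p : ℕ, p.Prime ∧ P < p ∧ ¬ Loc p I M} with hF
  set Cu := {M ∈ Sl | ∃ x ∈ M, x ≠ 0 ∧ qf x ≤ (δ * Y) ^ 2} with hCu
  have hAA : A ⊆ A0 := fun M hM => ⟨hM.1, fun p hp => hM.2.1 p (hSp p hp), hM.2.2⟩
  have hA0F : A0 ⊆ A ∪ F := by
    rintro M ⟨hM1, hM2, hM3⟩
    by_cases h : ∀ p : ℕ, p.Prime → Loc p I M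
    · exact Or.inl ⟨hM1, h, hM3⟩
    · push Not at h
      obtain ⟨p, hp, hpl⟩ := h
      refine Or.inr ⟨hM1, p, hp, ?_, hpl⟩
      by_contra hcon
      exact hpl (hM2 p (Finset.mem_union_left _
        (Finset.mem_filter.2 ⟨Finset.mem_range.2 (by omega), hp⟩)))
  have hle1 : (A.ncard : ℝ) ≤ A0.ncard := by
    exact_mod_cast Set.ncard_le_ncard hAA (hSfin.subset fun M hM => hM.1)
  have hle2 : (A0.ncard : ℝ) ≤ A.ncard + F.ncard := by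
    have h1 : A0.ncard ≤ (A ∪ F).ncard := Set.ncard_le_ncard hA0F
      (hSfin.subset (by rintro M (h | h) <;> exact h.1))
    exact_mod_cast h1.trans (Set.ncard_union_le _ _)
  have hFle : (F.ncard : ℝ) ≤ (C₁ * δ ^ 2 + C₂ δ / P + C₃ / Y) * (Y : ℝ) ^ (2 * finrank ℚ K) :=
    hfail δ hδ P hP1 Y hY1
  have hCule : (Cu.ncard : ℝ) ≤ C₁ * δ ^ 2 * (Y : ℝ) ^ (2 * finrank ℚ K) := hcusp δ hδ Y hY1
  have hrbc := hRBC hodd (by omega) I b hb κ δ hδ Y hY1 (fun M => (∀ p ∈ S, Loc p I M) ∧ TT M)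
  have hE : {z : Fin (finrank ℚ K) ⊕ Fin (finrank ℚ K) → ℤ | (fun i => (z i : ℝ) / Y) ∈
      Dm b κ δ ∧ ((∀ p ∈ S, Loc p I (Lt (pr b z))) ∧ TT (Lt (pr b z)))} =
      {z : Fin (finrank ℚ K) ⊕ Fin (finrank ℚ K) → ℤ | (fun i => (z i : ZMod q)) ∈ U ∧
        (fun i => (z i : ℝ) / Y) ∈ Dm b κ δ ∧
        pm (rw2 b (fun i => (z i : ℝ) / Y)) * ψ (rw2 b (fun i => (z i : ℝ) / Y)) *
          ∏ p ∈ S₀, φ p ((pr b z).2 / (pr b z).1) ≤ m} := by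
    ext z
    simp only [Set.mem_ofPred_eq]
    have key : (fun i => (z i : ℝ) / Y) ∈ Dm b κ δ →
        (((∀ p ∈ S, Loc p I (Lt (pr b z))) ∧ TT (Lt (pr b z))) ↔
          ((fun i => (z i : ZMod q)) ∈ U ∧
            pm (rw2 b (fun i => (z i : ℝ) / Y)) * ψ (rw2 b (fun i => (z i : ℝ) / Y)) *
          ∏ p ∈ S₀, φ p ((pr b z).2 / (pr b z).1) ≤ m)) := by
      intro hz
      have hnd : Nd (pr b z) := nd_of_region b hY1 hz.2.2.2.2.1
      rw [hUiff]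
      refine and_congr (forall₂_congr fun p hp => hT p (hSp p hp) z (hnd.ind (by omega))) ?_
      rw [psi_div b hY1 hψ hnd (by omega)]
      have h1 : TT (Lt (pr b z)) ↔ tw S₀ ψ φ (pr b z) ≤ m * (Y : ℝ) ^ (2 * finrank ℚ K) := by
        constructor
        · rintro ⟨P', hP', h2⟩
          have hP'i : Nd P' := by
            have hind : Ind P' := ind_of_Lt (hnd.ind (by omega)) hP'
            exact (Lt_inv hodd (by omega) hnd hind hP').1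
          rw [← tw_Lt hGEN hodd hψ hφ hnd hP'i (by omega) hP']
          exact h2
        · exact fun h => ⟨_, rfl, h⟩
      rw [h1]
      unfold tw
      rw [div_mul_eq_mul_div, div_le_iff₀ hYn]
    constructor
    · rintro ⟨h1, h2⟩
      exact ⟨((key h1).1 h2).1, h1, ((key h1).1 h2).2⟩
    · rintro ⟨h1, h2, h3⟩
      exact ⟨h2, (key h2).2 ⟨h1, h3⟩⟩
  have hBd : ({z : Fin (finrank ℚ K) ⊕ Fin (finrank ℚ K) → ℤ | (fun i => (z i : ℝ) / Y) ∈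
      Dc b κ δ \ Dm b κ δ}.ncard : ℝ) ≤ ({z : Fin (finrank ℚ K) ⊕ Fin (finrank ℚ K) → ℤ |
        (fun i => (z i : ZMod 1)) ∈ Set.univ ∧ (fun i => (z i : ℝ) / Y) ∈
          closure (Dc b κ δ) \ Dm b κ δ}.ncard : ℝ) := by
    have hsub : {z : Fin (finrank ℚ K) ⊕ Fin (finrank ℚ K) → ℤ |
      (fun i => (z i : ℝ) / Y) ∈ Dc b κ δ \ Dm b κ δ} ⊆
      {z : Fin (finrank ℚ K) ⊕ Fin (finrank ℚ K) → ℤ | (fun i => (z i : ZMod 1)) ∈ Set.univ ∧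
        (fun i => (z i : ℝ) / Y) ∈ closure (Dc b κ δ) \ Dm b κ δ} :=
      fun z hz => ⟨trivial, subset_closure hz.1, hz.2⟩
    have hfin : {z : Fin (finrank ℚ K) ⊕ Fin (finrank ℚ K) → ℤ |
        (fun i => (z i : ZMod 1)) ∈ Set.univ ∧
        (fun i => (z i : ℝ) / Y) ∈ closure (Dc b κ δ) \ Dm b κ δ}.Finite := by
      obtain ⟨R, hR⟩ := (Metric.isBounded_iff_subset_closedBall 0).1 hbdd.closure
      have hfin2 : {z : Fin (finrank ℚ K) ⊕ Fin (finrank ℚ K) → ℤ | z ∈ Set.pi Set.univ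
          fun _ => Set.Icc (-⌈R * Y⌉) ⌈R * Y⌉}.Finite :=
        Set.Finite.pi fun _ => Set.finite_Icc _ _
      refine hfin2.subset ?_
      rintro z ⟨-, hz, -⟩
      have h1 := hR hz
      rw [mem_closedBall_zero_iff] at h1
      simp only [Set.mem_ofPred_eq, Set.mem_pi, Set.mem_univ, true_implies, Set.mem_Icc]
      intro i
      have h2 := (norm_le_pi_norm (fun i => (z i : ℝ) / Y) i).trans h1
      rw [Real.norm_eq_abs, abs_div, abs_of_pos hYpos, div_le_iff₀ hYpos, abs_le] at h2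
      constructor
      · have : (-(⌈R * Y⌉ : ℤ) : ℝ) ≤ z i := by
          have := Int.le_ceil (R * Y)
          linarith [h2.1]
        exact_mod_cast this
      · have : (z i : ℝ) ≤ (⌈R * Y⌉ : ℤ) := h2.2.trans (Int.le_ceil _)
        exact_mod_cast this
    exact_mod_cast Set.ncard_le_ncard hsub hfin
  have h2 := hN2 Y (by omega)
  rw [Real.dist_eq, hcard] at h2
  rw [hcard] at hLY
  rw [sub_zero, abs_of_nonneg (by positivity), div_lt_iff₀ hYn] at h2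
  rw [hE] at hrbc
  set E := ({z : Fin (finrank ℚ K) ⊕ Fin (finrank ℚ K) → ℤ | (fun i => (z i : ZMod q)) ∈ U ∧
        (fun i => (z i : ℝ) / Y) ∈ Dm b κ δ ∧
        pm (rw2 b (fun i => (z i : ℝ) / Y)) * ψ (rw2 b (fun i => (z i : ℝ) / Y)) *
          ∏ p ∈ S₀, φ p ((pr b z).2 / (pr b z).1) ≤ m}.ncard : ℝ) with hEdef
  have h3 : |E - L * (Y : ℝ) ^ (2 * finrank ℚ K)| ≤ η / 4 * (Y : ℝ) ^ (2 * finrank ℚ K) := by
    have e : E - L * (Y : ℝ) ^ (2 * finrank ℚ K) =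
        (E / (Y : ℝ) ^ (2 * finrank ℚ K) - L) * (Y : ℝ) ^ (2 * finrank ℚ K) := by
      field_simp
    rw [e, abs_mul, abs_of_pos hYn]
    gcongr
  have hC3 : C₃ / Y ≤ η / 16 := by
    rw [div_le_iff₀ hYpos]
    rw [div_lt_iff₀ (by positivity)] at hN3
    have : (N3 : ℝ) ≤ Y := by exact_mod_cast (by omega : N3 ≤ Y)
    nlinarith
  have h4 : |(A.ncard : ℝ) - L / 2 * (Y : ℝ) ^ (2 * finrank ℚ K)| ≤
      η * (Y : ℝ) ^ (2 * finrank ℚ K) := by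
    rw [abs_le] at h3 hrbc ⊢
    have hF' : (F.ncard : ℝ) ≤ (η / 16 + η / 16 + η / 16) * (Y : ℝ) ^ (2 * finrank ℚ K) :=
      hFle.trans (by gcongr)
    have hCu' : (Cu.ncard : ℝ) ≤ η / 16 * (Y : ℝ) ^ (2 * finrank ℚ K) :=
      hCule.trans (by gcongr)
    have hYη : 0 ≤ η * (Y : ℝ) ^ (2 * finrank ℚ K) := by positivity
    obtain ⟨h31, h32⟩ := h3
    obtain ⟨hr1, hr2⟩ := hrbc
    constructor
    · linarith
    · linarith
  have e5 : (A.ncard : ℝ) / (Y : ℝ) ^ (2 * finrank ℚ K) - L / 2 =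
      ((A.ncard : ℝ) - L / 2 * (Y : ℝ) ^ (2 * finrank ℚ K)) / (Y : ℝ) ^ (2 * finrank ℚ K) := by
    field_simp
  rw [e5, abs_div, abs_of_pos hYn, div_le_iff₀ hYn]
  exact h4

theorem TL_iff (hGEN : S_GEN K) (hodd : Odd (finrank ℚ K)) (hn : 2 ≤ finrank ℚ K) {S₀ : Finset ℕ}
    {ψ : ((K →+* ℂ) → ℂ × ℂ) → ℝ} {φ : ℕ → K → ℝ} (hψ : RFac K ψ) (hφ : ∀ p ∈ S₀, PFac K p (φ p))
    {P : K × K} (hP : Nd P) (t : ℝ) : TL S₀ ψ φ t (Lt P) ↔ tw S₀ ψ φ P ≤ t := by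
  constructor
  · rintro ⟨P', hP', h2⟩
    have hind : Ind P' := ind_of_Lt (hP.ind hn) hP'
    have hP'n := (Lt_inv hodd hn hP hind hP').1
    rw [← tw_Lt hGEN hodd hψ hφ hP hP'n hn hP']
    exact h2
  · exact fun h => ⟨_, rfl, h⟩

theorem fac_bounds {S₀ : Finset ℕ} {ψ : ((K →+* ℂ) → ℂ × ℂ) → ℝ} {φ : ℕ → K → ℝ}
    (hGEN : S_GEN K) (hn : 2 ≤ finrank ℚ K) (hψ : RFac K ψ) (hφ : ∀ p ∈ S₀, PFac K p (φ p)) :
    ∃ m M : ℝ, 0 < m ∧ ∀ θ : K, IntermediateField.adjoin ℚ {θ} = ⊤ →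
      m ≤ Fac S₀ ψ φ θ ∧ Fac S₀ ψ φ θ ≤ M := by
  classical
  obtain ⟨⟨mψ, Mψ, hmψ, hbψ⟩, -, -, -⟩ := id hψ
  have h1 : ∀ p : ℕ, ∃ m M : ℝ, 0 < m ∧ (p ∈ S₀ → ∀ θ : K,
      IntermediateField.adjoin ℚ {θ} = ⊤ → m ≤ φ p θ ∧ φ p θ ≤ M) := by
    intro p
    by_cases hp : p ∈ S₀
    · obtain ⟨⟨m', M', hm', h'⟩, -⟩ := hφ p hp
      exact ⟨m', M', hm', fun _ => h'⟩
    · exact ⟨1, 1, one_pos, fun h => absurd h hp⟩
  choose mf Mf hmf hbf using h1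
  refine ⟨mψ * ∏ p ∈ S₀, mf p, Mψ * ∏ p ∈ S₀, Mf p, mul_pos hmψ (prod_pos fun p _ => hmf p),
    fun θ hθ => ?_⟩
  have hnd := (hGEN θ).1 hθ
  have h2 := hbψ (vec ((1 : K), θ)) (sym_vec _) (hnd.pm_pos hn)
  have h3 : ∏ p ∈ S₀, mf p ≤ ∏ p ∈ S₀, φ p θ :=
    Finset.prod_le_prod (fun p _ => (hmf p).le) fun p hp => (hbf p hp _ hθ).1
  have h4 : ∏ p ∈ S₀, φ p θ ≤ ∏ p ∈ S₀, Mf p :=
    Finset.prod_le_prod (fun p hp => (hmf p).le.trans (hbf p hp _ hθ).1)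
      fun p hp => (hbf p hp _ hθ).2
  have h5 : 0 < ∏ p ∈ S₀, mf p := prod_pos fun p _ => hmf p
  unfold Fac
  exact ⟨mul_le_mul h2.1 h3 h5.le (hmψ.le.trans h2.1),
    mul_le_mul h2.2 h4 (h5.le.trans h3) ((hmψ.le.trans h2.1).trans h2.2)⟩

theorem class_lim2 (hT1 : S_T1 K) (hCR : S_CR K) (hCF : S_CF K) (hRF1 : S_RF1 K)
    (hRF2 : S_RF2 K) (hMID : S_MID K) (hLR : S_LR K) (hCRT : S_CRT) (hLPC : S_LPC)
    (hPROD : S_PROD) (hMONO : S_MONO) (hRBC : S_RBC K) (hOPB : S_OPB K) (hNUL : S_NUL K)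
    (hVOL : S_VOL K) (hGEN : S_GEN K) (hELM : S_ELM) (hPAD : S_PAD K) (hLEV : S_LEV K)
    (hodd : Odd (finrank ℚ K)) (hn : 5 ≤ finrank ℚ K) (I : (FI K)ˣ) :
    ∃ (κ : Fin (Units.rank K) → ℝ),
      ∀ (S₀ : Finset ℕ), (∀ p ∈ S₀, p.Prime) → ∀ (ψ : ((K →+* ℂ) → ℂ × ℂ) → ℝ), RFac K ψ →
      ∀ (φ : ℕ → K → ℝ), (∀ p ∈ S₀, PFac K p (φ p)) → ∀ m : ℝ, 0 < m →
      (∀ θ : K, IntermediateField.adjoin ℚ {θ} = ⊤ → m ≤ Fac S₀ ψ φ θ) → ∃ c : ℝ, 0 ≤ c ∧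
      Tendsto (fun t : ℝ => ({M ∈ SL κ (I : FI K) (t / m) | (∀ p : ℕ, p.Prime → Loc p I M) ∧
        TL S₀ ψ φ t M}.ncard : ℝ) / t) atTop (𝓝 c) ∧
      ((∃ P : K × K, Ind P ∧ ct P ≤ I ∧ ∀ p : ℕ, p.Prime → Loc p I (Lt P)) → 0 < c) := by
  obtain ⟨b, κ, T, c₀, hb, hκ, hT, hc₀, hlim₀, hpos₀⟩ := class_lim0 hT1 hCR hCF hRF1 hRF2 hMID
    hLR hCRT hLPC hPROD hMONO hRBC hOPB hNUL hVOL hodd hn I
  refine ⟨κ, fun S₀ hS₀ ψ hψ φ hφ m hm hmF => ?_⟩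
  obtain ⟨c', hc'⟩ := lim_of_approx2 _ (twist_main hT1 hCR hCF hRF1 hRF2 hMID hLPC hRBC hOPB hGEN
    hELM hPAD hLEV hodd hn I b hb κ hκ T hT S₀ hS₀ ψ hψ φ hφ m hm)
  set f : ℝ → ℝ := fun x => ({M ∈ SL κ (I : FI K) x | (∀ p : ℕ, p.Prime → Loc p I M) ∧
    TL S₀ ψ φ (m * x) M}.ncard : ℝ) with hf
  have hfin : ∀ x, {M ∈ SL κ (I : FI K) x | (∀ p : ℕ, p.Prime → Loc p I M) ∧
    TL S₀ ψ φ (m * x) M}.Finite := fun x =>
      (SL_finite hodd (by omega) hCR κ I x).subset fun M hM => hM.1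
  have hmono : Monotone f := by
    intro s t hst
    refine Nat.cast_le.2 (Set.ncard_le_ncard ?_ (hfin t))
    rintro M ⟨h1, h2, P, h3, h4⟩
    exact ⟨SL_mono κ _ hst h1, h2, P, h3, h4.trans (by gcongr)⟩
  have hlim := hMONO f hmono (2 * finrank ℚ K) (by omega) c' hc'
  have hlim2 : Tendsto (fun t : ℝ => ({M ∈ SL κ (I : FI K) (t / m) |
      (∀ p : ℕ, p.Prime → Loc p I M) ∧ TL S₀ ψ φ t M}.ncard : ℝ) / t) atTop (𝓝 (c' / m)) := by
    have h1 : Tendsto (fun t : ℝ => t / m) atTop atTop := tendsto_id.atTop_div_const hm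
    have h2 := (hlim.comp h1).div_const m
    refine h2.congr' ?_
    filter_upwards [eventually_gt_atTop 0] with t ht
    simp only [Function.comp, hf]
    have e : m * (t / m) = t := by field_simp
    rw [e]
    field_simp
  have hc'0 : 0 ≤ c' := by
    refine ge_of_tendsto hlim ?_
    filter_upwards [eventually_gt_atTop 0] with t ht
    simp only [hf]
    positivity
  refine ⟨c' / m, by positivity, hlim2, fun hex => ?_⟩
  have hc₀pos := hpos₀ hex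
  obtain ⟨m', M', hm', hMF⟩ := fac_bounds (S₀ := S₀) hGEN (by omega) hψ hφ
  obtain ⟨θ₀, hθ₀⟩ := Field.exists_primitive_element ℚ K
  have hmM : m ≤ M' := (hmF θ₀ hθ₀).trans (hMF θ₀ hθ₀).2
  have hM'pos : 0 < M' := lt_of_lt_of_le hm hmM
  -- compare with the untwisted count
  have hcomp : ∀ x : ℝ, 0 < x → ({M ∈ SL κ (I : FI K) (m / M' * x) |
      ∀ p : ℕ, p.Prime → Loc p I M}.ncard : ℝ) ≤ f x := by
    intro x hx
    refine Nat.cast_le.2 (Set.ncard_le_ncard ?_ (hfin x))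
    rintro M ⟨⟨P, h1, h2, h3, h4, h5⟩, h6⟩
    have hle : m / M' * x ≤ x := by
      rw [div_mul_eq_mul_div, div_le_iff₀ hM'pos]
      nlinarith
    refine ⟨⟨P, h1, h2, h3, h4, h5.trans hle⟩, h6, P, h1, ?_⟩
    rw [tw_eq hψ h3 (by omega)]
    have hg := hMF _ ((hGEN _).2 (h3.ratio (by omega)))
    calc pm (vec P) * Fac S₀ ψ φ (P.2 / P.1) ≤ (m / M' * x) * M' := by
          gcongr
          · exact (hm'.le.trans hg.1)
          · exact hg.2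
      _ = m * x := by field_simp
  have hc'pos : c₀ * (m / M') ≤ c' := by
    have h1 : Tendsto (fun x : ℝ => m / M' * x) atTop atTop :=
      tendsto_id.const_mul_atTop (by positivity)
    have h2 := (hlim₀.comp h1).mul_const (m / M')
    refine le_of_tendsto_of_tendsto h2 hlim ?_
    filter_upwards [eventually_gt_atTop 0] with x hx
    simp only [Function.comp]
    have h3 := hcomp x hx
    calc ({M ∈ SL κ (I : FI K) (m / M' * x) | ∀ p : ℕ, p.Prime → Loc p I M}.ncard : ℝ) /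
        (m / M' * x) * (m / M') = ({M ∈ SL κ (I : FI K) (m / M' * x) |
          ∀ p : ℕ, p.Prime → Loc p I M}.ncard : ℝ) / x := by field_simp
      _ ≤ f x / x := by gcongr
  have : 0 < c' := lt_of_lt_of_le (by positivity) hc'pos
  positivity

theorem fac_rel {S₀ : Finset ℕ} {ψ : ((K →+* ℂ) → ℂ × ℂ) → ℝ} {φ : ℕ → K → ℝ}
    (hGEN : S_GEN K) (hHT : S_HT K) (hodd : Odd (finrank ℚ K)) (hn : 3 ≤ finrank ℚ K)
    (hψ : RFac K ψ) (hφ : ∀ p ∈ S₀, PFac K p (φ p)) {θ θ' : K}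
    (hθ : IntermediateField.adjoin ℚ {θ} = ⊤) (h : Rel K θ θ') :
    Fac S₀ ψ φ θ' = Fac S₀ ψ φ θ := by
  have hθ' := ((hHT hodd hn).2 θ θ' hθ h).1
  unfold Fac
  congr 1
  · obtain ⟨a, b, c, d, hdet, he⟩ := h
    have hnd := (hGEN θ).1 hθ
    have hnd' := (hGEN θ').1 hθ'
    have hx : (c : K) * θ + d ≠ 0 := by
      intro h0
      have h1 := (hnd.ind (by omega)) d c (by simp only [mul_one]; linear_combination h0)
      apply hdet
      rw [h1.1, h1.2]; ring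
    have h1 := hψ.2.2.1 (vec ((1 : K), θ')) (sym_vec _) (hnd'.pm_pos (by omega))
      (fun σ => σ ((c : K) * θ + d)) (fun σ => (map_ne_zero σ).2 hx)
      (fun σ => by simp [ComplexEmbedding.conjugate])
    have h2 := hψ.2.2.2 (vec ((1 : K), θ)) (sym_vec _) (hnd.pm_pos (by omega)) (d : ℝ) c b a (by
      have : ((a * d - b * c : ℚ) : ℝ) ≠ 0 := by exact_mod_cast hdet
      push_cast at this
      intro h0; apply this; linarith)
    rw [← h1, ← h2]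
    congr 1
    funext σ
    refine Prod.ext ?_ ?_
    · simp [vec, gl]; ring
    · simp only [vec, gl, Prod.smul_snd, smul_eq_mul]
      rw [← map_mul, mul_comm, he]
      simp; ring
  · refine prod_congr rfl fun p hp => ?_
    exact ((hφ p hp).2.1 θ θ' hθ h).symm

theorem ht_nonneg (θ : K) : 0 ≤ ht K θ := by
  refine Real.sInf_nonneg ?_
  rintro r ⟨a, b, c, d, _, rfl⟩
  unfold hp
  have := pm_nonneg (vec ((c : K) * θ + (d : K), (a : K) * θ + (b : K)))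
  positivity

/-- the final theorem for all adelic heights, from the jobs -/
theorem final_of2 (hT1 : S_T1 K) (hCR : S_CR K) (hCF : S_CF K) (hRF1 : S_RF1 K)
    (hRF2 : S_RF2 K) (hMID : S_MID K) (hLR : S_LR K) (hCRT : S_CRT) (hLPC : S_LPC)
    (hPROD : S_PROD) (hMONO : S_MONO) (hRBC : S_RBC K) (hOPB : S_OPB K) (hNUL : S_NUL K)
    (hVOL : S_VOL K) (hCLS : S_CLS K) (hGEN : S_GEN K) (hLOC : S_LOC K) (hDESC : S_DESC K)
    (hBIJ : S_BIJ2 K) (hHT : S_HT K) (hELM : S_ELM) (hPAD : S_PAD K) (hLEV : S_LEV K)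
    (hodd : Odd (finrank ℚ K)) (hn : 5 ≤ finrank ℚ K)
    (S₀ : Finset ℕ) (hS₀ : ∀ p ∈ S₀, p.Prime) (ψ : ((K →+* ℂ) → ℂ × ℂ) → ℝ) (hψ : RFac K ψ)
    (φ : ℕ → K → ℝ) (hφ : ∀ p ∈ S₀, PFac K p (φ p)) :
    ∃ c : ℝ, 0 < c ∧ Tendsto (fun B : ℝ => ({C : Set K | ∃ θ : K,
      IntermediateField.adjoin ℚ {θ} = ⊤ ∧ C = {θ' | Rel K θ θ'} ∧
        ht K θ * Fac S₀ ψ φ θ ≤ B}.ncard : ℝ) / B) atTop (𝓝 c) := by
  obtain ⟨R, hR1, hR2⟩ := hCLS
  obtain ⟨m, M', hm, hmF'⟩ := fac_bounds (S₀ := S₀) hGEN (by omega) hψ hφ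
  have hmF : ∀ θ : K, IntermediateField.adjoin ℚ {θ} = ⊤ → m ≤ Fac S₀ ψ φ θ :=
    fun θ hθ => (hmF' θ hθ).1
  have hcl := fun I : (FI K)ˣ => class_lim2 hT1 hCR hCF hRF1 hRF2 hMID hLR hCRT hLPC hPROD hMONO
    hRBC hOPB hNUL hVOL hGEN hELM hPAD hLEV hodd hn I
  choose κ hcl using hcl
  have hcl2 := fun I : (FI K)ˣ => hcl I S₀ hS₀ ψ hψ φ hφ m hm hmF
  choose c hc0 hclim hcpos using hcl2
  have hNpos : ∀ I : (FI K)ˣ, 0 < ((nm (I : FI K) : ℚ) : ℝ) ^ 2 := fun I => by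
    have := nm_pos (Units.ne_zero I)
    positivity
  -- one class is positive
  obtain ⟨r₀, hr₀, hpos⟩ : ∃ r ∈ R, 0 < c r := by
    obtain ⟨θ, hθ⟩ := Field.exists_primitive_element ℚ K
    obtain ⟨Q, hQ, ⟨a, b', c', d, hdet, hQe⟩, -⟩ := hDESC hodd (by omega) _ ((hGEN θ).1 hθ)
    have hQnd : Nd Q := by
      rw [hQe]
      exact ((hGEN θ).1 hθ).gl hdet
    have hQi := hQnd.ind (by omega)
    obtain ⟨r, hr, x, hx, hxe⟩ := hR1 (Units.mk0 (ct Q) (ct_ne hQi.fst))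
    rw [Units.val_mk0] at hxe
    refine ⟨r, hr, hcpos r ⟨x⁻¹ • Q, (hQnd.smul (inv_ne_zero hx)).ind (by omega), ?_, ?_⟩⟩
    · rw [ct_smul, hxe, ← mul_assoc, ← sp_mul, inv_mul_cancel₀ hx]
      simp
    · have h1 : ct (x⁻¹ • Q) = (r : FI K) := by
        rw [ct_smul, hxe, ← mul_assoc, ← sp_mul, inv_mul_cancel₀ hx]
        simp
      exact (hLOC hodd r (x⁻¹ • Q) ((hQnd.smul (inv_ne_zero hx)).ind (by omega)) h1.le).2
        ⟨h1, hQ.smul (inv_ne_zero hx)⟩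
  refine ⟨∑ r ∈ R, ((nm (r : FI K) : ℚ) : ℝ) ^ 2 * c r, ?_, ?_⟩
  · refine sum_pos' (fun r _ => ?_) ⟨r₀, hr₀, ?_⟩
    · have := hNpos r; have := hc0 r; positivity
    · have := hNpos r₀; positivity
  · have hsum : Tendsto (fun B : ℝ => ∑ r ∈ R, ((nm (r : FI K) : ℚ) : ℝ) ^ 2 *
        (({M ∈ SL (κ r) (r : FI K) (B * ((nm (r : FI K) : ℚ) : ℝ) ^ 2 / m) |
          (∀ p : ℕ, p.Prime → Loc p r M) ∧
            TL S₀ ψ φ (B * ((nm (r : FI K) : ℚ) : ℝ) ^ 2) M}.ncard : ℝ) /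
              (B * ((nm (r : FI K) : ℚ) : ℝ) ^ 2)))
        atTop (𝓝 (∑ r ∈ R, ((nm (r : FI K) : ℚ) : ℝ) ^ 2 * c r)) := by
      refine tendsto_finsetSum _ fun r _ => Tendsto.const_mul _ ?_
      exact (hclim r).comp (tendsto_id.atTop_mul_const (hNpos r))
    refine hsum.congr' ?_
    filter_upwards [eventually_gt_atTop 0] with B hB
    have hset : {C : Set K | ∃ θ : K, IntermediateField.adjoin ℚ {θ} = ⊤ ∧
        C = {θ' | Rel K θ θ'} ∧ ht K θ * Fac S₀ ψ φ θ ≤ B} =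
        {C : Set K | ∃ θ : K, IntermediateField.adjoin ℚ {θ} = ⊤ ∧ C = {θ' | Rel K θ θ'} ∧
          ht K θ ≤ B / m ∧ ht K θ * Fac S₀ ψ φ θ ≤ B} := by
      ext C
      constructor
      · rintro ⟨θ, h1, h2, h3⟩
        refine ⟨θ, h1, h2, ?_, h3⟩
        rw [le_div_iff₀ hm]
        exact (mul_le_mul_of_nonneg_left (hmF θ h1) (ht_nonneg θ)).trans h3
      · rintro ⟨θ, h1, h2, _, h3⟩
        exact ⟨θ, h1, h2, h3⟩
    rw [hset, hBIJ hodd (by omega) R hR1 hR2 κ (B / m) (by positivity)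
      (fun θ => ht K θ * Fac S₀ ψ φ θ ≤ B) (fun θ θ' hθ hr => by
        rw [((hHT hodd (by omega)).2 θ θ' hθ hr).2,
          fac_rel hGEN hHT hodd (by omega) hψ hφ hθ hr])]
    push_cast
    rw [Finset.sum_div]
    refine sum_congr rfl fun r _ => ?_
    have hsets : {M ∈ SL (κ r) (r : FI K) (B / m * ((nm (r : FI K) : ℚ) : ℝ) ^ 2) |
        (∀ p : ℕ, p.Prime → Loc p r M) ∧
          ∃ P : K × K, M = Lt P ∧ ht K (P.2 / P.1) * Fac S₀ ψ φ (P.2 / P.1) ≤ B} =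
        {M ∈ SL (κ r) (r : FI K) (B * ((nm (r : FI K) : ℚ) : ℝ) ^ 2 / m) |
          (∀ p : ℕ, p.Prime → Loc p r M) ∧
            TL S₀ ψ φ (B * ((nm (r : FI K) : ℚ) : ℝ) ^ 2) M} := by
      have e : B / m * ((nm (r : FI K) : ℚ) : ℝ) ^ 2 = B * ((nm (r : FI K) : ℚ) : ℝ) ^ 2 / m := by
        ring
      rw [e]
      ext M
      simp only [Set.mem_ofPred_eq]
      refine and_congr_right fun hM => and_congr_right fun hL => ?_
      obtain ⟨P₀, hP0, hP1, hP2, hP3, hP4⟩ := hM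
      have key : ∀ P : K × K, M = Lt P →
          (ht K (P.2 / P.1) * Fac S₀ ψ φ (P.2 / P.1) ≤ B ↔
            tw S₀ ψ φ P ≤ B * ((nm (r : FI K) : ℚ) : ℝ) ^ 2) := by
        intro P hP
        have hLt : Lt P₀ = Lt P := hP0.symm.trans hP
        have hPi : Ind P := ind_of_Lt (hP2.ind (by omega)) hLt
        have hPn : Nd P := (Lt_inv hodd (by omega) hP2 hPi hLt).1
        have hPc : ct P ≤ r := by rw [← ct_congr hLt]; exact hP1
        have hloc := (hLOC hodd r P hPi hPc).1 (by rw [← hP]; exact hL)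
        rw [(hHT hodd (by omega)).1 P hPn hloc.2, tw_eq hψ hPn (by omega), hp, hloc.1,
          div_mul_eq_mul_div, div_le_iff₀ (hNpos r)]
      exact exists_congr fun P => and_congr_right fun hP => key P hP
    rw [hsets]
    have := (hNpos r).ne'
    field_simp

end

end Pool.Agent.Y714.KF
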