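import Pool.Agent.Y714.KF.Nz
import Pool.Agent.Y714.KF.Ct2

set_option autoImplicit false
set_option linter.unusedSectionVars false
set_option linter.unusedSimpArgs false

/-! Reduced bases of lattices of rank two in a number field, and the basic definitions of the
counting problem. -/

namespace Pool.Agent.Y714.KF

open NumberField FractionalIdeal Module Finset ComplexConjugate
open scoped nonZeroDivisors

section

variable {K : Type} [Field K] [NumberField K]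

/-- the quadratic form -/
noncomputable def qf (x : K) : ℝ := ∑ σ : K →+* ℂ, ‖σ x‖ ^ 2

/-- its bilinear form -/
noncomputable def bk (x y : K) : ℝ := ∑ σ : K →+* ℂ, (σ x * conj (σ y)).re

theorem bk_symm (x y : K) : bk x y = bk y x := by
  unfold bk
  refine sum_congr rfl fun σ _ => ?_
  rw [← Complex.conj_re, map_mul, Complex.conj_conj, mul_comm]

theorem qf_nonneg (x : K) : 0 ≤ qf x := sum_nonneg fun _ _ => by positivity

theorem qf_pos {x : K} (hx : x ≠ 0) : 0 < qf x := by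
  obtain ⟨σ⟩ : Nonempty (K →+* ℂ) := inferInstance
  refine sum_pos' (fun _ _ => by positivity) ⟨σ, mem_univ σ, ?_⟩
  have : σ x ≠ 0 := (map_ne_zero σ).2 hx
  positivity

theorem qf_comb (m n : ℤ) (x y : K) : qf (m * x + n * y) =
    (m : ℝ) ^ 2 * qf x + 2 * m * n * bk x y + n ^ 2 * qf y := by
  unfold qf bk
  rw [mul_sum, mul_sum, mul_sum, ← sum_add_distrib, ← sum_add_distrib]
  refine sum_congr rfl fun σ _ => ?_
  rw [← Complex.normSq_eq_norm_sq, ← Complex.normSq_eq_norm_sq, ← Complex.normSq_eq_norm_sq,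
    map_add, map_mul, map_mul, map_intCast, map_intCast]
  simp only [Complex.normSq_apply, Complex.add_re, Complex.add_im, Complex.mul_re, Complex.mul_im,
    Complex.intCast_re, Complex.intCast_im, Complex.conj_re, Complex.conj_im]
  ring

theorem bk_comb (m n k l : ℤ) (x y : K) : bk (m * x + n * y) (k * x + l * y) =
    (m : ℝ) * k * qf x + (m * l + n * k) * bk x y + n * l * qf y := by
  unfold qf bk
  rw [mul_sum, mul_sum, mul_sum, ← sum_add_distrib, ← sum_add_distrib]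
  refine sum_congr rfl fun σ _ => ?_
  rw [← Complex.normSq_eq_norm_sq, ← Complex.normSq_eq_norm_sq]
  simp only [map_add, map_mul, map_intCast, Complex.normSq_apply, Complex.add_re, Complex.add_im,
    Complex.mul_re, Complex.mul_im, Complex.intCast_re, Complex.intCast_im, Complex.conj_re,
    Complex.conj_im]
  ring

/-- real coordinates of an element -/
noncomputable def rc {ι : Type} (b : Basis ι ℚ K) (x : K) : ι → ℝ := fun i => ((b.repr x i : ℚ) : ℝ)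

theorem sg_rc {ι : Type} [Fintype ι] [DecidableEq ι] (b : Basis ι ℚ K) (σ : K →+* ℂ) (x : K) :
    sg b σ (rc b x) = σ x := by
  conv_rhs => rw [← b.sum_repr x]
  rw [map_sum]
  refine sum_congr rfl fun i _ => ?_
  rw [Algebra.smul_def, map_mul]
  congr 1
  simp [rc]

theorem lagrangeK (P : K × K) : 2 * (qf P.1 * qf P.2 - bk P.1 P.2 ^ 2) =
    ∑ σ : K →+* ℂ, ∑ τ : K →+* ℂ, ‖br (vec P σ) (vec P τ)‖ ^ 2 := by
  classical
  set b := Module.finBasis ℚ K
  have h := lagrange b (rc b P.1) (rc b P.2)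
  simp only [bf, rv, sg_rc] at h
  have e : ∀ x : K, ∑ σ : K →+* ℂ, (σ x * conj (σ x)).re = qf x := by
    intro x
    unfold qf
    refine sum_congr rfl fun σ _ => ?_
    rw [Complex.mul_conj, Complex.normSq_eq_norm_sq, Complex.ofReal_re]
  rw [e, e] at h
  exact h

theorem qf_el {ι : Type} [Fintype ι] [DecidableEq ι] (b : Basis ι ℚ K) (z : ι → ℤ) :
    qf (el b z) = bf b (fun i => (z i : ℝ)) (fun i => (z i : ℝ)) := by
  rw [bf_self]
  unfold qf
  refine sum_congr rfl fun σ _ => ?_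
  rw [sg_int]

theorem bk_el {ι : Type} [Fintype ι] [DecidableEq ι] (b : Basis ι ℚ K) (z w : ι → ℤ) :
    bk (el b z) (el b w) = bf b (fun i => (z i : ℝ)) (fun i => (w i : ℝ)) := by
  unfold bk bf
  simp only [sg_int]

/-- a pair of integral coordinate vectors as a pair of elements -/
noncomputable def pr {ι : Type} [Fintype ι] (b : Basis ι ℚ K) (z : ι ⊕ ι → ℤ) : K × K :=
  (el b fun i => z (Sum.inl i), el b fun i => z (Sum.inr i))

/-- a pair of real coordinate vectors as a tuple -/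
noncomputable def rw2 {ι : Type} [Fintype ι] (b : Basis ι ℚ K) (u : ι ⊕ ι → ℝ) :
    (K →+* ℂ) → ℂ × ℂ :=
  rv b (fun i => u (Sum.inl i)) (fun i => u (Sum.inr i))

theorem rw2_int {ι : Type} [Fintype ι] [DecidableEq ι] (b : Basis ι ℚ K) (z : ι ⊕ ι → ℤ) :
    rw2 b (fun i => (z i : ℝ)) = vec (pr b z) := rv_int b _ _

/-- reduced basis of a lattice -/
def RB (P : K × K) : Prop := qf P.1 ≤ qf P.2 ∧ 0 ≤ bk P.1 P.2 ∧ 2 * bk P.1 P.2 ≤ qf P.1

/-- strictly reduced basis -/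
def SRB (P : K × K) : Prop := qf P.1 < qf P.2 ∧ 0 < bk P.1 P.2 ∧ 2 * bk P.1 P.2 < qf P.1

theorem SRB.rb {P : K × K} (h : SRB P) : RB P := ⟨h.1.le, h.2.1.le, h.2.2.le⟩

/-- integral change of basis -/
def glz (m n k l : ℤ) (P : K × K) : K × K := ((m : K) * P.1 + n * P.2, (k : K) * P.1 + l * P.2)

theorem Lt_glz (m n k l : ℤ) (h : m * l - n * k = 1 ∨ m * l - n * k = -1) (P : K × K) :
    Lt (glz m n k l P) = Lt P := by
  have h1 : Lt (glz m n k l P) ≤ Lt P := Lt_le_iff.2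
    ⟨mem_Lt.2 ⟨m, n, rfl⟩, mem_Lt.2 ⟨k, l, rfl⟩⟩
  refine le_antisymm h1 (Lt_le_iff.2 ?_)
  rcases h with h | h
  · have hK : (m : K) * l - n * k = 1 := by exact_mod_cast congrArg (Int.cast : ℤ → K) h
    refine ⟨mem_Lt.2 ⟨l, -n, ?_⟩, mem_Lt.2 ⟨-k, m, ?_⟩⟩
    · simp only [glz]; push_cast; linear_combination P.1 * hK
    · simp only [glz]; push_cast; linear_combination P.2 * hK
  · have hK : (m : K) * l - n * k = -1 := by exact_mod_cast congrArg (Int.cast : ℤ → K) h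
    refine ⟨mem_Lt.2 ⟨-l, n, ?_⟩, mem_Lt.2 ⟨k, -m, ?_⟩⟩
    · simp only [glz]; push_cast; linear_combination -P.1 * hK
    · simp only [glz]; push_cast; linear_combination -P.2 * hK

theorem Lt_eq {P Q : K × K} (hP : Ind P) (hQ : Ind Q) (h : Lt P = Lt Q) :
    ∃ m n k l : ℤ, (m * l - n * k = 1 ∨ m * l - n * k = -1) ∧ Q = glz m n k l P := by
  obtain ⟨m, n, h1⟩ := mem_Lt.1 (h.symm ▸ fst_mem_Lt Q)
  obtain ⟨k, l, h2⟩ := mem_Lt.1 (h.symm ▸ snd_mem_Lt Q)
  obtain ⟨m', n', h3⟩ := mem_Lt.1 (h ▸ fst_mem_Lt P)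
  obtain ⟨k', l', h4⟩ := mem_Lt.1 (h ▸ snd_mem_Lt P)
  refine ⟨m, n, k, l, ?_, Prod.ext h1.symm h2.symm⟩
  -- the product of the two matrices is the identity
  have e1 := hP (m' * m + n' * k - 1) (m' * n + n' * l) (by
    push_cast
    rw [← h1, ← h2] at h3
    linear_combination h3)
  have e2 := hP (k' * m + l' * k) (k' * n + l' * l - 1) (by
    push_cast
    rw [← h1, ← h2] at h4
    linear_combination h4)
  have f1 : m' * m + n' * k = 1 := by
    have := e1.1; rw [sub_eq_zero] at this; exact_mod_cast this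
  have f2 : m' * n + n' * l = 0 := by exact_mod_cast e1.2
  have f3 : k' * m + l' * k = 0 := by exact_mod_cast e2.1
  have f4 : k' * n + l' * l = 1 := by
    have := e2.2; rw [sub_eq_zero] at this; exact_mod_cast this
  have hdet : (m * l - n * k) * (m' * l' - n' * k') = 1 := by
    linear_combination (k' * n + l' * l) * f1 + f4 - (k' * m + l' * k) * f2
  rcases Int.eq_one_or_neg_one_of_mul_eq_one hdet with h | h
  · exact Or.inl h
  · exact Or.inr h

/-- existence of a reduced basis -/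
theorem exists_rb {P : K × K} (hP : Nd P) (hn : 2 ≤ finrank ℚ K) :
    ∃ Q, Lt Q = Lt P ∧ RB Q ∧ Nd Q := by
  have hpos : 0 < qf P.1 * qf P.2 - bk P.1 P.2 ^ 2 := by
    have h := lagrangeK P
    have h1 : 0 < ∑ σ : K →+* ℂ, ∑ τ : K →+* ℂ, ‖br (vec P σ) (vec P τ)‖ ^ 2 := by
      obtain ⟨σ, τ, hst⟩ : ∃ σ τ : K →+* ℂ, σ ≠ τ := by
        have : 1 < Fintype.card (K →+* ℂ) := by rw [card_emb]; omega
        exact Fintype.exists_pair_of_one_lt_card this
      refine sum_pos' (fun _ _ => sum_nonneg fun _ _ => by positivity) ⟨σ, mem_univ σ, ?_⟩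
      refine sum_pos' (fun _ _ => by positivity) ⟨τ, mem_univ τ, ?_⟩
      have := hP σ τ hst
      positivity
    linarith
  have hA := qf_nonneg P.1
  have hC := qf_nonneg P.2
  have hAC : 0 < qf P.1 + qf P.2 := by
    by_contra hcon
    have h1 : qf P.1 = 0 := by linarith
    rw [h1] at hpos
    nlinarith [sq_nonneg (bk P.1 P.2)]
  set A := qf P.1
  set C := qf P.2
  set S := bk P.1 P.2
  obtain ⟨m, n, k, l, hdet, r1, r2, r3⟩ := red_exists A S C ((A * C - S ^ 2) / (A + C))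
    (by positivity) (by
      intro m n
      rw [div_mul_eq_mul_div, div_le_iff₀ hAC]
      have : (m ^ 2 * A + 2 * m * n * S + n ^ 2 * C) * (A + C) - (A * C - S ^ 2) * (m ^ 2 + n ^ 2) =
          (m * A + n * S) ^ 2 + (m * S + n * C) ^ 2 := by ring
      nlinarith [sq_nonneg (m * A + n * S), sq_nonneg (m * S + n * C)])
  refine ⟨glz m n k l P, Lt_glz m n k l hdet P, ⟨?_, ?_, ?_⟩, ?_⟩
  · simp only [glz]; rw [qf_comb, qf_comb]; exact r1
  · simp only [glz]; rw [bk_comb]; linarith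
  · simp only [glz]; rw [bk_comb, qf_comb]; exact r3
  · have := hP.gl (a := m) (b := n) (c := k) (d := l) (by
      rcases hdet with h | h
      · have : (m : ℚ) * l - n * k = 1 := by exact_mod_cast congrArg (Int.cast : ℤ → ℚ) h
        rw [this]; norm_num
      · have : (m : ℚ) * l - n * k = -1 := by exact_mod_cast congrArg (Int.cast : ℤ → ℚ) h
        rw [this]; norm_num)
    convert this using 1
    simp [glz]

/-- the first vector of a reduced basis is a shortest vector -/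
theorem RB.min {P : K × K} (h : RB P) (hP : Ind P) {x : K} (hx : x ∈ Lt P) (hx0 : x ≠ 0) :
    qf P.1 ≤ qf x := by
  obtain ⟨i, j, rfl⟩ := mem_Lt.1 hx
  rw [qf_comb]
  refine red_ge (qf_nonneg P.1) h.1 (by linarith [h.2.1]) h.2.2 i j ?_
  by_contra hcon
  push Not at hcon
  apply hx0
  rw [hcon.1, hcon.2]
  simp

/-- uniqueness of strictly reduced bases -/
theorem SRB.unique {P Q : K × K} (h : SRB P) (hQ : RB Q) (hP : Ind P) (hQ' : Ind Q)
    (hL : Lt P = Lt Q) : Q = P ∨ Q = (-P.1, -P.2) := by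
  obtain ⟨m, n, k, l, hdet, rfl⟩ := Lt_eq hP hQ' hL
  obtain ⟨q1, q2, q3⟩ := hQ
  simp only [glz] at q1 q2 q3
  rw [qf_comb, qf_comb] at q1
  rw [bk_comb] at q2
  rw [bk_comb, qf_comb] at q3
  rcases red_unique h.1 (by linarith [h.2.1]) h.2.2 m n k l hdet q1 (by linarith) q3 with
    ⟨rfl, rfl, rfl, rfl⟩ | ⟨rfl, rfl, rfl, rfl⟩
  · left; simp [glz]
  · right; simp [glz]

theorem Lg_gl (a b c d : ℂ) (hdet : a * d - b * c ≠ 0) (v : (K →+* ℂ) → ℂ × ℂ) (hv : 0 < pm v)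
    (hx : ∀ σ, 0 < pm (ext v σ)) (σ : K →+* ℂ) :
    Lg (fun σ => gl a b c d (v σ)) σ = Lg v σ + (1 / 2) * Real.log ‖a * d - b * c‖ := by
  have hd : ‖a * d - b * c‖ ≠ 0 := norm_ne_zero_iff.2 hdet
  unfold Lg
  rw [pm_gl, ext_gl, Real.log_mul (pow_ne_zero _ hd) (hx σ).ne', Real.log_mul (pow_ne_zero _ hd)
    hv.ne', Real.log_pow, Real.log_pow]
  push_cast
  ring

theorem cc_gl (a b c d : ℂ) (hdet : a * d - b * c ≠ 0) (v : (K →+* ℂ) → ℂ × ℂ) (hv : 0 < pm v)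
    (hx : ∀ σ, 0 < pm (ext v σ)) : cc (fun σ => gl a b c d (v σ)) = cc v := by
  have h : lgv (fun σ => gl a b c d (v σ)) = lgv v := by
    funext w
    unfold lgv mLg
    simp_rw [Lg_gl a b c d hdet v hv hx]
    rw [sum_add_distrib, sum_const, card_univ, card_emb, nsmul_eq_mul]
    have : (finrank ℚ K : ℝ) ≠ 0 := by exact_mod_cast (finrank_pos (R := ℚ) (M := K)).ne'
    field_simp
    ring
  unfold cc
  rw [h]

/-- rational changes of basis do not change the unit coordinates -/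
theorem cc_vec_gl (hodd : Odd (finrank ℚ K)) (a b c d : ℚ) (hdet : a * d - b * c ≠ 0) (P : K × K)
    (hv : 0 < pm (vec P)) :
    cc (vec ((a : K) * P.1 + b * P.2, (c : K) * P.1 + d * P.2)) = cc (vec P) := by
  obtain ⟨C, _, hC⟩ := ineqs (J := K →+* ℂ) (by rw [card_emb]; exact hodd)
  rw [vec_gl]
  exact cc_gl _ _ _ _ (by exact_mod_cast (Rat.cast_ne_zero (α := ℂ)).2 hdet) _ hv (hC _ hv).1

/-- the values of the invariants on the bases of a lattice agree -/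
theorem Lt_inv (hodd : Odd (finrank ℚ K)) (hn : 2 ≤ finrank ℚ K) {P Q : K × K} (hP : Nd P)
    (hQ : Ind Q) (h : Lt P = Lt Q) : Nd Q ∧ pm (vec Q) = pm (vec P) ∧ cc (vec Q) = cc (vec P) ∧
      ∏ q ∈ (univ : Finset (K →+* ℂ)).offDiag, ‖br (vec Q q.1) (vec Q q.2)‖ =
        ∏ q ∈ (univ : Finset (K →+* ℂ)).offDiag, ‖br (vec P q.1) (vec P q.2)‖ := by
  obtain ⟨m, n, k, l, hdet, rfl⟩ := Lt_eq (hP.ind hn) hQ h
  have hd : ((m : ℚ) * l - n * k) = 1 ∨ ((m : ℚ) * l - n * k) = -1 := by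
    rcases hdet with h | h
    · left; exact_mod_cast congrArg (Int.cast : ℤ → ℚ) h
    · right; exact_mod_cast congrArg (Int.cast : ℤ → ℚ) h
  have hd0 : ((m : ℚ) * l - n * k) ≠ 0 := by rcases hd with h | h <;> rw [h] <;> norm_num
  have e : glz m n k l P = (((m : ℚ) : K) * P.1 + ((n : ℚ) : K) * P.2,
      ((k : ℚ) : K) * P.1 + ((l : ℚ) : K) * P.2) := by simp [glz]
  rw [e]
  refine ⟨hP.gl hd0, ?_, cc_vec_gl hodd _ _ _ _ hd0 P (hP.pm_pos hn), ?_⟩
  · rw [pm_vec_gl]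
    have : |((m : ℚ) : ℝ) * ((l : ℚ) : ℝ) - ((n : ℚ) : ℝ) * ((k : ℚ) : ℝ)| = 1 := by
      rcases hd with h | h
      · have h' : ((m : ℚ) : ℝ) * ((l : ℚ) : ℝ) - ((n : ℚ) : ℝ) * ((k : ℚ) : ℝ) = 1 := by
          exact_mod_cast congrArg (Rat.cast : ℚ → ℝ) h
        rw [h']; norm_num
      · have h' : ((m : ℚ) : ℝ) * ((l : ℚ) : ℝ) - ((n : ℚ) : ℝ) * ((k : ℚ) : ℝ) = -1 := by
          exact_mod_cast congrArg (Rat.cast : ℚ → ℝ) h
        rw [h']; norm_num
    rw [this, one_pow, one_mul]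
  · refine prod_congr rfl fun q _ => ?_
    rw [vec_gl, br_gl, norm_mul]
    have : ‖((m : ℚ) : ℂ) * ((l : ℚ) : ℂ) - ((n : ℚ) : ℂ) * ((k : ℚ) : ℂ)‖ = 1 := by
      rcases hd with h | h
      · have h' : ((m : ℚ) : ℂ) * ((l : ℚ) : ℂ) - ((n : ℚ) : ℂ) * ((k : ℚ) : ℂ) = 1 := by
          exact_mod_cast congrArg (Rat.cast : ℚ → ℂ) h
        rw [h']; norm_num
      · have h' : ((m : ℚ) : ℂ) * ((l : ℚ) : ℂ) - ((n : ℚ) : ℂ) * ((k : ℚ) : ℂ) = -1 := by
          exact_mod_cast congrArg (Rat.cast : ℚ → ℂ) h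
        rw [h']; norm_num
    rw [this, one_mul]

/-- normalised reduced bases of bounded size -/
theorem exists_rb_bound (hodd : Odd (finrank ℚ K)) (κ : Fin (Units.rank K) → ℝ) :
    ∃ C : ℝ, 0 < C ∧ ∀ P : K × K, 0 < pm (vec P) → RB P → (∀ j, κ j ≤ cc (vec P) j ∧
      cc (vec P) j ≤ κ j + 1) → ∀ Y : ℝ, 0 < Y → pm (vec P) ≤ Y ^ (2 * finrank ℚ K) →
      qf P.1 * qf P.2 ≤ C * Y ^ 4 := by
  obtain ⟨C, hC, hbr⟩ := exists_br_bound (K := K) hodd (∑ j, |κ j| + 1)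
  set n := finrank ℚ K with hn
  have hn0 : n ≠ 0 := finrank_pos.ne'
  obtain ⟨D, hD, hDC⟩ : ∃ D : ℝ, 0 < D ∧ C = D ^ n :=
    ⟨C ^ (1 / (n : ℝ)), by positivity, by
      rw [← Real.rpow_natCast, ← Real.rpow_mul hC.le, one_div, inv_mul_cancel₀ (by
        exact_mod_cast hn0), Real.rpow_one]⟩
  refine ⟨n ^ 2 * D ^ 2 + 1, by positivity, fun P hpm hR hκ Y hY hle => ?_⟩
  have h1 : ∀ σ τ : K →+* ℂ, ‖br (vec P σ) (vec P τ)‖ ≤ D * Y ^ 2 := by
    intro σ τ
    have h2 := hbr (vec P) (sym_vec P) hpm (fun j => by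
      have h3 : |κ j| ≤ ∑ j, |κ j| := single_le_sum (f := fun j => |κ j|)
        (fun _ _ => abs_nonneg _) (mem_univ j)
      obtain ⟨h4, h5⟩ := hκ j
      rw [abs_le]
      constructor
      · linarith [neg_abs_le (κ j)]
      · linarith [le_abs_self (κ j)]) σ τ
    have h3 : ‖br (vec P σ) (vec P τ)‖ ^ n ≤ (D * Y ^ 2) ^ n := by
      refine h2.trans ?_
      rw [mul_pow, ← pow_mul, ← hDC]
      gcongr
    exact (pow_le_pow_iff_left₀ (norm_nonneg _) (by positivity) hn0).1 h3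
  have h4 := lagrangeK P
  have h5 : ∑ σ : K →+* ℂ, ∑ τ : K →+* ℂ, ‖br (vec P σ) (vec P τ)‖ ^ 2 ≤
      n ^ 2 * (D * Y ^ 2) ^ 2 := by
    calc ∑ σ : K →+* ℂ, ∑ τ : K →+* ℂ, ‖br (vec P σ) (vec P τ)‖ ^ 2 ≤
        ∑ σ : K →+* ℂ, ∑ τ : K →+* ℂ, (D * Y ^ 2) ^ 2 :=
          sum_le_sum fun σ _ => sum_le_sum fun τ _ => pow_le_pow_left₀ (norm_nonneg _) (h1 σ τ) 2
      _ = _ := by
          rw [sum_const, sum_const, card_univ, card_emb, nsmul_eq_mul, nsmul_eq_mul]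
          ring
  obtain ⟨r1, r2, r3⟩ := hR
  have hA := qf_nonneg P.1
  have h6 : bk P.1 P.2 ^ 2 * 4 ≤ qf P.1 * qf P.2 := by nlinarith
  have h7 : (D * Y ^ 2) ^ 2 = D ^ 2 * Y ^ 4 := by ring
  rw [h7] at h5
  have h8 : 0 < Y ^ 4 := by positivity
  nlinarith

/-- the lattices of rank two spanned by nondegenerate pairs of elements of `I`, normalised by
units, of bounded archimedean size -/
def SL (κ : Fin (Units.rank K) → ℝ) (I : FI K) (t : ℝ) : Set (Submodule ℤ K) :=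
  {M | ∃ P : K × K, M = Lt P ∧ ct P ≤ I ∧ Nd P ∧ Nz κ (vec P) ∧ pm (vec P) ≤ t}

/-- the content of the lattice is too small at `p` -/
def Cf (p : ℕ) (I : FI K) (M : Submodule ℤ K) : Prop :=
  ∃ q : Ideal (𝓞 K), q.IsPrime ∧ (p : 𝓞 K) ∈ q ∧ ∀ x ∈ M, x ∈ (q : FI K) * I

/-- a primitive vector of the lattice has large content at `p` -/
def Rf (p m : ℕ) (I : FI K) (M : Submodule ℤ K) : Prop :=
  ∃ x ∈ M, (¬ ∃ y ∈ M, x = (p : K) * y) ∧ nm (sp (p : K) * I + sp x) = (p : ℚ) ^ m * nm I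

/-- the local condition at `p` -/
def Loc (p : ℕ) (I : FI K) (M : Submodule ℤ K) : Prop :=
  ¬ Cf p I M ∧ ∀ m ≤ finrank ℚ K, finrank ℚ K ≤ 2 * m → ¬ Rf p m I M

/-- the open region of strictly reduced pairs -/
def Dm {ι : Type} [Fintype ι] (b : Basis ι ℚ K) (κ : Fin (Units.rank K) → ℝ) (δ : ℝ) :
    Set (ι ⊕ ι → ℝ) :=
  {u | δ ^ 2 < bf b (fun i => u (Sum.inl i)) (fun i => u (Sum.inl i)) ∧
    bf b (fun i => u (Sum.inl i)) (fun i => u (Sum.inl i)) <
      bf b (fun i => u (Sum.inr i)) (fun i => u (Sum.inr i)) ∧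
    0 < bf b (fun i => u (Sum.inl i)) (fun i => u (Sum.inr i)) ∧
    2 * bf b (fun i => u (Sum.inl i)) (fun i => u (Sum.inr i)) <
      bf b (fun i => u (Sum.inl i)) (fun i => u (Sum.inl i)) ∧
    (∀ σ τ : K →+* ℂ, σ ≠ τ → br (rw2 b u σ) (rw2 b u τ) ≠ 0) ∧ pm (rw2 b u) < 1 ∧
    ∀ j, κ j < cc (rw2 b u) j ∧ cc (rw2 b u) j < κ j + 1}

/-- the closed region of reduced pairs -/
def Dc {ι : Type} [Fintype ι] (b : Basis ι ℚ K) (κ : Fin (Units.rank K) → ℝ) (δ : ℝ) :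
    Set (ι ⊕ ι → ℝ) :=
  {u | δ ^ 2 ≤ bf b (fun i => u (Sum.inl i)) (fun i => u (Sum.inl i)) ∧
    bf b (fun i => u (Sum.inl i)) (fun i => u (Sum.inl i)) ≤
      bf b (fun i => u (Sum.inr i)) (fun i => u (Sum.inr i)) ∧
    0 ≤ bf b (fun i => u (Sum.inl i)) (fun i => u (Sum.inr i)) ∧
    2 * bf b (fun i => u (Sum.inl i)) (fun i => u (Sum.inr i)) ≤
      bf b (fun i => u (Sum.inl i)) (fun i => u (Sum.inl i)) ∧
    (∀ σ τ : K →+* ℂ, σ ≠ τ → br (rw2 b u σ) (rw2 b u τ) ≠ 0) ∧ pm (rw2 b u) ≤ 1 ∧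
    ∀ j, κ j ≤ cc (rw2 b u) j ∧ cc (rw2 b u) j ≤ κ j + 1}

end

end Pool.Agent.Y714.KF
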