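import Pool.Agent.Y714.KF.Frm

set_option autoImplicit false
set_option linter.unusedSectionVars false
set_option linter.unusedSimpArgs false

/-! Transformation rules for the maximum of the monomials. -/

namespace Pool.Agent.Y714.KF

open Finset ComplexConjugate

section

variable {J : Type} [Fintype J] [DecidableEq J]

theorem pm_scale {v w : J → ℂ × ℂ} {K : ℝ} (hK : 0 ≤ K) (h : ∀ π : Equiv.Perm J,
    ∏ j, ‖br (w j) (w (π j))‖ = K * ∏ j, ‖br (v j) (v (π j))‖) : pm w = K * pm v := by
  refine le_antisymm (pm_le fun π => ?_) ?_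
  · rw [h π]
    exact mul_le_mul_of_nonneg_left (le_pm v π) hK
  · obtain ⟨π, hπ⟩ := exists_pm v
    rw [hπ, ← h π]
    exact le_pm w π

theorem pm_smul (s : J → ℂ) (v : J → ℂ × ℂ) :
    pm (fun j => s j • v j) = (∏ j, ‖s j‖ ^ 2) * pm v := by
  refine pm_scale (prod_nonneg fun _ _ => by positivity) fun π => ?_
  have h1 : ∀ i j, br (s i • v i) (s j • v j) = s i * s j * br (v i) (v j) := by
    intro i j
    unfold br
    simp only [Prod.smul_fst, Prod.smul_snd, smul_eq_mul]
    ring
  calc ∏ j, ‖br (s j • v j) (s (π j) • v (π j))‖ =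
      ∏ j, (‖s j‖ * ‖s (π j)‖ * ‖br (v j) (v (π j))‖) :=
        prod_congr rfl fun j _ => by rw [h1, norm_mul, norm_mul]
    _ = _ := by
      rw [prod_mul_distrib, prod_mul_distrib, Equiv.prod_comp π fun j => ‖s j‖, prod_pow, sq]

/-- the action of a matrix -/
def gl (a b c d : ℂ) (x : ℂ × ℂ) : ℂ × ℂ := (a * x.1 + b * x.2, c * x.1 + d * x.2)

theorem br_gl (a b c d : ℂ) (x y : ℂ × ℂ) :
    br (gl a b c d x) (gl a b c d y) = (a * d - b * c) * br x y := by
  unfold br gl; ring

theorem pm_gl (a b c d : ℂ) (v : J → ℂ × ℂ) :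
    pm (fun j => gl a b c d (v j)) = ‖a * d - b * c‖ ^ Fintype.card J * pm v := by
  refine pm_scale (by positivity) fun π => ?_
  calc ∏ j, ‖br (gl a b c d (v j)) (gl a b c d (v (π j)))‖ =
      ∏ j, (‖a * d - b * c‖ * ‖br (v j) (v (π j))‖) :=
        prod_congr rfl fun j _ => by rw [br_gl, norm_mul]
    _ = _ := by rw [prod_mul_distrib, prod_const, card_univ]

theorem ext_smul (s : J → ℂ) (v : J → ℂ × ℂ) (σ : J) :
    pm (ext (fun j => s j • v j) σ) = ‖s σ‖ ^ 2 * (∏ j, ‖s j‖ ^ 2) * pm (ext v σ) := by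
  have h1 : ext (fun j => s j • v j) σ = fun o => s (o.getD σ) • ext v σ o := rfl
  rw [h1, pm_smul (fun o => s (o.getD σ)) (ext v σ), Fintype.prod_option]
  rfl

theorem ext_gl (a b c d : ℂ) (v : J → ℂ × ℂ) (σ : J) :
    pm (ext (fun j => gl a b c d (v j)) σ) =
      ‖a * d - b * c‖ ^ (Fintype.card J + 1) * pm (ext v σ) := by
  have h1 : ext (fun j => gl a b c d (v j)) σ = fun o => gl a b c d (ext v σ o) := rfl
  rw [h1, pm_gl, Fintype.card_option]

theorem pm_equiv {J' : Type} [Fintype J'] [DecidableEq J'] (e : J ≃ J') (v : J' → ℂ × ℂ) :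
    pm (fun j => v (e j)) = pm v := by
  refine le_antisymm (pm_le fun π => ?_) (pm_le fun π => ?_)
  · refine le_trans (le_of_eq ?_) (le_pm v ((e.symm.trans π).trans e))
    rw [← Equiv.prod_comp e]
    simp
  · refine le_trans (le_of_eq ?_) (le_pm (fun j => v (e j)) ((e.trans π).trans e.symm))
    rw [← Equiv.prod_comp e]
    simp

theorem pm_conj (v : J → ℂ × ℂ) : pm (fun j => (conj (v j).1, conj (v j).2)) = pm v := by
  refine pm_congr fun i j => ?_
  have : br (conj (v i).1, conj (v i).2) (conj (v j).1, conj (v j).2) = conj (br (v i) (v j)) := by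
    unfold br; simp
  rw [this, Complex.norm_conj]

theorem continuous_br : Continuous fun q : (ℂ × ℂ) × (ℂ × ℂ) => br q.1 q.2 := by
  unfold br; fun_prop

theorem continuous_pm : Continuous (pm : (J → ℂ × ℂ) → ℝ) := by
  unfold pm
  refine Continuous.finset_sup'_apply _ fun π _ => ?_
  refine continuous_finsetProd _ fun j _ => ?_
  have : Continuous fun v : J → ℂ × ℂ => br (v j) (v (π j)) := by unfold br; fun_prop
  exact this.norm

theorem continuous_ext (σ : J) : Continuous fun v : J → ℂ × ℂ => pm (ext v σ) := by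
  refine continuous_pm.comp (continuous_pi fun o => ?_)
  exact continuous_apply _

theorem pm_pos {v : J → ℂ × ℂ} (hc : 2 ≤ Fintype.card J)
    (h : ∀ i j, i ≠ j → br (v i) (v j) ≠ 0) : 0 < pm v := by
  classical
  obtain ⟨π, hπ⟩ := ML.exists_perm_of_dense (fun i j : J => i ≠ j) (fun _ _ h => h.symm)
    (fun j => by
      have : (univ.filter fun k => ¬ (j ≠ k)) = {j} := by
        ext k; simp [eq_comm]
      rw [this, card_singleton]; omega)
  refine lt_of_lt_of_le ?_ (le_pm v π)
  exact prod_pos fun j _ => norm_pos_iff.2 (h _ _ (hπ j))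

end

end Pool.Agent.Y714.KF
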