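import Pool.Agent.Y714.KF.Ct2
import Pool.Agent.Y714.KF.Frm2

set_option autoImplicit false
set_option linter.unusedSectionVars false
set_option linter.unusedSimpArgs false

/-! Conjugate vectors, and the index of the lattice of monomials. -/

namespace Pool.Agent.Y714.KF

open NumberField FractionalIdeal Module Finset
open scoped nonZeroDivisors

section

variable {K : Type} [Field K] [NumberField K]

noncomputable instance : DecidableEq (K →+* ℂ) := Classical.decEq _

/-- the tuple of conjugate vectors -/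
def vec (P : K × K) : (K →+* ℂ) → ℂ × ℂ := fun σ => (σ P.1, σ P.2)

/-- the conjugate vectors are pairwise independent -/
def Nd (P : K × K) : Prop := ∀ σ τ : K →+* ℂ, σ ≠ τ → br (vec P σ) (vec P τ) ≠ 0

theorem vec_smul (x : K) (P : K × K) : vec (x • P) = fun σ => σ x • vec P σ := by
  funext σ
  simp [vec, Prod.smul_mk]

theorem vec_gl (a b c d : ℚ) (P : K × K) :
    vec ((a : K) * P.1 + b * P.2, (c : K) * P.1 + d * P.2) =
      fun σ => gl a b c d (vec P σ) := by
  funext σ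
  simp [vec, gl]

theorem Nd.smul {P : K × K} (h : Nd P) {x : K} (hx : x ≠ 0) : Nd (x • P) := by
  intro σ τ hne
  have h1 : br (vec (x • P) σ) (vec (x • P) τ) = σ x * τ x * br (vec P σ) (vec P τ) := by
    simp only [vec, br, Prod.smul_fst, Prod.smul_snd, smul_eq_mul, map_mul]
    ring
  rw [h1]
  exact mul_ne_zero (mul_ne_zero ((map_ne_zero σ).2 hx) ((map_ne_zero τ).2 hx)) (h σ τ hne)

theorem Nd.gl {P : K × K} (h : Nd P) {a b c d : ℚ} (hdet : a * d - b * c ≠ 0) :
    Nd ((a : K) * P.1 + b * P.2, (c : K) * P.1 + d * P.2) := by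
  intro σ τ hne
  rw [vec_gl, br_gl]
  refine mul_ne_zero ?_ (h σ τ hne)
  exact_mod_cast hdet

theorem card_emb : Fintype.card (K →+* ℂ) = finrank ℚ K := Embeddings.card K ℂ

theorem prod_norm_emb (x : K) : ∏ σ : K →+* ℂ, ‖σ x‖ = ((nm (sp x) : ℚ) : ℝ) := by
  rw [nm_sp]
  have h := Algebra.norm_eq_prod_embeddings ℚ ℂ x
  have h1 : ∏ σ : K →+* ℂ, σ x = ∏ σ : K →ₐ[ℚ] ℂ, σ x :=
    Fintype.prod_equiv (RingHom.equivRatAlgHom K ℂ) _ _ fun σ => by
      simp [RingHom.equivRatAlgHom_apply]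
  rw [← h1] at h
  have h2 := congrArg norm h
  rw [norm_prod] at h2
  rw [← h2]
  simp

theorem prod_norm_sq_emb (x : K) : ∏ σ : K →+* ℂ, ‖σ x‖ ^ 2 = ((nm (sp x) : ℚ) : ℝ) ^ 2 := by
  rw [prod_pow, prod_norm_emb]

theorem pm_vec_smul (x : K) (P : K × K) :
    pm (vec (x • P)) = ((nm (sp x) : ℚ) : ℝ) ^ 2 * pm (vec P) := by
  rw [vec_smul, pm_smul, prod_norm_sq_emb]

theorem pm_vec_gl (a b c d : ℚ) (P : K × K) :
    pm (vec ((a : K) * P.1 + b * P.2, (c : K) * P.1 + d * P.2)) =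
      |(a * d - b * c : ℝ)| ^ finrank ℚ K * pm (vec P) := by
  rw [vec_gl, pm_gl, card_emb]
  congr 2
  have : ((a : ℂ) * d - b * c) = ((a * d - b * c : ℝ) : ℂ) := by push_cast; ring
  rw [this, Complex.norm_real, Real.norm_eq_abs]

theorem Nd.ind {P : K × K} (h : Nd P) (hn : 2 ≤ finrank ℚ K) : Ind P := by
  intro a b hab
  have hc : 1 < Fintype.card (K →+* ℂ) := by rw [card_emb]; omega
  obtain ⟨σ, τ, hne⟩ := Fintype.exists_pair_of_one_lt_card hc
  have h0 := h σ τ hne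
  have h1 : (a : ℂ) * σ P.1 + b * σ P.2 = 0 := by
    have := congrArg σ hab
    simpa using this
  have h2 : (a : ℂ) * τ P.1 + b * τ P.2 = 0 := by
    have := congrArg τ hab
    simpa using this
  have h3 : (a : ℂ) * br (vec P σ) (vec P τ) = 0 := by
    unfold br vec
    linear_combination τ P.2 * h1 - σ P.2 * h2
  have h4 : (b : ℂ) * br (vec P σ) (vec P τ) = 0 := by
    unfold br vec
    linear_combination σ P.1 * h2 - τ P.1 * h1
  exact ⟨by exact_mod_cast (mul_eq_zero.1 h3).resolve_right h0,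
    by exact_mod_cast (mul_eq_zero.1 h4).resolve_right h0⟩

theorem Nd.pm_pos {P : K × K} (h : Nd P) (hn : 2 ≤ finrank ℚ K) : 0 < pm (vec P) :=
  KF.pm_pos (by rw [card_emb]; exact hn) h

theorem det_emb_ne {ι : Type} [Fintype ι] [DecidableEq ι] (b : Basis ι ℚ K)
    (e : ι ≃ (K →+* ℂ)) : (Matrix.of fun i j => (e i) (b j)).det ≠ 0 := by
  have h1 : (Matrix.of fun i j => (e i) (b j)) =
      (Algebra.embeddingsMatrixReindex ℚ ℂ b (e.trans (RingHom.equivRatAlgHom K ℂ))).transpose := by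
    ext i j
    simp [Algebra.embeddingsMatrixReindex, Algebra.embeddingsMatrix,
      RingHom.equivRatAlgHom_apply]
  rw [h1, Matrix.det_transpose, ← pow_ne_zero_iff two_ne_zero,
    ← Algebra.discr_eq_det_embeddingsMatrixReindex_pow_two]
  exact (map_ne_zero_iff _ (algebraMap ℚ ℂ).injective).2 (Algebra.discr_not_zero_of_basis ℚ b)

theorem prod_offDiag_of_lt {n : ℕ} (f : Fin n → Fin n → ℝ) (hf : ∀ i j, f i j = f j i) :
    ∏ q ∈ (univ : Finset (Fin n)).offDiag, f q.1 q.2 = (∏ i, ∏ j ∈ Ioi i, f i j) ^ 2 := by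
  have h0 : (univ : Finset (Fin n)).offDiag =
      ((univ : Finset (Fin n)) ×ˢ (univ : Finset (Fin n))).filter (fun q => q.1 < q.2) ∪
      ((univ : Finset (Fin n)) ×ˢ (univ : Finset (Fin n))).filter (fun q => q.2 < q.1) := by
    ext ⟨a, b⟩
    simp [mem_offDiag]
  rw [h0, prod_union]
  · have e1 : ∏ q ∈ ((univ : Finset (Fin n)) ×ˢ (univ : Finset (Fin n))).filter
        (fun q => q.1 < q.2), f q.1 q.2 = ∏ i, ∏ j ∈ Ioi i, f i j := by
      rw [prod_filter, prod_product]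
      refine prod_congr rfl fun i _ => ?_
      rw [← prod_filter]
      refine prod_congr ?_ fun _ _ => rfl
      ext j; simp
    have e2 : ∏ q ∈ ((univ : Finset (Fin n)) ×ˢ (univ : Finset (Fin n))).filter
        (fun q => q.2 < q.1), f q.1 q.2 = ∏ i, ∏ j ∈ Ioi i, f i j := by
      rw [← e1]
      refine prod_nbij' Prod.swap Prod.swap ?_ ?_ ?_ ?_ ?_
      · intro q hq; simp at hq ⊢; exact hq
      · intro q hq; simp at hq ⊢; exact hq
      · intro q _; rfl
      · intro q _; rfl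
      · intro q _; exact hf _ _
    rw [e1, e2, sq]
  · rw [disjoint_filter]
    intro q _ h1 h2
    exact absurd h1 (not_lt.2 h2.le)

theorem exists_index (I : (FI K)ˣ) : ∃ c : ℝ, 0 < c ∧ ∀ P : K × K, ct P ≤ I → Nd P →
    ∃ D : ℕ, D ≠ 0 ∧
      ∏ q ∈ (univ : Finset (K →+* ℂ)).offDiag, ‖br (vec P q.1) (vec P q.2)‖ = (c * D) ^ 2 ∧
      ∀ x ∈ ((I : FI K) ^ (finrank ℚ K - 1)), ∃ w : Fin (finrank ℚ K) → ℤ,
        (D : K) * x = ∑ i, (w i : K) * (P.1 ^ (i : ℕ) * P.2 ^ (finrank ℚ K - 1 - (i : ℕ))) := by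
  classical
  set n := finrank ℚ K with hn
  set A : (FI K)ˣ := I ^ (n - 1) with hA
  set b := basisOfFractionalIdeal K A with hb
  have hcard : Fintype.card (Free.ChooseBasisIndex ℤ A) = n := (finrank_eq_card_basis b).symm
  let e1 : Fin n ≃ Free.ChooseBasisIndex ℤ A := (Fintype.equivFinOfCardEq hcard).symm
  let e2 : Fin n ≃ (K →+* ℂ) := (Fintype.equivFinOfCardEq card_emb).symm
  let b' : Basis (Fin n) ℚ K := b.reindex e1.symm
  let S : Matrix (Fin n) (Fin n) ℂ := Matrix.of fun i j => (e2 i) (b' j)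
  have hS : S.det ≠ 0 := det_emb_ne b' e2
  have hspan : ∀ x : K, x ∈ (A : FI K) ↔ ∃ z : Fin n → ℤ, x = ∑ j, (z j : K) * b' j := by
    intro x
    have h1 : x ∈ (A : FI K) ↔ x ∈ Submodule.span ℤ (Set.range b) := by
      rw [hb, mem_span_basisOfFractionalIdeal]; rfl
    have h2 : Set.range b = Set.range b' := by
      rw [Basis.range_reindex]
    rw [h1, h2, Submodule.mem_span_range_iff_exists_fun]
    constructor
    · rintro ⟨z, rfl⟩
      exact ⟨z, sum_congr rfl fun j _ => by rw [zsmul_eq_mul]⟩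
    · rintro ⟨z, rfl⟩
      exact ⟨z, sum_congr rfl fun j _ => by rw [zsmul_eq_mul]⟩
  refine ⟨‖S.det‖, norm_pos_iff.2 hS, fun P hP hNd => ?_⟩
  obtain ⟨hP1, hP2⟩ := ct_le.1 hP
  have hmon : ∀ i : Fin n, P.1 ^ (i : ℕ) * P.2 ^ (n - 1 - (i : ℕ)) ∈ (A : FI K) := by
    intro i
    have h1 : sp (P.1 ^ (i : ℕ) * P.2 ^ (n - 1 - (i : ℕ))) ≤ (A : FI K) := by
      rw [sp_mul, hA, Units.val_pow_eq_pow_val]
      have h2 : sp (P.1 ^ (i : ℕ)) = sp P.1 ^ (i : ℕ) := by
        rw [sp, sp, spanSingleton_pow]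
      have h3 : sp (P.2 ^ (n - 1 - (i : ℕ))) = sp P.2 ^ (n - 1 - (i : ℕ)) := by
        rw [sp, sp, spanSingleton_pow]
      rw [h2, h3]
      have h4 : (n - 1) = (i : ℕ) + (n - 1 - (i : ℕ)) := by have := i.2; omega
      conv_rhs => rw [h4, pow_add]
      exact mul_le_mul' (pow_le_pow_left' (sp_le.2 hP1) _) (pow_le_pow_left' (sp_le.2 hP2) _)
    exact sp_le.1 h1
  choose m hm using fun i => (hspan _).1 (hmon i)
  let M : Matrix (Fin n) (Fin n) ℤ := Matrix.of m
  have hPV : Matrix.projVandermonde (fun k => (e2 k) P.1) (fun k => (e2 k) P.2) =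
      S * (M.map (Int.castRingHom ℂ)).transpose := by
    ext k i
    rw [Matrix.projVandermonde_apply, Matrix.mul_apply]
    have h1 : ((e2 k) P.1) ^ (i : ℕ) * ((e2 k) P.2) ^ ((Fin.rev i : Fin n) : ℕ) =
        (e2 k) (P.1 ^ (i : ℕ) * P.2 ^ (n - 1 - (i : ℕ))) := by
      rw [map_mul, map_pow, map_pow, Fin.val_rev]
      congr 2
      omega
    rw [h1, hm i, map_sum]
    refine sum_congr rfl fun j _ => ?_
    rw [map_mul, map_intCast, mul_comm]
    rfl
  have hdet := congrArg Matrix.det hPV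
  rw [Matrix.det_projVandermonde, Matrix.det_mul, Matrix.det_transpose] at hdet
  have hdM : (M.map (Int.castRingHom ℂ)).det = ((M.det : ℤ) : ℂ) := by
    have := (RingHom.map_det (Int.castRingHom ℂ) M).symm
    simpa using this
  rw [hdM] at hdet
  have hprod : ∏ q ∈ (univ : Finset (K →+* ℂ)).offDiag, ‖br (vec P q.1) (vec P q.2)‖ =
      (‖S.det‖ * (M.det.natAbs : ℕ)) ^ 2 := by
    have h1 : ∏ q ∈ (univ : Finset (K →+* ℂ)).offDiag, ‖br (vec P q.1) (vec P q.2)‖ =
        ∏ q ∈ (univ : Finset (Fin n)).offDiag, ‖br (vec P (e2 q.1)) (vec P (e2 q.2))‖ := by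
      refine (prod_nbij' (fun q : Fin n × Fin n => (e2 q.1, e2 q.2))
        (fun q => (e2.symm q.1, e2.symm q.2)) ?_ ?_ ?_ ?_ ?_).symm
      · intro q hq
        rw [mem_offDiag] at hq ⊢
        exact ⟨mem_univ _, mem_univ _, fun h => hq.2.2 (e2.injective h)⟩
      · intro q hq
        rw [mem_offDiag] at hq ⊢
        exact ⟨mem_univ _, mem_univ _, fun h => hq.2.2 (e2.symm.injective h)⟩
      · intro q _; simp
      · intro q _; simp
      · intro q _; rfl
    rw [h1, prod_offDiag_of_lt (fun i j => ‖br (vec P (e2 i)) (vec P (e2 j))‖)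
      (fun i j => norm_br_swap _ _)]
    congr 1
    have h2 := congrArg norm hdet
    rw [norm_mul, norm_prod] at h2
    have h3 : ‖((M.det : ℤ) : ℂ)‖ = (M.det.natAbs : ℕ) := by
      rw [Complex.norm_intCast, Nat.cast_natAbs, Int.cast_abs]
    rw [h3] at h2
    rw [← h2]
    refine prod_congr rfl fun i _ => ?_
    rw [norm_prod]
    refine prod_congr rfl fun j _ => ?_
    rw [← norm_neg]
    congr 1
    unfold br vec
    ring
  refine ⟨M.det.natAbs, ?_, hprod, ?_⟩
  · intro h0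
    rw [h0] at hprod
    simp only [Nat.cast_zero, mul_zero, ne_eq, OfNat.ofNat_ne_zero, not_false_eq_true,
      zero_pow] at hprod
    rw [prod_eq_zero_iff] at hprod
    obtain ⟨q, hq, hq'⟩ := hprod
    exact hNd _ _ (mem_offDiag.1 hq).2.2 (norm_eq_zero.1 hq')
  · intro x hx
    have hx' : x ∈ (A : FI K) := by rw [hA, Units.val_pow_eq_pow_val]; exact hx
    obtain ⟨z, hz⟩ := (hspan x).1 hx'
    have key : ((M.det : ℤ) : K) * x = ∑ i, ((Matrix.vecMul z M.adjugate i : ℤ) : K) *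
        (P.1 ^ (i : ℕ) * P.2 ^ (n - 1 - (i : ℕ))) := by
      have h1 : ∀ j, ∑ i, Matrix.vecMul z M.adjugate i * M i j = M.det * z j := by
        intro j
        have h2 : Matrix.vecMul (Matrix.vecMul z M.adjugate) M j = M.det * z j := by
          rw [Matrix.vecMul_vecMul, Matrix.adjugate_mul, Matrix.vecMul_smul, Matrix.vecMul_one]
          rfl
        rw [← h2]
        rfl
      have h3 : ∑ i, ((Matrix.vecMul z M.adjugate i : ℤ) : K) *
          (P.1 ^ (i : ℕ) * P.2 ^ (n - 1 - (i : ℕ))) =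
          ∑ j, (∑ i, ((Matrix.vecMul z M.adjugate i : ℤ) : K) * (M i j : K)) * b' j := by
        simp_rw [hm, mul_sum, sum_mul]
        rw [sum_comm]
        refine sum_congr rfl fun j _ => sum_congr rfl fun i _ => ?_
        rw [mul_assoc]
        rfl
      rw [h3, hz, mul_sum]
      refine sum_congr rfl fun j _ => ?_
      have h4 : (∑ i, ((Matrix.vecMul z M.adjugate i : ℤ) : K) * (M i j : K)) =
          ((M.det * z j : ℤ) : K) := by
        rw [← h1 j]
        push_cast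
        rfl
      rw [h4]
      push_cast
      ring
    rcases Int.natAbs_eq M.det with h1 | h1
    · refine ⟨fun i => Matrix.vecMul z M.adjugate i, ?_⟩
      rw [← key]
      congr 1
      conv_rhs => rw [h1]
      simp
    · refine ⟨fun i => -Matrix.vecMul z M.adjugate i, ?_⟩
      have h2 : ((M.det.natAbs : ℕ) : K) = -((M.det : ℤ) : K) := by
        conv_rhs => rw [h1]
        simp
      rw [h2, neg_mul, key, ← sum_neg_distrib]
      refine sum_congr rfl fun i _ => ?_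
      push_cast
      ring

/-- a multiple root modulo `p` makes the index divisible by `p` -/
theorem prime_dvd_index {p : ℕ} (hp : p.Prime) (hn : 2 ≤ finrank ℚ K) {P : K × K} {J : FI K}
    (hJ : ct P ≤ J) (hJ0 : J ≠ 0)
    (hC : (p : ℚ) ^ 2 * nm J ≤ nm (sp (p : K) * J + sp P.2)) (D : ℕ)
    (hD : ∀ x ∈ (J ^ (finrank ℚ K - 1)), ∃ w : Fin (finrank ℚ K) → ℤ,
        (D : K) * x = ∑ i, (w i : K) * (P.1 ^ (i : ℕ) * P.2 ^ (finrank ℚ K - 1 - (i : ℕ)))) :
    p ∣ D := by
  classical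
  by_contra hpD
  set n := finrank ℚ K with hndef
  obtain ⟨hP1, hP2⟩ := ct_le.1 hJ
  have hpK : (p : K) ≠ 0 := by exact_mod_cast hp.ne_zero
  set C := sp (p : K) * J + sp P.2 with hCdef
  set A := J ^ (n - 1) with hA
  have hA0 : A ≠ 0 := pow_ne_zero _ hJ0
  set L := J⁻¹ * C with hL
  have hCJ : C ≤ J := by
    rw [hCdef, ← sup_eq_add]
    refine sup_le ?_ (sp_le.2 hP2)
    calc sp (p : K) * J ≤ 1 * J := by gcongr; exact sp_natCast_le_one p
      _ = J := one_mul J
  have hL1 : L ≤ 1 := inv_mul_le_one hJ0 hCJ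
  have hLA : L * A = C * J ^ (n - 2) := by
    have : n - 1 = (n - 2) + 1 := by omega
    rw [hL, hA, this, pow_succ]
    calc J⁻¹ * C * (J ^ (n - 2) * J) = (J⁻¹ * J) * (C * J ^ (n - 2)) := by ring
      _ = _ := by rw [inv_mul_cancel₀ hJ0, one_mul]
  -- the decomposition
  have hcop : IsCoprime (D : ℤ) (p : ℤ) := by
    rw [Nat.isCoprime_iff_coprime]
    exact ((Nat.Prime.coprime_iff_not_dvd hp).2 hpD).symm
  obtain ⟨u, v, huv⟩ := hcop
  have huvK : (u : K) * D + v * p = 1 := by exact_mod_cast huv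
  have hmemadd : ∀ {X : FI K} {a b : K}, a ∈ X → b ∈ X → a + b ∈ X := fun {X} {a b} ha hb =>
    (X : Submodule (𝓞 K) K).add_mem ha hb
  have hdec : ∀ x ∈ A, ∃ m : ℤ, x - (m : K) * P.1 ^ (n - 1) ∈ L * A := by
    intro x hx
    obtain ⟨w, hw⟩ := hD x hx
    have hlt : n - 1 < n := by omega
    refine ⟨u * w ⟨n - 1, hlt⟩, ?_⟩
    have h1 : x = (u : K) * ((D : K) * x) + (p : K) * ((v : K) * x) := by
      linear_combination (-x) * huvK
    have h2 : x - ((u * w ⟨n - 1, hlt⟩ : ℤ) : K) * P.1 ^ (n - 1) =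
        (∑ i ∈ univ.erase (⟨n - 1, hlt⟩ : Fin n), ((u * w i : ℤ) : K) *
          (P.1 ^ (i : ℕ) * P.2 ^ (n - 1 - (i : ℕ)))) + (p : K) * ((v : K) * x) := by
      conv_lhs => rw [h1, hw]
      rw [mul_sum, ← add_sum_erase univ _ (mem_univ (⟨n - 1, hlt⟩ : Fin n))]
      have h3 : ∀ i : Fin n, (u : K) * ((w i : K) * (P.1 ^ (i : ℕ) * P.2 ^ (n - 1 - (i : ℕ)))) =
          ((u * w i : ℤ) : K) * (P.1 ^ (i : ℕ) * P.2 ^ (n - 1 - (i : ℕ))) := by
        intro i; push_cast; ring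
      simp_rw [h3]
      simp only [Nat.sub_self, pow_zero, mul_one]
      ring
    rw [h2, hLA]
    refine hmemadd ?_ ?_
    · refine (C * J ^ (n - 2) : FI K).coeToSubmodule.sum_mem fun i hi => ?_
      refine intCast_mul_mem _ (sp_le.1 ?_)
      have hin : (i : ℕ) < n - 1 := by
        have h4 : i ≠ ⟨n - 1, hlt⟩ := (mem_erase.1 hi).1
        have h5 : (i : ℕ) ≠ n - 1 := fun h => h4 (Fin.ext h)
        have := i.2
        omega
      have h6 : P.1 ^ (i : ℕ) * P.2 ^ (n - 1 - (i : ℕ)) =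
          P.2 * (P.1 ^ (i : ℕ) * P.2 ^ (n - 2 - (i : ℕ))) := by
        have : n - 1 - (i : ℕ) = (n - 2 - (i : ℕ)) + 1 := by omega
        rw [this, pow_succ]; ring
      rw [h6, sp_mul]
      refine mul_le_mul' ?_ ?_
      · rw [hCdef, ← sup_eq_add]; exact le_sup_right
      · rw [sp_mul, show sp (P.1 ^ (i : ℕ)) = sp P.1 ^ (i : ℕ) by rw [sp, sp, spanSingleton_pow],
          show sp (P.2 ^ (n - 2 - (i : ℕ))) = sp P.2 ^ (n - 2 - (i : ℕ)) by
            rw [sp, sp, spanSingleton_pow]]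
        have h7 : n - 2 = (i : ℕ) + (n - 2 - (i : ℕ)) := by omega
        conv_rhs => rw [h7, pow_add]
        exact mul_le_mul' (pow_le_pow_left' (sp_le.2 hP1) _) (pow_le_pow_left' (sp_le.2 hP2) _)
    · refine sp_le.1 ?_
      rw [sp_mul]
      have h8 : sp ((v : K) * x) ≤ A := sp_le.2 (intCast_mul_mem v hx)
      have h9 : A = J * J ^ (n - 2) := by
        rw [hA, ← pow_succ']; congr 1; omega
      calc sp (p : K) * sp ((v : K) * x) ≤ sp (p : K) * (J * J ^ (n - 2)) := by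
            rw [← h9]; gcongr
        _ = (sp (p : K) * J) * J ^ (n - 2) := by ring
        _ ≤ C * J ^ (n - 2) := by
            gcongr
            rw [hCdef, ← sup_eq_add]; exact le_sup_left
  have hα : P.1 ^ (n - 1) ∈ A := by
    refine sp_le.1 ?_
    rw [show sp (P.1 ^ (n - 1)) = sp P.1 ^ (n - 1) by rw [sp, sp, spanSingleton_pow], hA]
    exact pow_le_pow_left' (sp_le.2 hP1) _
  have hsmul : ∀ {X : FI K} (y : 𝓞 K) {a : K}, a ∈ X → (y : K) * a ∈ X := fun {X} y {a} ha => by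
    have := (X : Submodule (𝓞 K) K).smul_mem y ha
    rwa [Algebra.smul_def] at this
  obtain ⟨L0, hL0⟩ := exists_ideal hL1
  have hOdec : ∀ y : 𝓞 K, ∃ m : ℤ, y - (m : 𝓞 K) ∈ L0 := by
    intro y
    obtain ⟨m, hm⟩ := hdec _ (hsmul y hα)
    refine ⟨m, ?_⟩
    have h1 : sp ((y : K) - m) * A ≤ L * A := by
      rw [FractionalIdeal.mul_le]
      intro a ha x hx
      rw [mem_spanSingleton] at ha
      obtain ⟨z, rfl⟩ := ha
      obtain ⟨m', hm'⟩ := hdec x hx
      have h2 : (z • ((y : K) - m)) * x = (m' : K) * ((z : K) * ((y : K) * P.1 ^ (n - 1) -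
          m * P.1 ^ (n - 1))) + ((z * (y - (m : 𝓞 K)) : 𝓞 K) : K) *
            (x - m' * P.1 ^ (n - 1)) := by
        rw [Algebra.smul_def]
        have hc : ((z * (y - (m : 𝓞 K)) : 𝓞 K) : K) = (z : K) * ((y : K) - m) := by
          change algebraMap (𝓞 K) K (z * (y - (m : 𝓞 K))) = _
          rw [map_mul, map_sub, map_intCast]
        rw [hc]
        ring
      rw [h2]
      exact hmemadd (intCast_mul_mem _ (hsmul z hm)) (hsmul _ hm')
    have h3 : sp ((y : K) - m) ≤ L := by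
      calc sp ((y : K) - m) = sp ((y : K) - m) * A * A⁻¹ := by
            rw [mul_assoc, mul_inv_cancel₀ hA0, mul_one]
        _ ≤ L * A * A⁻¹ := by gcongr
        _ = L := by rw [mul_assoc, mul_inv_cancel₀ hA0, mul_one]
    rw [← hL0, sp_le] at h3
    rw [mem_coeIdeal] at h3
    obtain ⟨y', hy', hy''⟩ := h3
    have h4 : y' = y - (m : 𝓞 K) := by
      apply RingOfIntegers.ext
      change algebraMap (𝓞 K) K y' = algebraMap (𝓞 K) K (y - (m : 𝓞 K))
      rw [map_sub, map_intCast]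
      exact hy''
    rwa [← h4]
  have hpL0 : (p : 𝓞 K) ∈ L0 := by
    have h1 : sp (p : K) ≤ L := by
      calc sp (p : K) = J⁻¹ * (sp (p : K) * J) := by
            rw [mul_comm (sp (p : K)), ← mul_assoc, inv_mul_cancel₀ hJ0, one_mul]
        _ ≤ J⁻¹ * C := by
            gcongr
            rw [hCdef, ← sup_eq_add]; exact le_sup_left
    rw [← hL0, sp_le, mem_coeIdeal] at h1
    obtain ⟨y', hy', hy''⟩ := h1
    have h4 : y' = (p : 𝓞 K) := by
      apply RingOfIntegers.ext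
      change algebraMap (𝓞 K) K y' = algebraMap (𝓞 K) K (p : 𝓞 K)
      rw [map_natCast]
      exact hy''
    rwa [← h4]
  have hcard : Ideal.absNorm L0 ≤ p := by
    rw [Ideal.absNorm_apply, Submodule.cardQuot_apply]
    have hsurj : Function.Surjective fun r : Fin p => (Ideal.Quotient.mk L0 ((r : ℕ) : 𝓞 K)) := by
      intro z
      obtain ⟨y, rfl⟩ := Ideal.Quotient.mk_surjective z
      obtain ⟨m, hm⟩ := hOdec y
      have hp0 : (0 : ℤ) < p := by exact_mod_cast hp.pos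
      have h0 : 0 ≤ m % p := Int.emod_nonneg _ hp0.ne'
      have h1 : m % p < p := Int.emod_lt_of_pos _ hp0
      refine ⟨⟨(m % p).toNat, by omega⟩, ?_⟩
      simp only
      rw [Ideal.Quotient.eq]
      have h2 : ((((m % p).toNat : ℕ) : 𝓞 K)) = ((m % p : ℤ) : 𝓞 K) := by
        have : (((m % p).toNat : ℕ) : ℤ) = m % p := Int.toNat_of_nonneg h0
        exact_mod_cast congrArg (Int.cast : ℤ → 𝓞 K) this
      rw [h2]
      have h3 : ((m % p : ℤ) : 𝓞 K) = (m : 𝓞 K) - (p : 𝓞 K) * ((m / p : ℤ) : 𝓞 K) := by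
        have : m % p = m - p * (m / p) := by rw [Int.emod_def]
        rw [this]; push_cast; ring
      rw [h3]
      have h4 : (m : 𝓞 K) - (p : 𝓞 K) * ((m / p : ℤ) : 𝓞 K) - y =
          -(y - (m : 𝓞 K)) - (p : 𝓞 K) * ((m / p : ℤ) : 𝓞 K) := by ring
      rw [h4]
      exact L0.sub_mem (L0.neg_mem hm) (L0.mul_mem_right _ hpL0)
    have := Nat.card_le_card_of_surjective _ hsurj
    rwa [Nat.card_fin] at this
  have h1 : nm C = nm J * nm L := by
    rw [hL, nm, nm, nm, ← map_mul, ← mul_assoc, mul_inv_cancel₀ hJ0, one_mul]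
  have h2 : nm L ≤ p := by
    rw [← hL0, nm, coeIdeal_absNorm]
    exact_mod_cast hcard
  have h3 := nm_pos hJ0
  have h4 : (p : ℚ) ^ 2 ≤ p := by
    rw [h1] at hC
    have : (p : ℚ) ^ 2 * nm J ≤ p * nm J := by nlinarith
    exact le_of_mul_le_mul_right this h3
  have h5 : (2 : ℚ) ≤ p := by exact_mod_cast hp.two_le
  nlinarith

end

end Pool.Agent.Y714.KF
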