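import Pool.Agent.Y714.ML.Hall

set_option autoImplicit false
set_option linter.unusedSectionVars false
set_option linter.unusedSimpArgs false

/-! Frames for tuples of vectors in the complex plane. -/

namespace Pool.Agent.Y714.KF

open Finset

/-- the bracket of two vectors -/
def br (x y : ℂ × ℂ) : ℂ := x.1 * y.2 - x.2 * y.1

theorem br_swap (x y : ℂ × ℂ) : br y x = -br x y := by unfold br; ring

theorem br_self (x : ℂ × ℂ) : br x x = 0 := by unfold br; ring

theorem norm_br_swap (x y : ℂ × ℂ) : ‖br y x‖ = ‖br x y‖ := by rw [br_swap, norm_neg]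

theorem norm_br_le (x y : ℂ × ℂ) : ‖br x y‖ ≤ 2 * ‖x‖ * ‖y‖ := by
  unfold br
  have h1 : ‖x.1‖ ≤ ‖x‖ := norm_fst_le x
  have h2 : ‖x.2‖ ≤ ‖x‖ := norm_snd_le x
  have h3 : ‖y.1‖ ≤ ‖y‖ := norm_fst_le y
  have h4 : ‖y.2‖ ≤ ‖y‖ := norm_snd_le y
  calc ‖x.1 * y.2 - x.2 * y.1‖ ≤ ‖x.1 * y.2‖ + ‖x.2 * y.1‖ := norm_sub_le _ _
    _ = ‖x.1‖ * ‖y.2‖ + ‖x.2‖ * ‖y.1‖ := by rw [norm_mul, norm_mul]
    _ ≤ ‖x‖ * ‖y‖ + ‖x‖ * ‖y‖ := by gcongr
    _ = 2 * ‖x‖ * ‖y‖ := by ring

section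

variable {J : Type} [Fintype J] [DecidableEq J]

/-- the maximum of the monomials of degree two in every vector -/
noncomputable def pm (v : J → ℂ × ℂ) : ℝ :=
  univ.sup' univ_nonempty fun π : Equiv.Perm J => ∏ j, ‖br (v j) (v (π j))‖

theorem le_pm (v : J → ℂ × ℂ) (π : Equiv.Perm J) : ∏ j, ‖br (v j) (v (π j))‖ ≤ pm v :=
  le_sup' (fun π : Equiv.Perm J => ∏ j, ‖br (v j) (v (π j))‖) (mem_univ π)

theorem pm_le {v : J → ℂ × ℂ} {c : ℝ} (h : ∀ π : Equiv.Perm J, ∏ j, ‖br (v j) (v (π j))‖ ≤ c) :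
    pm v ≤ c := sup'_le _ _ fun π _ => h π

theorem exists_pm (v : J → ℂ × ℂ) : ∃ π : Equiv.Perm J, pm v = ∏ j, ‖br (v j) (v (π j))‖ := by
  obtain ⟨π, _, h⟩ := exists_mem_eq_sup' (univ_nonempty (α := Equiv.Perm J))
    fun π : Equiv.Perm J => ∏ j, ‖br (v j) (v (π j))‖
  exact ⟨π, h⟩

theorem pm_nonneg (v : J → ℂ × ℂ) : 0 ≤ pm v :=
  (prod_nonneg fun _ _ => norm_nonneg _).trans (le_pm v 1)

theorem pm_congr {v w : J → ℂ × ℂ} (h : ∀ i j, ‖br (v i) (v j)‖ = ‖br (w i) (w j)‖) :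
    pm v = pm w := by
  unfold pm
  congr 1
  funext π
  exact prod_congr rfl fun j _ => h _ _

theorem pm_upper (v : J → ℂ × ℂ) : pm v ≤ 2 ^ Fintype.card J * ∏ j, ‖v j‖ ^ 2 := by
  refine pm_le fun π => ?_
  calc ∏ j, ‖br (v j) (v (π j))‖ ≤ ∏ j, (2 * (‖v j‖ * ‖v (π j)‖)) :=
        prod_le_prod (fun _ _ => norm_nonneg _) fun j _ => by
          have := norm_br_le (v j) (v (π j)); linarith
    _ = 2 ^ Fintype.card J * ((∏ j, ‖v j‖) * ∏ j, ‖v (π j)‖) := by
        rw [prod_mul_distrib, prod_mul_distrib, prod_const, card_univ]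
    _ = 2 ^ Fintype.card J * ∏ j, ‖v j‖ ^ 2 := by
        rw [Equiv.prod_comp π fun j => ‖v j‖, prod_pow, sq]

/-- adapted coordinates at a nonzero vector -/
theorem exists_adapted (x : ℂ × ℂ) (hx : x ≠ 0) : ∃ a b c d : ℂ, a * d - b * c = 1 ∧
    ∀ y : ℂ × ℂ, ‖a * y.1 + b * y.2‖ ≤ ‖y‖ ∧ ‖x‖ * ‖c * y.1 + d * y.2‖ = ‖br x y‖ := by
  have hx0 : 0 < ‖x‖ := norm_pos_iff.2 hx
  have hxc : (‖x‖ : ℂ) ≠ 0 := by exact_mod_cast hx0.ne'
  rcases le_total ‖x.2‖ ‖x.1‖ with h | h
  · have hm : ‖x‖ = ‖x.1‖ := by rw [Prod.norm_def, max_eq_left h]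
    have h1 : x.1 ≠ 0 := fun h0 => by rw [h0, norm_zero] at hm; exact hx0.ne' hm
    refine ⟨(‖x‖ : ℂ) / x.1, 0, -x.2 / ‖x‖, x.1 / ‖x‖, ?_, fun y => ⟨?_, ?_⟩⟩
    · field_simp; ring
    · rw [zero_mul, add_zero, norm_mul, norm_div, Complex.norm_real, norm_norm, hm,
        div_self (norm_ne_zero_iff.2 h1), one_mul]
      exact norm_fst_le y
    · have : (-x.2 / ‖x‖) * y.1 + (x.1 / ‖x‖) * y.2 = br x y / ‖x‖ := by unfold br; ring
      rw [this, norm_div, Complex.norm_real, norm_norm]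
      field_simp
  · have hm : ‖x‖ = ‖x.2‖ := by rw [Prod.norm_def, max_eq_right h]
    have h1 : x.2 ≠ 0 := fun h0 => by rw [h0, norm_zero] at hm; exact hx0.ne' hm
    refine ⟨0, (‖x‖ : ℂ) / x.2, -x.2 / ‖x‖, x.1 / ‖x‖, ?_, fun y => ⟨?_, ?_⟩⟩
    · field_simp; ring
    · rw [zero_mul, zero_add, norm_mul, norm_div, Complex.norm_real, norm_norm, hm,
        div_self (norm_ne_zero_iff.2 h1), one_mul]
      exact norm_snd_le y
    · have : (-x.2 / ‖x‖) * y.1 + (x.1 / ‖x‖) * y.2 = br x y / ‖x‖ := by unfold br; ring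
      rw [this, norm_div, Complex.norm_real, norm_norm]
      field_simp

/-- far vectors -/
def Far (c : ℝ) (x y : ℂ × ℂ) : Prop := c * (‖x‖ * ‖y‖) ≤ ‖br x y‖

noncomputable instance (c : ℝ) : DecidableRel (Far c) := fun _ _ => Classical.dec _

/-- A frame in which the vectors are well distributed. -/
theorem exists_frame (v : J → ℂ × ℂ) (hv : 0 < pm v) :
    ∃ w : J → ℂ × ℂ, (∀ i j, br (w i) (w j) = br (v i) (v j)) ∧ (∀ j, w j ≠ 0) ∧
      ∀ j, 2 * (univ.filter fun k => ¬ Far ((1 / 2 ^ (Fintype.card J + 2)) ^ 2 : ℝ) (w j) (w k)).card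
        ≤ Fintype.card J := by
  classical
  set n := Fintype.card J with hn
  -- the set of products
  let act : (ℂ × ℂ × ℂ × ℂ) → J → ℂ × ℂ := fun g j =>
    (g.1 * (v j).1 + g.2.1 * (v j).2, g.2.2.1 * (v j).1 + g.2.2.2 * (v j).2)
  let G : Set (ℂ × ℂ × ℂ × ℂ) := {g | g.1 * g.2.2.2 - g.2.1 * g.2.2.1 = 1}
  let f : (ℂ × ℂ × ℂ × ℂ) → ℝ := fun g => ∏ j, ‖act g j‖
  have hact : ∀ g ∈ G, ∀ i j, br (act g i) (act g j) = br (v i) (v j) := by
    intro g hg i j
    have : br (act g i) (act g j) = (g.1 * g.2.2.2 - g.2.1 * g.2.2.1) * br (v i) (v j) := by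
      simp only [act, br]; ring
    rw [this, show g.1 * g.2.2.2 - g.2.1 * g.2.2.1 = 1 from hg, one_mul]
  have hpm : ∀ g ∈ G, pm v ≤ 2 ^ n * f g ^ 2 := by
    intro g hg
    have h1 : pm v = pm (act g) := pm_congr fun i j => by rw [hact g hg]
    rw [h1]
    refine (pm_upper _).trans_eq ?_
    rw [prod_pow]
  have hfpos : ∀ g ∈ G, 0 < f g := by
    intro g hg
    have h1 : 0 ≤ f g := prod_nonneg fun _ _ => norm_nonneg _
    rcases h1.eq_or_lt with h2 | h2
    · exfalso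
      have := hpm g hg
      rw [← h2] at this
      norm_num at this
      linarith
    · exact h2
  have hne : (f '' G).Nonempty := ⟨_, (1, 0, 0, 1), by simp [G], rfl⟩
  have hbdd : BddBelow (f '' G) := ⟨0, by rintro _ ⟨g, hg, rfl⟩; exact (hfpos g hg).le⟩
  have hI : 0 < sInf (f '' G) := by
    have h1 : Real.sqrt (pm v / 2 ^ n) ≤ sInf (f '' G) := by
      refine le_csInf hne ?_
      rintro _ ⟨g, hg, rfl⟩
      rw [Real.sqrt_le_left (hfpos g hg).le, div_le_iff₀ (by positivity)]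
      linarith [hpm g hg]
    have h2 : 0 < Real.sqrt (pm v / 2 ^ n) := Real.sqrt_pos.2 (by positivity)
    linarith
  obtain ⟨_, ⟨g, hg, rfl⟩, hlt⟩ := exists_lt_of_csInf_lt hne (show sInf (f '' G) <
    2 * sInf (f '' G) by linarith)
  have hmin : ∀ g' ∈ G, f g < 2 * f g' := by
    intro g' hg'
    have := csInf_le hbdd ⟨g', hg', rfl⟩
    linarith
  have hw0 : ∀ j, act g j ≠ 0 := by
    intro j h0
    have h1 := (hfpos g hg).ne'
    exact h1 (prod_eq_zero (mem_univ j) (by rw [h0, norm_zero]))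
  refine ⟨act g, hact g hg, hw0, fun j => ?_⟩
  by_contra hcon
  push Not at hcon
  obtain ⟨a, b, c, d, hdet, had⟩ := exists_adapted (act g j) (hw0 j)
  set t : ℝ := 2 ^ (n + 2) with ht
  have ht0 : 0 < t := by positivity
  have ht1 : 1 ≤ t := one_le_pow₀ (by norm_num)
  have htc : (t : ℂ) ≠ 0 := by exact_mod_cast ht0.ne'
  -- the stretched frame
  let g' : ℂ × ℂ × ℂ × ℂ := ((a * g.1 + b * g.2.2.1) / t, (a * g.2.1 + b * g.2.2.2) / t,
    (c * g.1 + d * g.2.2.1) * t, (c * g.2.1 + d * g.2.2.2) * t)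
  have hg' : g' ∈ G := by
    change (a * g.1 + b * g.2.2.1) / t * ((c * g.2.1 + d * g.2.2.2) * t) -
      (a * g.2.1 + b * g.2.2.2) / t * ((c * g.1 + d * g.2.2.1) * t) = 1
    have h1 : (a * g.1 + b * g.2.2.1) / t * ((c * g.2.1 + d * g.2.2.2) * t) -
      (a * g.2.1 + b * g.2.2.2) / t * ((c * g.1 + d * g.2.2.1) * t) =
      (a * d - b * c) * (g.1 * g.2.2.2 - g.2.1 * g.2.2.1) := by
      field_simp; ring
    rw [h1, hdet, show g.1 * g.2.2.2 - g.2.1 * g.2.2.1 = 1 from hg, one_mul]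
  have hval : ∀ k, act g' k = ((a * (act g k).1 + b * (act g k).2) / t,
      (c * (act g k).1 + d * (act g k).2) * t) := by
    intro k
    simp only [act, g']
    ext <;> ring
  have hbound : ∀ k, ‖act g' k‖ ≤
      (if Far ((1 / 2 ^ (n + 2)) ^ 2 : ℝ) (act g j) (act g k) then 2 * t else 1 / t) *
        ‖act g k‖ := by
    intro k
    have hj0 : 0 < ‖act g j‖ := norm_pos_iff.2 (hw0 j)
    have e1 : ‖(a * (act g k).1 + b * (act g k).2) / (t : ℂ)‖ ≤ ‖act g k‖ / t := by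
      rw [norm_div, Complex.norm_real, Real.norm_of_nonneg ht0.le]
      gcongr
      exact (had (act g k)).1
    have e2 : ‖(c * (act g k).1 + d * (act g k).2) * (t : ℂ)‖ =
        ‖br (act g j) (act g k)‖ / ‖act g j‖ * t := by
      rw [norm_mul, Complex.norm_real, Real.norm_of_nonneg ht0.le, ← (had (act g k)).2]
      field_simp
    rw [hval, Prod.norm_def]
    refine max_le ?_ ?_
    · refine e1.trans ?_
      split_ifs with hf
      · have : ‖act g k‖ / t ≤ 2 * t * ‖act g k‖ := by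
          rw [div_le_iff₀ ht0]
          have h0 := norm_nonneg (act g k)
          have h9 : 1 ≤ 2 * t * t := by nlinarith
          nlinarith
        exact this
      · rw [one_div, inv_mul_eq_div]
    · rw [e2]
      split_ifs with hf
      swap
      · unfold Far at hf
        push Not at hf
        have h1 : ‖br (act g j) (act g k)‖ / ‖act g j‖ * t ≤
            (1 / 2 ^ (n + 2)) ^ 2 * (‖act g j‖ * ‖act g k‖) / ‖act g j‖ * t := by
          gcongr
        refine h1.trans_eq ?_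
        rw [← ht]
        field_simp
      · have h1 := norm_br_le (act g j) (act g k)
        have h2 : ‖br (act g j) (act g k)‖ / ‖act g j‖ ≤ 2 * ‖act g k‖ := by
          rw [div_le_iff₀ hj0]; linarith
        nlinarith
  set S := univ.filter fun k => ¬ Far ((1 / 2 ^ (n + 2)) ^ 2 : ℝ) (act g j) (act g k) with hS
  have h1 : f g' ≤ (1 / t) ^ S.card * (2 * t) ^ (n - S.card) * f g := by
    calc f g' = ∏ k, ‖act g' k‖ := rfl
      _ ≤ ∏ k, ((if Far ((1 / 2 ^ (n + 2)) ^ 2 : ℝ) (act g j) (act g k) then 2 * t else 1 / t) *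
        ‖act g k‖) := prod_le_prod (fun _ _ => norm_nonneg _) fun k _ => hbound k
      _ = _ := by
        rw [prod_mul_distrib, prod_ite, prod_const, prod_const, mul_comm ((2 * t) ^ _)]
        congr 3
        have := card_filter_add_card_filter_not (s := (univ : Finset J))
          (fun k => Far ((1 / 2 ^ (n + 2)) ^ 2 : ℝ) (act g j) (act g k))
        rw [card_univ] at this
        rw [hS]
        omega
  have h2 := hmin g' hg'
  have hSn : S.card ≤ n := by
    have := card_le_univ S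
    simpa [hn] using this
  have h3 : (1 / t) ^ S.card * (2 * t) ^ (n - S.card) ≤ 1 / 4 := by
    obtain ⟨r, hr⟩ : ∃ r, n = S.card + r := ⟨_, (Nat.add_sub_of_le hSn).symm⟩
    have h4 : r + 1 ≤ S.card := by omega
    obtain ⟨u, hu⟩ : ∃ u, S.card = r + 1 + u := ⟨_, (Nat.add_sub_of_le h4).symm⟩
    have h5 : n - S.card = r := by omega
    rw [h5, hu]
    have h6 : (1 / t) ^ (r + 1 + u) * (2 * t) ^ r = 2 ^ r * (1 / t) * (1 / t) ^ u := by
      rw [mul_pow, pow_add, pow_add, pow_one]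
      have : (1 / t) ^ r * t ^ r = 1 := by
        rw [← mul_pow, one_div, inv_mul_cancel₀ ht0.ne', one_pow]
      calc (1 / t) ^ r * (1 / t) * (1 / t) ^ u * (2 ^ r * t ^ r) =
          ((1 / t) ^ r * t ^ r) * (2 ^ r * (1 / t) * (1 / t) ^ u) := by ring
        _ = _ := by rw [this, one_mul]
    rw [h6]
    have h7 : (1 / t) ^ u ≤ 1 := pow_le_one₀ (by positivity) (by rw [div_le_one ht0]; exact ht1)
    have h8 : (2 : ℝ) ^ r * (1 / t) ≤ 1 / 4 := by
      rw [mul_one_div, div_le_iff₀ ht0, ht, pow_add]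
      have : (2 : ℝ) ^ r ≤ 2 ^ n := pow_le_pow_right₀ (by norm_num) (by omega)
      linarith
    calc 2 ^ r * (1 / t) * (1 / t) ^ u ≤ (1 / 4) * 1 := by
          apply mul_le_mul h8 h7 (by positivity) (by norm_num)
      _ = 1 / 4 := by ring
  have h4 : f g' ≤ 1 / 4 * f g := h1.trans (mul_le_mul_of_nonneg_right h3 (hfpos g hg).le)
  have h5 := hfpos g hg
  linarith

/-- a tuple with one vector repeated -/
def ext (v : J → ℂ × ℂ) (σ : J) : Option J → ℂ × ℂ := fun o => v (o.getD σ)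

omit [Fintype J] [DecidableEq J] in
theorem ext_some (v : J → ℂ × ℂ) (σ j : J) : ext v σ (some j) = v j := rfl
omit [Fintype J] [DecidableEq J] in
theorem ext_none (v : J → ℂ × ℂ) (σ : J) : ext v σ none = v σ := rfl

theorem pm_lower {c : ℝ} (hc : 0 ≤ c) (w : J → ℂ × ℂ)
    (h : ∀ j, 2 * (univ.filter fun k => ¬ Far c (w j) (w k)).card ≤ Fintype.card J) :
    c ^ Fintype.card J * ∏ j, ‖w j‖ ^ 2 ≤ pm w := by
  classical
  obtain ⟨π, hπ⟩ := ML.exists_perm_of_dense (fun j k => Far c (w j) (w k))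
    (fun j k hjk => by unfold Far at hjk ⊢; rw [norm_br_swap, mul_comm ‖w k‖]; exact hjk)
    (fun j => by convert h j)
  refine le_trans ?_ (le_pm w π)
  calc c ^ Fintype.card J * ∏ j, ‖w j‖ ^ 2 = ∏ j, (c * (‖w j‖ * ‖w (π j)‖)) := by
        rw [prod_mul_distrib, prod_mul_distrib, prod_const, card_univ,
          Equiv.prod_comp π fun j => ‖w j‖, prod_pow, sq]
    _ ≤ _ := prod_le_prod (fun j _ => by positivity) fun j _ => hπ j

/-- the frame theorem -/
theorem frame (hodd : Odd (Fintype.card J)) : ∃ C : ℝ, 0 < C ∧ ∀ v : J → ℂ × ℂ, 0 < pm v →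
    ∃ w : J → ℂ × ℂ, (∀ i j, br (w i) (w j) = br (v i) (v j)) ∧ (∀ j, w j ≠ 0) ∧
      ∏ j, ‖w j‖ ^ 2 ≤ C * pm v ∧
      ∀ σ, ‖w σ‖ ^ 2 * ∏ j, ‖w j‖ ^ 2 ≤ C * pm (ext v σ) := by
  classical
  set n := Fintype.card J with hn
  set c : ℝ := (1 / 2 ^ (n + 2)) ^ 2 with hc
  have hc0 : 0 < c := by positivity
  have hc1 : c ≤ 1 := by
    rw [hc]
    refine pow_le_one₀ (by positivity) ?_
    rw [div_le_one (by positivity)]
    exact one_le_pow₀ (by norm_num)
  refine ⟨1 / c ^ (n + 1), by positivity, fun v hv => ?_⟩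
  obtain ⟨w, hw, hw0, hnear⟩ := exists_frame v hv
  refine ⟨w, hw, hw0, ?_, fun σ => ?_⟩
  · have h1 := pm_lower hc0.le w hnear
    have h2 : pm v = pm w := pm_congr fun i j => by rw [hw]
    rw [h2]
    have h3 : c ^ (n + 1) * ∏ j, ‖w j‖ ^ 2 ≤ pm w := by
      refine le_trans ?_ h1
      refine mul_le_mul_of_nonneg_right ?_ (prod_nonneg fun _ _ => by positivity)
      exact pow_le_pow_of_le_one hc0.le hc1 (Nat.le_succ n)
    rw [one_div, inv_mul_eq_div, le_div_iff₀ (by positivity)]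
    linarith
  · have h2 : pm (ext v σ) = pm (ext w σ) := pm_congr fun i j => by
      unfold ext; rw [hw]
    rw [h2]
    have hcard : Fintype.card (Option J) = n + 1 := by rw [Fintype.card_option]
    have h1 := pm_lower hc0.le (ext w σ) (fun o => by
      have e1 : (univ.filter fun k => ¬ Far c (ext w σ o) (ext w σ k)).card ≤
          (univ.filter fun k => ¬ Far c (w (o.getD σ)) (w k)).card + 1 := by
        have : (univ.filter fun k => ¬ Far c (ext w σ o) (ext w σ k)) ⊆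
            insert none ((univ.filter fun k => ¬ Far c (w (o.getD σ)) (w k)).image some) := by
          intro k hk
          rw [mem_filter] at hk
          cases k with
          | none => exact mem_insert_self _ _
          | some k =>
            refine mem_insert_of_mem (mem_image_of_mem _ (mem_filter.2 ⟨mem_univ _, ?_⟩))
            exact hk.2
        refine (card_le_card this).trans ((card_insert_le _ _).trans ?_)
        exact Nat.add_le_add_right card_image_le 1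
      have e2 := hnear (o.getD σ)
      rw [hcard]
      obtain ⟨r, hr⟩ := hodd
      have e3 : 2 * (univ.filter fun k => ¬ Far c (w (o.getD σ)) (w k)).card ≤ n := by
        convert e2
      omega)
    rw [hcard, Fintype.prod_option] at h1
    simp only [ext_none, ext_some] at h1
    rw [one_div, inv_mul_eq_div, le_div_iff₀ (by positivity)]
    linarith

/-- the three inequalities -/
theorem ineqs (hodd : Odd (Fintype.card J)) : ∃ C : ℝ, 0 < C ∧ ∀ v : J → ℂ × ℂ, 0 < pm v →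
    (∀ σ, 0 < pm (ext v σ)) ∧
    (∀ i j, (‖br (v i) (v j)‖ * pm v) ^ 2 ≤ C * (pm (ext v i) * pm (ext v j))) ∧
    (∏ σ, pm (ext v σ) ≤ C * pm v ^ (Fintype.card J + 1)) ∧
    (∏ q ∈ (univ : Finset J).offDiag, ‖br (v q.1) (v q.2)‖ ≤ C * pm v ^ (Fintype.card J - 1)) := by
  classical
  obtain ⟨C, hC, hfr⟩ := frame (J := J) hodd
  set n := Fintype.card J with hn
  have hn1 : 1 ≤ n := by obtain ⟨r, hr⟩ := hodd; omega
  set C1 : ℝ := max 1 C with hC1
  have hC1' : 1 ≤ C1 := le_max_left _ _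
  have hCC1 : C ≤ C1 := le_max_right _ _
  refine ⟨(4 * C1) ^ (4 * n ^ 2 + 4), by positivity, fun v hv => ?_⟩
  obtain ⟨w, hw, hw0, h1, h2⟩ := hfr v hv
  set T : ℝ := ∏ j, ‖w j‖ ^ 2 with hT
  have hT0 : 0 < T := prod_pos fun j _ => by
    have := norm_pos_iff.2 (hw0 j); positivity
  have hwpos : ∀ j, 0 < ‖w j‖ := fun j => norm_pos_iff.2 (hw0 j)
  have h4 : (1 : ℝ) ≤ 4 * C1 := by linarith
  have hTle : T ≤ (4 * C1) * pm v := by
    refine h1.trans ?_
    gcongr
    linarith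
  have hpos : ∀ σ, 0 < pm (ext v σ) := by
    intro σ
    have e1 : 0 < ‖w σ‖ ^ 2 * T := by have := hwpos σ; positivity
    have e2 := lt_of_lt_of_le e1 (h2 σ)
    exact (mul_pos_iff_of_pos_left hC).1 e2
  have hpmT : pm v ≤ 2 ^ n * T := by
    rw [show pm v = pm w from pm_congr fun i j => by rw [hw]]
    exact pm_upper w
  refine ⟨hpos, fun i j => ?_, ?_, ?_⟩
  · have e1 : ‖br (v i) (v j)‖ ≤ 2 * ‖w i‖ * ‖w j‖ := by rw [← hw]; exact norm_br_le _ _
    have e2 : ‖br (v i) (v j)‖ * pm v ≤ (2 * ‖w i‖ * ‖w j‖) * (2 ^ n * T) :=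
      mul_le_mul e1 hpmT (pm_nonneg v) (by have := hwpos i; have := hwpos j; positivity)
    have e3 : (‖br (v i) (v j)‖ * pm v) ^ 2 ≤ ((2 * ‖w i‖ * ‖w j‖) * (2 ^ n * T)) ^ 2 :=
      pow_le_pow_left₀ (mul_nonneg (norm_nonneg _) (pm_nonneg v)) e2 2
    refine e3.trans ?_
    have e4 : ((2 * ‖w i‖ * ‖w j‖) * (2 ^ n * T)) ^ 2 =
        (2 ^ (2 * n + 2)) * ((‖w i‖ ^ 2 * T) * (‖w j‖ ^ 2 * T)) := by
      rw [pow_add, mul_comm 2 n, pow_mul]; ring
    rw [e4]
    have e5 : (‖w i‖ ^ 2 * T) * (‖w j‖ ^ 2 * T) ≤ (C * pm (ext v i)) * (C * pm (ext v j)) :=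
      mul_le_mul (h2 i) (h2 j) (by positivity) (mul_nonneg hC.le (hpos i).le)
    have e6 : (2 : ℝ) ^ (2 * n + 2) * (C * C) ≤ (4 * C1) ^ (4 * n ^ 2 + 4) := by
      have f1 : (2 : ℝ) ^ (2 * n + 2) ≤ (4 * C1) ^ (2 * n + 2) :=
        pow_le_pow_left₀ (by norm_num) (by linarith) _
      have f2 : C * C ≤ (4 * C1) ^ 2 := by rw [sq]; apply mul_le_mul <;> linarith
      calc (2 : ℝ) ^ (2 * n + 2) * (C * C) ≤ (4 * C1) ^ (2 * n + 2) * (4 * C1) ^ 2 :=
            mul_le_mul f1 f2 (by positivity) (by positivity)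
        _ = (4 * C1) ^ (2 * n + 2 + 2) := by rw [← pow_add]
        _ ≤ _ := pow_le_pow_right₀ h4 (by nlinarith)
    calc (2 : ℝ) ^ (2 * n + 2) * ((‖w i‖ ^ 2 * T) * (‖w j‖ ^ 2 * T)) ≤
        2 ^ (2 * n + 2) * ((C * pm (ext v i)) * (C * pm (ext v j))) := by gcongr
      _ = (2 ^ (2 * n + 2) * (C * C)) * (pm (ext v i) * pm (ext v j)) := by ring
      _ ≤ _ := mul_le_mul_of_nonneg_right e6 (mul_nonneg (hpos i).le (hpos j).le)
  · -- upper bound of the product
    have e1 : ∀ σ, pm (ext v σ) ≤ 2 ^ (n + 1) * (‖w σ‖ ^ 2 * T) := by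
      intro σ
      rw [show pm (ext v σ) = pm (ext w σ) from pm_congr fun i j => by unfold ext; rw [hw]]
      refine (pm_upper _).trans_eq ?_
      rw [Fintype.card_option, Fintype.prod_option]
      rfl
    calc ∏ σ, pm (ext v σ) ≤ ∏ σ, (2 ^ (n + 1) * (‖w σ‖ ^ 2 * T)) :=
          prod_le_prod (fun σ _ => (hpos σ).le) fun σ _ => e1 σ
      _ = (2 ^ (n + 1)) ^ n * T ^ (n + 1) := by
          rw [prod_mul_distrib, prod_mul_distrib, prod_const, prod_const, card_univ, ← hn,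
            ← hT, pow_succ T n]
          ring
      _ ≤ (4 * C1) ^ ((n + 1) * n) * ((4 * C1) * pm v) ^ (n + 1) := by
          rw [← pow_mul]
          apply mul_le_mul
          · exact pow_le_pow_left₀ (by norm_num) (by linarith) _
          · exact pow_le_pow_left₀ hT0.le hTle _
          · positivity
          · positivity
      _ = (4 * C1) ^ ((n + 1) * n + (n + 1)) * pm v ^ (n + 1) := by
          rw [mul_pow, pow_add]; ring
      _ ≤ (4 * C1) ^ (4 * n ^ 2 + 4) * pm v ^ (n + 1) := by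
          refine mul_le_mul_of_nonneg_right ?_ (pow_nonneg hv.le _)
          exact pow_le_pow_right₀ h4 (by nlinarith)
  · have e1 : ∏ q ∈ (univ : Finset J).offDiag, ‖br (v q.1) (v q.2)‖ ≤
        ∏ q ∈ (univ : Finset J).offDiag, (2 * (‖w q.1‖ * ‖w q.2‖)) :=
      prod_le_prod (fun _ _ => norm_nonneg _) fun q _ => by
        rw [← hw]; have := norm_br_le (w q.1) (w q.2); linarith
    have hfib : ∀ j : J, ((univ : Finset J).erase j).card = n - 1 := fun j => by
      rw [card_erase_of_mem (mem_univ j), card_univ]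
    have e2 : ∏ q ∈ (univ : Finset J).offDiag, ‖w q.1‖ = (∏ j, ‖w j‖) ^ (n - 1) := by
      have h0 : (univ : Finset J).offDiag = ((univ : Finset J) ×ˢ (univ : Finset J)).filter
          (fun q => q.1 ≠ q.2) := by
        ext ⟨a, b⟩
        simp [mem_offDiag]
      rw [h0, prod_filter, prod_product, ← prod_pow]
      refine prod_congr rfl fun a _ => ?_
      simp only
      rw [prod_ite, prod_const, prod_const_one, mul_one]
      congr 1
      rw [← hfib a]
      congr 1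
      ext b
      simp [ne_comm]
    have e3 : ∏ q ∈ (univ : Finset J).offDiag, ‖w q.2‖ = (∏ j, ‖w j‖) ^ (n - 1) := by
      rw [← e2]
      refine prod_nbij' Prod.swap Prod.swap ?_ ?_ ?_ ?_ ?_
      · intro q hq; rw [mem_offDiag] at hq ⊢; exact ⟨hq.2.1, hq.1, hq.2.2.symm⟩
      · intro q hq; rw [mem_offDiag] at hq ⊢; exact ⟨hq.2.1, hq.1, hq.2.2.symm⟩
      · intro q _; rfl
      · intro q _; rfl
      · intro q _; rfl
    rw [prod_mul_distrib, prod_mul_distrib, e2, e3, prod_const] at e1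
    refine e1.trans ?_
    have e4 : (∏ j, ‖w j‖) ^ (n - 1) * (∏ j, ‖w j‖) ^ (n - 1) = T ^ (n - 1) := by
      rw [← mul_pow, hT, prod_pow, sq]
    rw [e4, offDiag_card, card_univ, ← hn]
    calc (2 : ℝ) ^ (n * n - n) * T ^ (n - 1) ≤
        (4 * C1) ^ (n * n) * ((4 * C1) * pm v) ^ (n - 1) := by
          apply mul_le_mul
          · calc (2 : ℝ) ^ (n * n - n) ≤ 2 ^ (n * n) :=
                  pow_le_pow_right₀ (by norm_num) (Nat.sub_le _ _)
              _ ≤ _ := pow_le_pow_left₀ (by norm_num) (by linarith) _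
          · exact pow_le_pow_left₀ hT0.le hTle _
          · positivity
          · positivity
      _ = (4 * C1) ^ (n * n + (n - 1)) * pm v ^ (n - 1) := by rw [mul_pow, pow_add]; ring
      _ ≤ (4 * C1) ^ (4 * n ^ 2 + 4) * pm v ^ (n - 1) := by
          refine mul_le_mul_of_nonneg_right ?_ (pow_nonneg hv.le _)
          refine pow_le_pow_right₀ h4 ?_
          have : n - 1 ≤ n := Nat.sub_le _ _
          nlinarith

end

end Pool.Agent.Y714.KF
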