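import Mathlib

set_option autoImplicit false
set_option linter.unusedSectionVars false
set_option linter.unusedSimpArgs false

/-! Reduction of pairs of vectors. -/

namespace Pool.Agent.Y714.KF

open Finset

/-- lower bound for the values of a reduced form -/
theorem red_ge {A S C : ℝ} (hA : 0 ≤ A) (h1 : A ≤ C) (h2 : 0 ≤ 2 * S) (h3 : 2 * S ≤ A) (i j : ℤ)
    (hij : i ≠ 0 ∨ j ≠ 0) : A ≤ i ^ 2 * A + 2 * i * j * S + j ^ 2 * C := by
  have hz : (1 : ℤ) ≤ i ^ 2 - |i * j| + j ^ 2 := by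
    rw [abs_mul]
    have h4 : i ^ 2 = |i| ^ 2 := (sq_abs i).symm
    have h5 : j ^ 2 = |j| ^ 2 := (sq_abs j).symm
    rw [h4, h5]
    have h6 : 0 ≤ |i| := abs_nonneg i
    have h7 : 0 ≤ |j| := abs_nonneg j
    rcases hij with h | h
    · have : 1 ≤ |i| := Int.one_le_abs h
      rcases le_total |i| |j| with h8 | h8 <;> nlinarith
    · have : 1 ≤ |j| := Int.one_le_abs h
      rcases le_total |i| |j| with h8 | h8 <;> nlinarith
  have hr : (1 : ℝ) ≤ (i : ℝ) ^ 2 - |(i : ℝ) * j| + (j : ℝ) ^ 2 := by exact_mod_cast hz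
  have h4 : -(|(i : ℝ) * j| * A) ≤ 2 * i * j * S := by
    have h5 : -|(i : ℝ) * j| ≤ (i : ℝ) * j := neg_abs_le _
    have h6 : (i : ℝ) * j ≤ |(i : ℝ) * j| := le_abs_self _
    have h7 : 0 ≤ |(i : ℝ) * j| := abs_nonneg _
    nlinarith
  have h5 : (j : ℝ) ^ 2 * A ≤ (j : ℝ) ^ 2 * C := mul_le_mul_of_nonneg_left h1 (sq_nonneg _)
  nlinarith

theorem red_gt {A S C : ℝ} (h1 : A < C) (h2 : 0 ≤ 2 * S) (h3 : 2 * S ≤ A) (i j : ℤ)
    (hj : j ≠ 0) : A < i ^ 2 * A + 2 * i * j * S + j ^ 2 * C := by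
  have h4 := red_ge (A := A) (S := S) (C := A) (by linarith) le_rfl h2 h3 i j (Or.inr hj)
  have h5 : (0 : ℝ) < (j : ℝ) ^ 2 := by positivity
  nlinarith

/-- uniqueness of the reduced basis -/
theorem red_unique {A S C : ℝ} (h1 : A < C) (h2 : 0 < 2 * S) (h3 : 2 * S < A) (m n k l : ℤ)
    (hdet : m * l - n * k = 1 ∨ m * l - n * k = -1)
    (r1 : (m : ℝ) ^ 2 * A + 2 * m * n * S + n ^ 2 * C ≤ k ^ 2 * A + 2 * k * l * S + l ^ 2 * C)
    (r2 : 0 ≤ 2 * ((m : ℝ) * k * A + (m * l + n * k) * S + n * l * C))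
    (r3 : 2 * ((m : ℝ) * k * A + (m * l + n * k) * S + n * l * C) ≤
      (m : ℝ) ^ 2 * A + 2 * m * n * S + n ^ 2 * C) :
    (m = 1 ∧ n = 0 ∧ k = 0 ∧ l = 1) ∨ (m = -1 ∧ n = 0 ∧ k = 0 ∧ l = -1) := by
  have hA : 0 < A := by linarith
  set A' : ℝ := (m : ℝ) ^ 2 * A + 2 * m * n * S + n ^ 2 * C with hA'
  set S' : ℝ := (m : ℝ) * k * A + (m * l + n * k) * S + n * l * C with hS'
  set C' : ℝ := (k : ℝ) ^ 2 * A + 2 * k * l * S + l ^ 2 * C with hC'
  have hA0 : 0 ≤ A' := by linarith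
  have hln : l ≠ 0 ∨ n ≠ 0 := by
    by_contra hcon
    push Not at hcon
    rw [hcon.1, hcon.2] at hdet
    simp at hdet
  have hAA : A' ≤ A := by
    have h4 := red_ge hA0 r1 r2 r3 l (-n) (by rcases hln with h | h <;> simp [h])
    have h5 : (l : ℝ) ^ 2 * A' + 2 * l * ((-n : ℤ) : ℝ) * S' + ((-n : ℤ) : ℝ) ^ 2 * C' =
        ((m : ℝ) * l - n * k) ^ 2 * A := by
      rw [hA', hS', hC']; push_cast; ring
    have h6 : ((m : ℝ) * l - n * k) ^ 2 = 1 := by
      rcases hdet with h | h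
      · have : (m : ℝ) * l - n * k = 1 := by exact_mod_cast h
        rw [this]; norm_num
      · have : (m : ℝ) * l - n * k = -1 := by exact_mod_cast h
        rw [this]; norm_num
    rw [h5, h6, one_mul] at h4
    exact h4
  have hn : n = 0 := by
    by_contra hn
    have := red_gt h1 h2.le h3.le m n hn
    linarith
  subst hn
  simp only [zero_mul, sub_zero, Int.cast_zero, mul_zero, add_zero] at hdet hA' hS'
  have hml : m = 1 ∧ l = 1 ∨ m = 1 ∧ l = -1 ∨ m = -1 ∧ l = 1 ∨ m = -1 ∧ l = -1 := by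
    rcases hdet with h | h
    · rcases Int.mul_eq_one_iff_eq_one_or_neg_one.1 h with h | h <;> simp [h]
    · rcases Int.mul_eq_neg_one_iff_eq_one_or_neg_one.1 h with h | h <;> simp [h]
  have hA1 : A' = A := by
    rw [hA']
    rcases hml with h | h | h | h <;> rw [h.1] <;> norm_num
  rw [hA1] at r3
  have hk : k = 0 := by
    by_contra hk
    have hk' : (1 : ℤ) ≤ k ∨ k ≤ -1 := by omega
    rcases hml with h | h | h | h <;> rw [h.1, h.2] at hS' <;> push_cast at hS' <;>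
      rcases hk' with h' | h'
    all_goals
      first
      | (have h'' : (1 : ℝ) ≤ k := by exact_mod_cast h'
         nlinarith)
      | (have h'' : (k : ℝ) ≤ -1 := by exact_mod_cast h'
         nlinarith)
  subst hk
  rcases hml with h | h | h | h
  · left; simp [h]
  · exfalso; rw [h.1, h.2] at hS'; push_cast at hS'; linarith
  · exfalso; rw [h.1, h.2] at hS'; push_cast at hS'; linarith
  · right; simp [h]

/-- existence of a reduced basis for a positive definite form -/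
theorem red_exists (A S C lam : ℝ) (hlam : 0 < lam)
    (hpos : ∀ m n : ℤ, lam * ((m : ℝ) ^ 2 + n ^ 2) ≤ m ^ 2 * A + 2 * m * n * S + n ^ 2 * C) :
    ∃ m n k l : ℤ, (m * l - n * k = 1 ∨ m * l - n * k = -1) ∧
      (m : ℝ) ^ 2 * A + 2 * m * n * S + n ^ 2 * C ≤ k ^ 2 * A + 2 * k * l * S + l ^ 2 * C ∧
      0 ≤ 2 * ((m : ℝ) * k * A + (m * l + n * k) * S + n * l * C) ∧
      2 * ((m : ℝ) * k * A + (m * l + n * k) * S + n * l * C) ≤
        (m : ℝ) ^ 2 * A + 2 * m * n * S + n ^ 2 * C := by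
  classical
  let q : ℤ → ℤ → ℝ := fun m n => (m : ℝ) ^ 2 * A + 2 * m * n * S + n ^ 2 * C
  let f : ℤ × ℤ × ℤ × ℤ → ℝ := fun g => q g.1 g.2.1 + q g.2.2.1 g.2.2.2
  have hq0 : ∀ m n, 0 ≤ q m n := fun m n => le_trans (by positivity) (hpos m n)
  obtain ⟨N, hN⟩ := exists_nat_ge (f (1, 0, 0, 1) / lam)
  have hbd : ∀ m n : ℤ, q m n ≤ f (1, 0, 0, 1) → m ∈ Icc (-(N : ℤ)) N ∧ n ∈ Icc (-(N : ℤ)) N := by
    intro m n h
    have h1 := hpos m n
    have h2 : (m : ℝ) ^ 2 + n ^ 2 ≤ N := by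
      refine le_trans ?_ hN
      rw [le_div_iff₀ hlam]
      have : lam * ((m : ℝ) ^ 2 + n ^ 2) ≤ f (1, 0, 0, 1) := h1.trans h
      linarith
    have h3 : m ^ 2 + n ^ 2 ≤ (N : ℤ) := by exact_mod_cast h2
    rw [mem_Icc, mem_Icc]
    have h4 : ∀ a : ℤ, a ^ 2 ≤ N → -(N : ℤ) ≤ a ∧ a ≤ N := by
      intro a ha
      constructor
      · by_contra hc
        push Not at hc
        nlinarith
      · by_contra hc
        push Not at hc
        nlinarith
    exact ⟨h4 m (by nlinarith [sq_nonneg n]), h4 n (by nlinarith [sq_nonneg m])⟩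
  let B : Finset (ℤ × ℤ × ℤ × ℤ) := (Icc (-(N : ℤ)) N ×ˢ Icc (-(N : ℤ)) N ×ˢ Icc (-(N : ℤ)) N ×ˢ
    Icc (-(N : ℤ)) N).filter fun g => (g.1 * g.2.2.2 - g.2.1 * g.2.2.1 = 1 ∨
      g.1 * g.2.2.2 - g.2.1 * g.2.2.1 = -1) ∧ f g ≤ f (1, 0, 0, 1)
  have hmem : ∀ g : ℤ × ℤ × ℤ × ℤ, (g.1 * g.2.2.2 - g.2.1 * g.2.2.1 = 1 ∨
      g.1 * g.2.2.2 - g.2.1 * g.2.2.1 = -1) → f g ≤ f (1, 0, 0, 1) → g ∈ B := by
    intro g hg hf
    have h1 := hbd g.1 g.2.1 (le_trans (by
      have := hq0 g.2.2.1 g.2.2.2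
      simp only [f] at *
      linarith) hf)
    have h2 := hbd g.2.2.1 g.2.2.2 (le_trans (by
      have := hq0 g.1 g.2.1
      simp only [f] at *
      linarith) hf)
    refine mem_filter.2 ⟨?_, hg, hf⟩
    simp only [mem_product]
    exact ⟨h1.1, h1.2, h2.1, h2.2⟩
  obtain ⟨g, hgB, hmin⟩ := exists_min_image B f ⟨(1, 0, 0, 1), hmem _ (by simp) le_rfl⟩
  have hg := (mem_filter.1 hgB).2
  have hmin' : ∀ g' : ℤ × ℤ × ℤ × ℤ, (g'.1 * g'.2.2.2 - g'.2.1 * g'.2.2.1 = 1 ∨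
      g'.1 * g'.2.2.2 - g'.2.1 * g'.2.2.1 = -1) → f g ≤ f g' := by
    intro g' hg'
    by_cases h : f g' ≤ f (1, 0, 0, 1)
    · exact hmin g' (hmem g' hg' h)
    · push Not at h
      exact hg.2.trans h.le
  obtain ⟨m, n, k, l⟩ := g
  have hdet := hg.1
  simp only at hdet
  have c1 := hmin' (m, n, k - m, l - n) (by
    rcases hdet with h | h
    · left; simp only; linarith
    · right; simp only; linarith)
  have c2 := hmin' (m, n, k + m, l + n) (by
    rcases hdet with h | h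
    · left; simp only; linarith
    · right; simp only; linarith)
  have c3 := hmin' (m - k, n - l, k, l) (by
    rcases hdet with h | h
    · left; simp only; linarith
    · right; simp only; linarith)
  have c4 := hmin' (m + k, n + l, k, l) (by
    rcases hdet with h | h
    · left; simp only; linarith
    · right; simp only; linarith)
  simp only [f, q] at c1 c2 c3 c4
  push_cast at c1 c2 c3 c4
  set X : ℝ := (m : ℝ) ^ 2 * A + 2 * m * n * S + n ^ 2 * C with hX
  set Z : ℝ := (k : ℝ) ^ 2 * A + 2 * k * l * S + l ^ 2 * C with hZ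
  set T : ℝ := (m : ℝ) * k * A + (m * l + n * k) * S + n * l * C with hT
  have d1 : 2 * T ≤ X := by rw [hT, hX]; nlinarith [c1]
  have d2 : -(2 * T) ≤ X := by rw [hT, hX]; nlinarith [c2]
  have d3 : 2 * T ≤ Z := by rw [hT, hZ]; nlinarith [c3]
  have d4 : -(2 * T) ≤ Z := by rw [hT, hZ]; nlinarith [c4]
  rcases le_total X Z with hXZ | hXZ <;> rcases le_total 0 T with hT0 | hT0
  · exact ⟨m, n, k, l, hdet, hXZ, by linarith, d1⟩
  · refine ⟨m, n, -k, -l, by rcases hdet with h | h <;> [right; left] <;> linarith, ?_, ?_, ?_⟩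
    · push_cast
      rw [← hX]
      calc X ≤ Z := hXZ
        _ = _ := by rw [hZ]; ring
    · push_cast
      have : (m : ℝ) * -k * A + (m * -l + n * -k) * S + n * -l * C = -T := by rw [hT]; ring
      rw [this]; linarith
    · push_cast
      have : (m : ℝ) * -k * A + (m * -l + n * -k) * S + n * -l * C = -T := by rw [hT]; ring
      rw [this, ← hX]; linarith
  · refine ⟨k, l, m, n, by rcases hdet with h | h <;> [right; left] <;> linarith, ?_, ?_, ?_⟩
    · rw [← hX, ← hZ]; exact hXZ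
    · have : (k : ℝ) * m * A + (k * n + l * m) * S + l * n * C = T := by rw [hT]; ring
      rw [this]; linarith
    · have : (k : ℝ) * m * A + (k * n + l * m) * S + l * n * C = T := by rw [hT]; ring
      rw [this, ← hZ]; linarith
  · refine ⟨k, l, -m, -n, by rcases hdet with h | h <;> [left; right] <;> linarith, ?_, ?_, ?_⟩
    · push_cast
      rw [← hZ]
      calc Z ≤ X := hXZ
        _ = _ := by rw [hX]; ring
    · push_cast
      have : (k : ℝ) * -m * A + (k * -n + l * -m) * S + l * -n * C = -T := by rw [hT]; ring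
      rw [this]; linarith
    · push_cast
      have : (k : ℝ) * -m * A + (k * -n + l * -m) * S + l * -n * C = -T := by rw [hT]; ring
      rw [this, ← hZ]; linarith

end Pool.Agent.Y714.KF
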