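import Pool.Agent.Y714.KF.Emb
import Pool.Agent.Y714.KF.Gauss

set_option autoImplicit false
set_option linter.unusedSectionVars false
set_option linter.unusedSimpArgs false

/-! Real coordinates. -/

namespace Pool.Agent.Y714.KF

open NumberField FractionalIdeal Module Finset ComplexConjugate
open scoped nonZeroDivisors

section

variable {K : Type} [Field K] [NumberField K] {ι : Type} [Fintype ι] [DecidableEq ι]

/-- the real extension of an embedding -/
noncomputable def sg (b : Basis ι ℚ K) (σ : K →+* ℂ) (x : ι → ℝ) : ℂ := ∑ i, (x i : ℂ) * σ (b i)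

/-- the element with the given integral coordinates -/
noncomputable def el (b : Basis ι ℚ K) (z : ι → ℤ) : K := ∑ i, (z i : K) * b i

/-- the real tuple -/
noncomputable def rv (b : Basis ι ℚ K) (x y : ι → ℝ) : (K →+* ℂ) → ℂ × ℂ :=
  fun σ => (sg b σ x, sg b σ y)

theorem sg_add (b : Basis ι ℚ K) (σ : K →+* ℂ) (x y : ι → ℝ) :
    sg b σ (x + y) = sg b σ x + sg b σ y := by
  unfold sg
  rw [← sum_add_distrib]
  refine sum_congr rfl fun i _ => ?_
  simp only [Pi.add_apply]; push_cast; ring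

theorem sg_smul (b : Basis ι ℚ K) (σ : K →+* ℂ) (t : ℝ) (x : ι → ℝ) :
    sg b σ (t • x) = t * sg b σ x := by
  unfold sg
  rw [mul_sum]
  refine sum_congr rfl fun i _ => ?_
  simp only [Pi.smul_apply, smul_eq_mul]; push_cast; ring

theorem sg_int (b : Basis ι ℚ K) (σ : K →+* ℂ) (z : ι → ℤ) :
    sg b σ (fun i => (z i : ℝ)) = σ (el b z) := by
  unfold sg el
  rw [map_sum]
  refine sum_congr rfl fun i _ => ?_
  rw [map_mul, map_intCast]; push_cast; ring

theorem rv_int (b : Basis ι ℚ K) (z w : ι → ℤ) :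
    rv b (fun i => (z i : ℝ)) (fun i => (w i : ℝ)) = vec (el b z, el b w) := by
  funext σ
  simp only [rv, vec, sg_int]

theorem el_add (b : Basis ι ℚ K) (z w : ι → ℤ) : el b (z + w) = el b z + el b w := by
  unfold el
  rw [← sum_add_distrib]
  refine sum_congr rfl fun i _ => ?_
  simp only [Pi.add_apply]; push_cast; ring

theorem el_smul (b : Basis ι ℚ K) (m : ℤ) (z : ι → ℤ) : el b (m • z) = m * el b z := by
  unfold el
  rw [mul_sum]
  refine sum_congr rfl fun i _ => ?_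
  simp only [Pi.smul_apply, smul_eq_mul]; push_cast; ring

theorem el_injective (b : Basis ι ℚ K) : Function.Injective (el b) := by
  intro z w h
  have h1 : ∀ z : ι → ℤ, el b z = ∑ i, (z i : ℚ) • b i := by
    intro z
    unfold el
    refine sum_congr rfl fun i _ => ?_
    rw [Algebra.smul_def]; simp
  rw [h1, h1] at h
  have h2 := congrArg b.repr h
  funext i
  have h3 := congrArg (fun f => f i) h2
  simp only [map_sum, map_smul, Basis.repr_self] at h3
  simpa [Finsupp.single_apply] using h3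

/-- coordinates of a fractional ideal -/
theorem exists_basis (I : (FI K)ˣ) : ∃ b : Basis (Fin (finrank ℚ K)) ℚ K,
    ∀ x : K, x ∈ (I : FI K) ↔ ∃ z : Fin (finrank ℚ K) → ℤ, x = el b z := by
  set b := basisOfFractionalIdeal K I with hb
  have hcard : Fintype.card (Free.ChooseBasisIndex ℤ I) = finrank ℚ K :=
    (finrank_eq_card_basis b).symm
  let e1 := (Fintype.equivFinOfCardEq hcard).symm
  refine ⟨b.reindex e1.symm, fun x => ?_⟩
  have h1 : x ∈ (I : FI K) ↔ x ∈ Submodule.span ℤ (Set.range b) := by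
    rw [hb, mem_span_basisOfFractionalIdeal]; rfl
  have h2 : Set.range b = Set.range (b.reindex e1.symm) := by
    rw [Basis.range_reindex]
  rw [h1, h2, Submodule.mem_span_range_iff_exists_fun]
  constructor
  · rintro ⟨z, rfl⟩
    exact ⟨z, sum_congr rfl fun j _ => by rw [zsmul_eq_mul]⟩
  · rintro ⟨z, rfl⟩
    exact ⟨z, sum_congr rfl fun j _ => by rw [zsmul_eq_mul]⟩

/-- the bilinear form -/
noncomputable def bf (b : Basis ι ℚ K) (x y : ι → ℝ) : ℝ :=
  ∑ σ : K →+* ℂ, (sg b σ x * conj (sg b σ y)).re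

theorem bf_add_left (b : Basis ι ℚ K) (x x' y : ι → ℝ) :
    bf b (x + x') y = bf b x y + bf b x' y := by
  unfold bf
  rw [← sum_add_distrib]
  refine sum_congr rfl fun σ _ => ?_
  rw [sg_add, add_mul, Complex.add_re]

theorem bf_smul_left (b : Basis ι ℚ K) (t : ℝ) (x y : ι → ℝ) :
    bf b (t • x) y = t * bf b x y := by
  unfold bf
  rw [mul_sum]
  refine sum_congr rfl fun σ _ => ?_
  rw [sg_smul, mul_assoc, Complex.re_ofReal_mul]

theorem bf_symm (b : Basis ι ℚ K) (x y : ι → ℝ) : bf b x y = bf b y x := by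
  unfold bf
  refine sum_congr rfl fun σ _ => ?_
  rw [← Complex.conj_re, map_mul, Complex.conj_conj, mul_comm]

theorem bf_add_right (b : Basis ι ℚ K) (x y y' : ι → ℝ) :
    bf b x (y + y') = bf b x y + bf b x y' := by
  rw [bf_symm, bf_add_left, bf_symm b y, bf_symm b y']

theorem bf_smul_right (b : Basis ι ℚ K) (t : ℝ) (x y : ι → ℝ) :
    bf b x (t • y) = t * bf b x y := by
  rw [bf_symm, bf_smul_left, bf_symm]

theorem bf_self (b : Basis ι ℚ K) (x : ι → ℝ) : bf b x x = ∑ σ : K →+* ℂ, ‖sg b σ x‖ ^ 2 := by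
  unfold bf
  refine sum_congr rfl fun σ _ => ?_
  rw [Complex.mul_conj, Complex.ofReal_re, Complex.normSq_eq_norm_sq]

theorem bf_self_nonneg (b : Basis ι ℚ K) (x : ι → ℝ) : 0 ≤ bf b x x := by
  rw [bf_self]; exact sum_nonneg fun _ _ => by positivity

theorem bf_comb (b : Basis ι ℚ K) (m n : ℝ) (x y : ι → ℝ) :
    bf b (m • x + n • y) (m • x + n • y) = m ^ 2 * bf b x x + 2 * m * n * bf b x y +
      n ^ 2 * bf b y y := by
  rw [bf_add_left, bf_add_right, bf_add_right, bf_smul_left, bf_smul_left, bf_smul_left,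
    bf_smul_left, bf_smul_right, bf_smul_right, bf_smul_right, bf_smul_right, bf_symm b y x]
  ring

theorem bf_comb2 (b : Basis ι ℚ K) (m n k l : ℝ) (x y : ι → ℝ) :
    bf b (m • x + n • y) (k • x + l • y) = m * k * bf b x x + (m * l + n * k) * bf b x y +
      n * l * bf b y y := by
  rw [bf_add_left, bf_add_right, bf_add_right, bf_smul_left, bf_smul_left, bf_smul_left,
    bf_smul_left, bf_smul_right, bf_smul_right, bf_smul_right, bf_smul_right, bf_symm b y x]
  ring

theorem continuous_sg (b : Basis ι ℚ K) (σ : K →+* ℂ) : Continuous (sg b σ) := by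
  unfold sg
  fun_prop

theorem sg_conj (b : Basis ι ℚ K) (σ : K →+* ℂ) (x : ι → ℝ) :
    sg b (ComplexEmbedding.conjugate σ) x = conj (sg b σ x) := by
  unfold sg
  rw [map_sum]
  refine sum_congr rfl fun i _ => ?_
  rw [map_mul, Complex.conj_ofReal]
  rfl

theorem sg_ne (b : Basis ι ℚ K) (x : ι → ℝ) (h : ∀ σ : K →+* ℂ, sg b σ x = 0) : x = 0 := by
  classical
  have hcard : Fintype.card ι = Fintype.card (K →+* ℂ) := by
    rw [card_emb]; exact (finrank_eq_card_basis b).symm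
  let e := Fintype.equivOfCardEq hcard
  have hdet := det_emb_ne b e
  have h1 : Matrix.mulVec (Matrix.of fun i j => (e i) (b j)) (fun j => (x j : ℂ)) = 0 := by
    funext i
    have := h (e i)
    unfold sg at this
    rw [Matrix.mulVec, dotProduct, Pi.zero_apply, ← this]
    refine sum_congr rfl fun j _ => ?_
    rw [Matrix.of_apply, mul_comm]
  have h2 := Matrix.eq_zero_of_mulVec_eq_zero hdet h1
  funext i
  have := congrFun h2 i
  simpa using this

/-- comparison with the supremum norm -/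
theorem exists_bf_bound (b : Basis ι ℚ K) : ∃ c C : ℝ, 0 < c ∧ 0 < C ∧ ∀ x : ι → ℝ,
    c * ‖x‖ ^ 2 ≤ bf b x x ∧ bf b x x ≤ C * ‖x‖ ^ 2 := by
  let L : (ι → ℝ) →ₗ[ℝ] ((K →+* ℂ) → ℂ) :=
    { toFun := fun x σ => sg b σ x
      map_add' := fun x y => by funext σ; exact sg_add b σ x y
      map_smul' := fun t x => by funext σ; simpa using sg_smul b σ t x }
  have hinj : LinearMap.ker L = ⊥ := by
    rw [LinearMap.ker_eq_bot']
    intro x hx
    exact sg_ne b x fun σ => congrFun hx σ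
  obtain ⟨k, hk, hanti⟩ := L.exists_antilipschitzWith hinj
  have hk' : (0 : ℝ) < k := hk
  let Lc : (ι → ℝ) →L[ℝ] ((K →+* ℂ) → ℂ) := L.toContinuousLinearMap
  have hle : ∀ x, ‖L x‖ ≤ ‖Lc‖ * ‖x‖ := fun x => Lc.le_opNorm x
  have hge : ∀ x, ‖x‖ ≤ k * ‖L x‖ := by
    intro x
    have := hanti.le_mul_dist x 0
    simpa using this
  have hup : ∀ x : ι → ℝ, bf b x x ≤ Fintype.card (K →+* ℂ) * ‖L x‖ ^ 2 := by
    intro x
    rw [bf_self, ← nsmul_eq_mul, ← card_univ]
    refine sum_le_card_nsmul _ _ _ fun σ _ => ?_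
    exact pow_le_pow_left₀ (norm_nonneg _) (norm_le_pi_norm (L x) σ) 2
  have hlow : ∀ x : ι → ℝ, ‖L x‖ ^ 2 ≤ bf b x x := by
    intro x
    have h1 : ‖L x‖ ≤ Real.sqrt (bf b x x) := by
      rw [pi_norm_le_iff_of_nonneg (Real.sqrt_nonneg _)]
      intro σ
      refine Real.le_sqrt_of_sq_le ?_
      rw [bf_self]
      exact single_le_sum (f := fun σ : K →+* ℂ => ‖sg b σ x‖ ^ 2)
        (fun _ _ => by positivity) (mem_univ σ)
    calc ‖L x‖ ^ 2 ≤ (Real.sqrt (bf b x x)) ^ 2 := pow_le_pow_left₀ (norm_nonneg _) h1 2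
      _ = _ := Real.sq_sqrt (bf_self_nonneg b x)
  refine ⟨1 / (k : ℝ) ^ 2, Fintype.card (K →+* ℂ) * ‖Lc‖ ^ 2 + 1, by positivity, by positivity,
    fun x => ⟨?_, ?_⟩⟩
  · have h1 : ‖x‖ ^ 2 ≤ (k : ℝ) ^ 2 * ‖L x‖ ^ 2 := by
      rw [← mul_pow]; exact pow_le_pow_left₀ (norm_nonneg _) (hge x) 2
    rw [one_div, inv_mul_le_iff₀ (by positivity)]
    exact h1.trans (by gcongr; exact hlow x)
  · refine (hup x).trans ?_
    have h1 : ‖L x‖ ^ 2 ≤ ‖Lc‖ ^ 2 * ‖x‖ ^ 2 := by
      rw [← mul_pow]; exact pow_le_pow_left₀ (norm_nonneg _) (hle x) 2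
    calc (Fintype.card (K →+* ℂ) : ℝ) * ‖L x‖ ^ 2 ≤
        Fintype.card (K →+* ℂ) * (‖Lc‖ ^ 2 * ‖x‖ ^ 2) := by gcongr
      _ ≤ _ := by nlinarith [sq_nonneg ‖x‖]

/-- Lagrange's identity -/
theorem lagrange (b : Basis ι ℚ K) (x y : ι → ℝ) :
    2 * (bf b x x * bf b y y - bf b x y ^ 2) =
      ∑ σ : K →+* ℂ, ∑ τ : K →+* ℂ, ‖br (rv b x y σ) (rv b x y τ)‖ ^ 2 := by
  set H : ℂ := ∑ σ : K →+* ℂ, sg b σ x * conj (sg b σ y) with hH
  have hconj : conj H = H := by
    rw [hH, map_sum]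
    refine Fintype.sum_equiv (Function.Involutive.toPerm ComplexEmbedding.conjugate
      (fun σ => by ext x; simp [ComplexEmbedding.conjugate])) _ _ fun σ => ?_
    change conj (sg b σ x * conj (sg b σ y)) = sg b (ComplexEmbedding.conjugate σ) x *
      conj (sg b (ComplexEmbedding.conjugate σ) y)
    rw [sg_conj, sg_conj, map_mul]
  have hre : H.re = bf b x y := by rw [hH, Complex.re_sum]; rfl
  have hHr : H = (bf b x y : ℂ) := by
    rw [← hre]
    exact (Complex.conj_eq_iff_re.1 hconj).symm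
  have hx : ((bf b x x : ℝ) : ℂ) = ∑ σ : K →+* ℂ, sg b σ x * conj (sg b σ x) := by
    rw [bf_self]; push_cast
    refine sum_congr rfl fun σ _ => ?_
    rw [Complex.mul_conj, Complex.normSq_eq_norm_sq]; push_cast; rfl
  have hy : ((bf b y y : ℝ) : ℂ) = ∑ σ : K →+* ℂ, sg b σ y * conj (sg b σ y) := by
    rw [bf_self]; push_cast
    refine sum_congr rfl fun σ _ => ?_
    rw [Complex.mul_conj, Complex.normSq_eq_norm_sq]; push_cast; rfl
  have hHc : H = ∑ σ : K →+* ℂ, conj (sg b σ x) * sg b σ y := by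
    rw [← hconj, hH, map_sum]
    refine sum_congr rfl fun σ _ => ?_
    rw [map_mul, Complex.conj_conj]
  have key : ((∑ σ : K →+* ℂ, ∑ τ : K →+* ℂ, ‖br (rv b x y σ) (rv b x y τ)‖ ^ 2 : ℝ) : ℂ) =
      2 * (((bf b x x : ℝ) : ℂ) * ((bf b y y : ℝ) : ℂ) - H * H) := by
    push_cast
    have h1 : ∀ σ τ : K →+* ℂ, ((‖br (rv b x y σ) (rv b x y τ)‖ : ℝ) : ℂ) ^ 2 =
        (sg b σ x * conj (sg b σ x)) * (sg b τ y * conj (sg b τ y)) +
        (sg b σ y * conj (sg b σ y)) * (sg b τ x * conj (sg b τ x)) -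
        (sg b σ x * conj (sg b σ y)) * (conj (sg b τ x) * sg b τ y) -
        (conj (sg b σ x) * sg b σ y) * (sg b τ x * conj (sg b τ y)) := by
      intro σ τ
      have h2 : ((‖br (rv b x y σ) (rv b x y τ)‖ : ℝ) : ℂ) ^ 2 =
          br (rv b x y σ) (rv b x y τ) * conj (br (rv b x y σ) (rv b x y τ)) := by
        rw [Complex.mul_conj, Complex.normSq_eq_norm_sq]; push_cast; rfl
      rw [h2]
      simp only [br, rv, map_sub, map_mul]
      ring
    simp_rw [h1, sum_sub_distrib, sum_add_distrib, ← mul_sum, ← sum_mul]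
    rw [← hx, ← hy, ← hH, ← hHc]
    ring
  have h3 : ((2 * (bf b x x * bf b y y - bf b x y ^ 2) : ℝ) : ℂ) =
      ((∑ σ : K →+* ℂ, ∑ τ : K →+* ℂ, ‖br (rv b x y σ) (rv b x y τ)‖ ^ 2 : ℝ) : ℂ) := by
    rw [key, hHr]
    push_cast
    ring
  exact_mod_cast h3

end

end Pool.Agent.Y714.KF
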